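import Pool.Agent.Work.MP_207eeb_an.Defs

/-!
# A barrier argument.  Size: S.

If some `t1 ≥ t0` has `I t1 ≥ B`, let `t' = sInf {t ∈ [t0, t1] | B ≤ I t}` (closed, nonempty, `t' > t0` as `I t0 < B`).  On `[t0, t')` we have `I < B`,
so the derivative `-(D t) ≤ 0` there and `I` is antitone on `[t0, t']`: `I t' ≤ I t0 < B`, contradiction.  So `I < B` on `[t0, ∞)`,
`D ≥ 0` there and `I` is antitone (`antitoneOn_of_deriv_nonpos`).
-/

namespace Pool.Agent.Work.MP_207eeb_an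

open Set

private theorem bar_anti {I D : ℝ → ℝ} {t0 : ℝ} (hd : ∀ t, t0 ≤ t → HasDerivAt I (-(D t)) t)
    {S : Set ℝ} (hS : Convex ℝ S) (hS0 : S ⊆ Ici t0) (hD : ∀ t ∈ interior S, 0 ≤ D t) :
    AntitoneOn I S := by
  refine antitoneOn_of_deriv_nonpos hS (fun t ht => (hd t (hS0 ht)).continuousAt.continuousWithinAt)
    (fun t ht => (hd t (hS0 (interior_subset ht))).differentiableAt.differentiableWithinAt)
    fun t ht => ?_
  rw [(hd t (hS0 (interior_subset ht))).deriv]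
  exact neg_nonpos.2 (hD t ht)

theorem bar (I D : ℝ → ℝ) (t0 : ℝ) (hd : ∀ t, t0 ≤ t → HasDerivAt I (-(D t)) t) (B : ℝ) (h0 : I t0 < B)
    (hD : ∀ t, t0 ≤ t → I t < B → 0 ≤ D t) : AntitoneOn I (Ici t0) ∧ ∀ t, t0 ≤ t → I t < B := by
  have key : ∀ t, t0 ≤ t → I t < B := by
    intro t1 ht1
    by_contra hcon
    rw [not_lt] at hcon
    obtain ⟨S, hS⟩ : ∃ S : Set ℝ, S = Icc t0 t1 ∩ I ⁻¹' (Ici B) := ⟨_, rfl⟩
    have hcont : ContinuousOn I (Icc t0 t1) := fun t ht =>
      (hd t ht.1).continuousAt.continuousWithinAt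
    have hcl : IsClosed S := by
      rw [hS]
      exact hcont.preimage_isClosed_of_isClosed isClosed_Icc isClosed_Ici
    have hne : S.Nonempty := ⟨t1, by rw [hS]; exact ⟨⟨ht1, le_rfl⟩, hcon⟩⟩
    have hbd : BddBelow S := ⟨t0, fun t ht => by
      rw [hS] at ht
      exact ht.1.1⟩
    have hmem := hcl.csInf_mem hne hbd
    obtain ⟨t', ht'⟩ : ∃ t', t' = sInf S := ⟨_, rfl⟩
    rw [← ht'] at hmem
    have hm2 := hmem
    rw [hS] at hm2
    have hlt : ∀ t, t0 ≤ t → t < t' → I t < B := by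
      intro t h1 h2
      by_contra h3
      rw [not_lt] at h3
      have h4 : t ∈ S := by
        rw [hS]
        exact ⟨⟨h1, h2.le.trans hm2.1.2⟩, h3⟩
      have h5 := csInf_le hbd h4
      rw [← ht'] at h5
      linarith
    have han : AntitoneOn I (Icc t0 t') := bar_anti hd (convex_Icc t0 t') (fun t ht => ht.1)
      fun t ht => by
        rw [interior_Icc] at ht
        exact hD t ht.1.le (hlt t ht.1.le ht.2)
    have h6 := han ⟨le_rfl, hm2.1.1⟩ ⟨hm2.1.1, le_rfl⟩ hm2.1.1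
    have h7 : B ≤ I t' := hm2.2
    linarith
  exact ⟨bar_anti hd (convex_Ici t0) (fun t ht => ht) fun t ht =>
    hD t (interior_subset ht) (key t (interior_subset ht)), key⟩

end Pool.Agent.Work.MP_207eeb_an
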