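import Pool.Agent.Work.MP_207eeb_an.Defs

/-!
# Arclength parametrisation of a cell.  Size: M.

Let `S x = ∫_0^x v`, strictly increasing, continuous, `S' = v > 0`, `S (x + 1/n) = S x + ℓ` with `ℓ = (∫_0^1 v)/n`
(periodicity of `v`; sum of `n` cells gives `∫_0^1 v`).  So `S` tends to `±∞` and is a bijection of `ℝ`.  Let `φ y = S⁻¹ (ℓ y)`.
`φ' = ℓ / v (φ y)` (`HasDerivAt.of_local_left_inverse`, the inverse is continuous: `StrictMono.orderIsoOfSurjective`,
`OrderIso.continuous`), `φ (y + 1) = φ y + 1/n`, `φ 0 = 0`, `φ 1 = 1/n`.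
Integral: `∫_0^1 G (φ y) dy = ∫_0^1 (G v / ℓ)(φ y) φ'(y) dy = ℓ⁻¹ ∫_0^{1/n} G v = ℓ⁻¹ n⁻¹ ∫_0^1 G v`
(substitution `intervalIntegral.integral_comp_mul_deriv`, then periodicity: the integral of a `1/n`-periodic function over
`[0, 1]` is `n` times that over `[0, 1/n]`), and `ℓ n = ∫_0^1 v`.
-/

namespace Pool.Agent.Work.MP_207eeb_an

open Set intervalIntegral MeasureTheory

private theorem cells (f : ℝ → ℝ) (hf : Continuous f) (n : ℕ) (hn : 1 ≤ n)
    (hper : ∀ x, f (x + 1 / n) = f x) :
    ∫ x in (0 : ℝ)..1, f x = n * ∫ x in (0 : ℝ)..(1 / n), f x := by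
  have hp : Function.Periodic f (1 / n) := hper
  have hn0 : (n : ℝ) ≠ 0 := by positivity
  have h1 := hp.intervalIntegral_add_zsmul_eq (n : ℤ) 0 (fun a b => hf.intervalIntegrable a b)
  simp only [zero_add, zsmul_eq_mul, Int.cast_natCast] at h1
  rw [mul_one_div_cancel hn0] at h1
  exact h1

theorem cell (v : ℝ → ℝ) (hv : Continuous v) (hpos : ∀ x, 0 < v x) (n : ℕ) (hn : 1 ≤ n)
    (hper : ∀ x, v (x + 1 / n) = v x) :
    ∃ φ : ℝ → ℝ, (∀ y, HasDerivAt φ (((∫ x in (0 : ℝ)..1, v x) / n) / v (φ y)) y) ∧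
      (∀ y, φ (y + 1) = φ y + 1 / n) ∧
      ∀ G : ℝ → ℝ, Continuous G → (∀ x, G (x + 1 / n) = G x) →
        (∫ x in (0 : ℝ)..1, v x) * (∫ y in (0 : ℝ)..1, G (φ y)) = ∫ x in (0 : ℝ)..1, G x * v x := by
  have hn0 : (0 : ℝ) < n := by exact_mod_cast hn
  have hp : Function.Periodic v (1 / n) := hper
  have hvi : ∀ a b, IntervalIntegrable v volume a b := fun a b => hv.intervalIntegrable a b
  set S : ℝ → ℝ := fun x => ∫ t in (0 : ℝ)..x, v t with hS
  have hSd : ∀ x, HasDerivAt S (v x) x := fun x =>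
    intervalIntegral.integral_hasDerivAt_right (hvi 0 x) (hv.stronglyMeasurableAtFilter _ _) hv.continuousAt
  have hmono : StrictMono S := by
    apply strictMono_of_deriv_pos
    intro x
    rw [(hSd x).deriv]
    exact hpos x
  have hScont : Continuous S := continuous_iff_continuousAt.mpr fun y => (hSd y).continuousAt
  have htop : Filter.Tendsto S Filter.atTop Filter.atTop :=
    hp.tendsto_atTop_intervalIntegral_of_pos' (hvi _ _) hpos (by positivity)
  have hbot : Filter.Tendsto S Filter.atBot Filter.atBot :=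
    hp.tendsto_atBot_intervalIntegral_of_pos' (hvi _ _) hpos (by positivity)
  have hsurj : Function.Surjective S := hScont.surjective htop hbot
  set e : ℝ ≃o ℝ := StrictMono.orderIsoOfSurjective S hmono hsurj with he
  have heS : ∀ x, e x = S x := fun x => rfl
  have hSe : ∀ y, S (e.symm y) = y := fun y => by rw [← heS]; exact e.apply_symm_apply y
  have hed : ∀ y, HasDerivAt e.symm (v (e.symm y))⁻¹ y := by
    intro y
    exact HasDerivAt.of_local_left_inverse e.symm.continuous.continuousAt (hSd _) (hpos _).ne'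
      (Filter.Eventually.of_forall hSe)
  set ℓ : ℝ := (∫ x in (0 : ℝ)..1, v x) / n with hℓ
  have hcell : ℓ = ∫ x in (0 : ℝ)..(1 / n), v x := by
    rw [hℓ, cells v hv n hn hper]
    field_simp
  have hIpos : 0 < ∫ x in (0 : ℝ)..1, v x :=
    intervalIntegral.intervalIntegral_pos_of_pos (hvi 0 1) hpos (by norm_num)
  have hℓpos : 0 < ℓ := by rw [hℓ]; positivity
  have hadd : ∀ x, S (x + 1 / n) = S x + ℓ := by
    intro x
    have h1 : S (x + 1 / n) - S x = ∫ t in x..(x + 1 / n), v t := by
      simp only [hS]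
      rw [← intervalIntegral.integral_add_adjacent_intervals (hvi 0 x) (hvi x (x + 1 / n))]
      ring
    have h2 := hp.intervalIntegral_add_eq x 0
    rw [zero_add] at h2
    rw [h2, ← hcell] at h1
    linarith
  refine ⟨fun y => e.symm (ℓ * y), fun y => ?_, fun y => ?_, fun G hG hGp => ?_⟩
  · have h1 : HasDerivAt (fun y : ℝ => ℓ * y) ℓ y := by
      simpa using (hasDerivAt_id y).const_mul ℓ
    have h2 := (hed (ℓ * y)).comp y h1
    have h3 : (v (e.symm (ℓ * y)))⁻¹ * ℓ = ℓ / v (e.symm (ℓ * y)) := by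
      rw [div_eq_mul_inv, mul_comm]
    rw [h3] at h2
    exact h2
  · show e.symm (ℓ * (y + 1)) = e.symm (ℓ * y) + 1 / n
    apply e.injective
    rw [e.apply_symm_apply, heS, hadd, hSe]
    ring
  · set φ : ℝ → ℝ := fun y => e.symm (ℓ * y) with hφ
    have hφd : ∀ y, HasDerivAt φ (ℓ / v (φ y)) y := by
      intro y
      have h1 : HasDerivAt (fun y : ℝ => ℓ * y) ℓ y := by
        simpa using (hasDerivAt_id y).const_mul ℓ
      have h2 := (hed (ℓ * y)).comp y h1
      have h3 : (v (e.symm (ℓ * y)))⁻¹ * ℓ = ℓ / v (e.symm (ℓ * y)) := by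
        rw [div_eq_mul_inv, mul_comm]
      rw [h3] at h2
      exact h2
    have hφc : Continuous φ := continuous_iff_continuousAt.mpr fun y => (hφd y).continuousAt
    have h0 : φ 0 = 0 := by
      apply e.injective
      rw [heS, heS]
      show S (e.symm (ℓ * 0)) = S 0
      rw [hSe]
      simp [hS]
    have h1 : φ 1 = 1 / n := by
      apply e.injective
      rw [heS, heS]
      show S (e.symm (ℓ * 1)) = S (1 / n)
      rw [hSe, mul_one, hcell]
    have hsub := intervalIntegral.integral_comp_mul_deriv (a := 0) (b := 1) (f := φ)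
      (f' := fun y => ℓ / v (φ y)) (g := fun x => G x * v x / ℓ) (fun y _ => hφd y)
      (by
        apply Continuous.continuousOn
        exact continuous_const.div (hv.comp hφc) fun y => (hpos _).ne')
      (by fun_prop)
    have hl : ∀ y, ((fun x => G x * v x / ℓ) ∘ φ) y * (ℓ / v (φ y)) = G (φ y) := by
      intro y
      have h2 := (hpos (φ y)).ne'
      simp only [Function.comp]
      field_simp
    simp_rw [hl] at hsub
    rw [h0, h1, intervalIntegral.integral_div] at hsub
    have hGv := cells (fun x => G x * v x) (by fun_prop) n hn (fun x => by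
      show G (x + 1 / n) * v (x + 1 / n) = G x * v x
      rw [hGp, hper])
    rw [hsub, hGv]
    have h3 : (∫ x in (0 : ℝ)..1, v x) = n * ℓ := by rw [hℓ]; field_simp
    rw [h3]
    field_simp

end Pool.Agent.Work.MP_207eeb_an
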