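import Pool.Agent.Work.MP_207eeb_an.Lb

/-!
# Convergence of `E L`.  Size: S-M.

`hr` gives `D = W L - E P ≥ c (I - J)/L^4 ≥ 0`, `I = E L`.  By `lb`, `L^4 ≤ C t` on `[t0, ∞)`.  So `I' = -D ≤ -(c/C) (I - J)/t`, hence
`(I - J) t^(c/C)` has derivative `≤ 0` on `[t0, ∞)` (`Real.rpow`, or: `log`), and `0 ≤ I - J ≤ (I t0 - J) (t0/t)^(c/C) → 0`.
-/

namespace Pool.Agent.Work.MP_207eeb_an

open Set Filter Topology

variable {E L W P : ℝ → ℝ}

theorem conv (h : Ode E L W P) (t0 : ℝ) (ht0 : 0 < t0) (J c : ℝ) (hc : 0 < c)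
    (hJ : ∀ t, t0 ≤ t → J ≤ E t * L t)
    (hr : ∀ t, t0 ≤ t → c * (E t * L t - J) ≤ L t ^ 4 * (W t * L t - E t * P t)) :
    Tendsto (fun t => E t * L t) atTop (𝓝 J) := by
  have hD : ∀ t, t0 ≤ t → 0 ≤ W t * L t - E t * P t := by
    intro t ht
    have h1 : 0 ≤ L t ^ 4 * (W t * L t - E t * P t) :=
      le_trans (mul_nonneg hc.le (by linarith [hJ t ht])) (hr t ht)
    have h2 : 0 < L t ^ 4 := pow_pos (h.Lpos t (lt_of_lt_of_le ht0 ht)) 4
    exact (mul_nonneg_iff_of_pos_left h2).mp h1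
  obtain ⟨C, hC, hL⟩ := lb h t0 ht0 hD
  set a : ℝ := c / C with ha
  have ha0 : 0 < a := div_pos hc hC
  have hkey : ∀ t, t0 ≤ t → a * (E t * L t - J) ≤ t * (W t * L t - E t * P t) := by
    intro t ht
    have h1 := hr t ht
    have h2 : L t ^ 4 * (W t * L t - E t * P t) ≤ C * t * (W t * L t - E t * P t) :=
      mul_le_mul_of_nonneg_right (hL t ht) (hD t ht)
    have h3 : c * (E t * L t - J) ≤ C * (t * (W t * L t - E t * P t)) := by linarith
    rw [ha, div_mul_eq_mul_div, div_le_iff₀ hC]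
    linarith
  let G : ℝ → ℝ := fun t => (E t * L t - J) * t ^ a
  have hG : ∀ t, t0 ≤ t → HasDerivAt G (-(W t * L t - E t * P t) * t ^ a + (E t * L t - J) * (a * t ^ (a - 1))) t := by
    intro t ht
    have ht' : 0 < t := lt_of_lt_of_le ht0 ht
    have h1 := (dI h ht').sub_const J
    have h2 : HasDerivAt (fun x : ℝ => x ^ a) (a * t ^ (a - 1)) t :=
      Real.hasDerivAt_rpow_const (Or.inl ht'.ne')
    exact h1.mul h2
  have hanti : AntitoneOn G (Ici t0) := by
    apply antitoneOn_of_deriv_nonpos (convex_Ici t0)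
    · intro t ht
      exact (hG t ht).continuousAt.continuousWithinAt
    · intro t ht
      rw [interior_Ici] at ht
      exact (hG t (le_of_lt ht)).differentiableAt.differentiableWithinAt
    · intro t ht
      rw [interior_Ici] at ht
      have ht' : 0 < t := lt_trans ht0 ht
      rw [(hG t (le_of_lt ht)).deriv]
      have h3 : t ^ a = t * t ^ (a - 1) := by
        rw [Real.rpow_sub_one ht'.ne']; field_simp
      rw [h3]
      have h4 : 0 < t ^ (a - 1) := Real.rpow_pos_of_pos ht' _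
      have h5 := hkey t (le_of_lt ht)
      nlinarith
  have hlim : Tendsto (fun t : ℝ => G t0 * t ^ (-a)) atTop (𝓝 0) := by
    have := (tendsto_rpow_neg_atTop ha0).const_mul (G t0)
    simpa using this
  have hsq : Tendsto (fun t => E t * L t - J) atTop (𝓝 0) := by
    apply squeeze_zero' (g := fun t : ℝ => G t0 * t ^ (-a)) _ _ hlim
    · filter_upwards [eventually_ge_atTop t0] with t ht
      linarith [hJ t ht]
    · filter_upwards [eventually_ge_atTop t0] with t ht
      have ht' : 0 < t := lt_of_lt_of_le ht0 ht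
      have h1 : G t ≤ G t0 := hanti (mem_Ici.mpr le_rfl) (mem_Ici.mpr ht) ht
      have h2 : 0 < t ^ a := Real.rpow_pos_of_pos ht' _
      have h3 : (E t * L t - J) * t ^ a ≤ G t0 := h1
      rw [Real.rpow_neg ht'.le, ← div_eq_mul_inv, le_div_iff₀ h2]
      exact h3
  have := hsq.add_const J
  simpa using this

end Pool.Agent.Work.MP_207eeb_an
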