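import Mathlib

/-!
# The free elastic flow of closed planar curves: definitions

A curve is a function `c : ℝ → ℂ` of a parameter `x`, closed with period `1`; a family of curves is
`γ : ℝ → ℝ → ℂ`, `γ t x`.
-/

namespace Pool.Agent.Work.MP_207eeb_an

open scoped ContDiff
open Set

/-- Speed `|c'|`. -/
noncomputable def spd (c : ℝ → ℂ) (x : ℝ) : ℝ := ‖deriv c x‖

/-- Derivative of a function with respect to arclength. -/
noncomputable def dS (c : ℝ → ℂ) (f : ℝ → ℝ) (x : ℝ) : ℝ := deriv f x / spd c x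

/-- Unit tangent. -/
noncomputable def tng (c : ℝ → ℂ) (x : ℝ) : ℂ := deriv c x / (spd c x : ℂ)

/-- Unit normal, the unit tangent turned by a right angle. -/
noncomputable def nrm (c : ℝ → ℂ) (x : ℝ) : ℂ := Complex.I * tng c x

/-- Signed curvature `Im (conj c' * c'') / |c'|^3`, so that `c_ss = kap * nrm`. -/
noncomputable def kap (c : ℝ → ℂ) (x : ℝ) : ℝ :=
  ((starRingEnd ℂ) (deriv c x) * deriv (deriv c) x).im / spd c x ^ 3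

/-- The normal velocity `-(kap_ss + kap^3 / 2)`. -/
noncomputable def vel (c : ℝ → ℂ) (x : ℝ) : ℝ := -(dS c (dS c (kap c)) x + kap c x ^ 3 / 2)

/-- Length. -/
noncomputable def len (c : ℝ → ℂ) : ℝ := ∫ x in (0 : ℝ)..1, spd c x

/-- Elastic energy. -/
noncomputable def ener (c : ℝ → ℂ) : ℝ := (1 / 2) * ∫ x in (0 : ℝ)..1, kap c x ^ 2 * spd c x

/-- Rotation number. -/
noncomputable def rot (c : ℝ → ℂ) : ℝ := (2 * Real.pi)⁻¹ * ∫ x in (0 : ℝ)..1, kap c x * spd c x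

/-- Total absolute curvature. -/
noncomputable def tac (c : ℝ → ℂ) : ℝ := ∫ x in (0 : ℝ)..1, |kap c x| * spd c x

/-- A smooth solution, for times `t > 0`, of the free elastic flow of closed immersed planar curves. -/
structure Flow (γ : ℝ → ℝ → ℂ) : Prop where
  smooth : ContDiffOn ℝ ∞ (fun p : ℝ × ℝ => γ p.1 p.2) (Ioi 0 ×ˢ univ)
  closed : ∀ t, 0 < t → ∀ x, γ t (x + 1) = γ t x
  immersed : ∀ t, 0 < t → ∀ x, deriv (γ t) x ≠ 0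
  flow : ∀ t, 0 < t → ∀ x, deriv (fun s => γ s x) t = (vel (γ t) x : ℂ) * nrm (γ t) x

/-- The curves of the family are invariant under a rotation, which acts on them by the parameter
shift `1 / n`; for `n = 1` every closed family has this property. -/
def Symm (n : ℕ) (γ : ℝ → ℝ → ℂ) : Prop :=
  ∃ ζ : ℂ, ‖ζ‖ = 1 ∧ ∀ t, 0 < t → ∃ b : ℂ, ∀ x, γ t (x + 1 / n) = ζ * γ t x + b

/-! ## Auxiliary notions -/

/-- Smooth on `(0, ∞) × ℝ`. -/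
def Sm {F : Type*} [NormedAddCommGroup F] [NormedSpace ℝ F] (f : ℝ → ℝ → F) : Prop :=
  ContDiffOn ℝ ∞ (fun p : ℝ × ℝ => f p.1 p.2) (Ioi 0 ×ˢ univ)

/-- Continuous on `(0, ∞) × ℝ`. -/
def Ct {F : Type*} [TopologicalSpace F] (f : ℝ → ℝ → F) : Prop :=
  ContinuousOn (fun p : ℝ × ℝ => f p.1 p.2) (Ioi 0 ×ˢ univ)

/-- `-(k2 + k^3 / 2)`. -/
noncomputable def vf (k k2 : ℝ → ℝ → ℝ) (t x : ℝ) : ℝ := -(k2 t x + k t x ^ 3 / 2)

/-- The scalar evolution system: `v` speed, `k` curvature, `k1 = k_s`, `k2 = k_ss`, `V = vf k k2`,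
`V1 = V_s`, `V2 = V_ss`. -/
structure Sys (v k k1 k2 V1 V2 : ℝ → ℝ → ℝ) : Prop where
  cv : Ct v
  ck : Ct k
  ck1 : Ct k1
  ck2 : Ct k2
  cV1 : Ct V1
  cV2 : Ct V2
  vpos : ∀ t, 0 < t → ∀ x, 0 < v t x
  pv : ∀ t, 0 < t → ∀ x, v t (x + 1) = v t x
  pk : ∀ t, 0 < t → ∀ x, k t (x + 1) = k t x
  pk1 : ∀ t, 0 < t → ∀ x, k1 t (x + 1) = k1 t x
  pk2 : ∀ t, 0 < t → ∀ x, k2 t (x + 1) = k2 t x
  pV1 : ∀ t, 0 < t → ∀ x, V1 t (x + 1) = V1 t x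
  dk : ∀ t, 0 < t → ∀ x, HasDerivAt (k t) (v t x * k1 t x) x
  dk1 : ∀ t, 0 < t → ∀ x, HasDerivAt (k1 t) (v t x * k2 t x) x
  dV : ∀ t, 0 < t → ∀ x, HasDerivAt (vf k k2 t) (v t x * V1 t x) x
  dV1 : ∀ t, 0 < t → ∀ x, HasDerivAt (V1 t) (v t x * V2 t x) x
  tv : ∀ t, 0 < t → ∀ x, HasDerivAt (fun s => v s x) (-(k t x * vf k k2 t x * v t x)) t
  tk : ∀ t, 0 < t → ∀ x, HasDerivAt (fun s => k s x) (V2 t x + k t x ^ 2 * vf k k2 t x) t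

/-- length -/
noncomputable def fL (v : ℝ → ℝ → ℝ) (t : ℝ) : ℝ := ∫ x in (0 : ℝ)..1, v t x

/-- energy -/
noncomputable def fE (v k : ℝ → ℝ → ℝ) (t : ℝ) : ℝ := (1 / 2) * ∫ x in (0 : ℝ)..1, k t x ^ 2 * v t x

/-- total curvature -/
noncomputable def fR (v k : ℝ → ℝ → ℝ) (t : ℝ) : ℝ := ∫ x in (0 : ℝ)..1, k t x * v t x

/-- dissipation `∫ V^2` -/
noncomputable def fW (v k k2 : ℝ → ℝ → ℝ) (t : ℝ) : ℝ :=
  ∫ x in (0 : ℝ)..1, vf k k2 t x ^ 2 * v t x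

/-- `-∫ k V`, the time derivative of the length -/
noncomputable def fP (v k k2 : ℝ → ℝ → ℝ) (t : ℝ) : ℝ :=
  -∫ x in (0 : ℝ)..1, k t x * vf k k2 t x * v t x

/-- `u` is `1`-periodic with derivatives `u1 = u'`, `u2 = u''` (continuous). -/
structure Per (u u1 u2 : ℝ → ℝ) : Prop where
  d1 : ∀ x, HasDerivAt u (u1 x) x
  d2 : ∀ x, HasDerivAt u1 (u2 x) x
  c2 : Continuous u2
  per : ∀ x, u (x + 1) = u x

/-- `∫ (u'' + u^3/2)^2 - (1/2) (∫ u^2) ((1/2) ∫ u^4 - ∫ u'^2)` over a period. -/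
noncomputable def qf (u u1 u2 : ℝ → ℝ) : ℝ :=
  (∫ x in (0 : ℝ)..1, (u2 x + u x ^ 3 / 2) ^ 2) -
    (1 / 2) * (∫ x in (0 : ℝ)..1, u x ^ 2) *
      ((1 / 2) * (∫ x in (0 : ℝ)..1, u x ^ 4) - ∫ x in (0 : ℝ)..1, u1 x ^ 2)

/-- Energy `E`, length `L`, dissipation `W = -E'`, `P = L'` as functions of time. -/
structure Ode (E L W P : ℝ → ℝ) : Prop where
  Epos : ∀ t, 0 < t → 0 < E t
  Lpos : ∀ t, 0 < t → 0 < L t
  dE : ∀ t, 0 < t → HasDerivAt E (-(W t)) t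
  dL : ∀ t, 0 < t → HasDerivAt L (P t) t
  cs : ∀ t, 0 < t → P t ^ 2 ≤ 2 * E t * W t

end Pool.Agent.Work.MP_207eeb_an
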