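import Pool.Agent.Work.MP_207eeb_an.Defs

/-!
# Time derivatives of length, energy and total curvature.  Size: M.

* `hasDerivAt_int` (differentiation under the integral): use `intervalIntegral.hasDerivAt_integral_of_dominated_loc_of_deriv_le`
  near `t > 0` on the compact set `[t/2, 2t] × [0, 1]` (bounded derivative by compactness), or integrate:
  any proof.
* `ev_L`: the integrand derivative is `tv`, continuous on `(0, ∞) × ℝ`.
* `ev_rot`: `(k v)_t = (V2 + k^2 V) v + k (-(k V v)) = V2 v = (V1)_x`, and `∫_0^1 v V2 = V1 1 - V1 0 = 0`.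
* `ev_E`: `(k^2 v)_t = 2 k (V2 + k^2 V) v - k^3 V v = 2 k V2 v + k^3 V v`.  Integrate by parts (all functions periodic):
  `∫ k V2 v = ∫ k (V1)_x = - ∫ k_x V1 = - ∫ v k1 V1 = - ∫ k1 V_x = ∫ (k1)_x V = ∫ v k2 V`.  So the derivative of
  `(1/2) ∫ k^2 v` is `∫ V (k2 + k^3/2) v = - ∫ V^2 v`, as `V = vf k k2 = -(k2 + k^3/2)`.
* `P_eq`: `-∫ k V v = ∫ k (k2 + k^3/2) v = (1/2) ∫ k^4 v + ∫ k (k1)_x = (1/2) ∫ k^4 v - ∫ k1^2 v`.
* `cs_kV`: Cauchy-Schwarz, `(∫ k V v)^2 ≤ (∫ k^2 v) (∫ V^2 v)` (expand `0 ≤ ∫ (a k + b V)^2 v` for all `a, b`); same for `cs_R`.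
* `fR_const`: derivative `0` on `(0, ∞)`.
-/

namespace Pool.Agent.Work.MP_207eeb_an

open Set intervalIntegral MeasureTheory

private theorem ct_slice {f : ℝ → ℝ → ℝ} (hf : Ct f) {t : ℝ} (ht : 0 < t) : Continuous (f t) := by
  have h1 : ContinuousOn (fun x : ℝ => ((t, x) : ℝ × ℝ)) univ := by fun_prop
  have h2 : ContinuousOn ((fun p : ℝ × ℝ => f p.1 p.2) ∘ (fun x : ℝ => ((t, x) : ℝ × ℝ))) univ :=
    ContinuousOn.comp hf h1 (fun x _ => ⟨ht, mem_univ _⟩)
  exact continuousOn_univ.1 h2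

private theorem ct_bound {f : ℝ → ℝ → ℝ} (hf : Ct f) {a b : ℝ} (ha : 0 < a) :
    ∃ C : ℝ, ∀ s ∈ Icc a b, ∀ x ∈ Icc (0 : ℝ) 1, ‖f s x‖ ≤ C := by
  have hc : IsCompact (Icc a b ×ˢ Icc (0 : ℝ) 1) := isCompact_Icc.prod isCompact_Icc
  have hsub : (Icc a b ×ˢ Icc (0 : ℝ) 1) ⊆ (Ioi 0 ×ˢ (univ : Set ℝ)) := by
    rintro ⟨s, x⟩ ⟨hs, _⟩
    exact ⟨lt_of_lt_of_le ha hs.1, mem_univ _⟩
  obtain ⟨C, hC⟩ := hc.exists_bound_of_continuousOn (ContinuousOn.mono hf hsub)
  exact ⟨C, fun s hs x hx => hC (s, x) ⟨hs, hx⟩⟩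

theorem hasDerivAt_int {f f' : ℝ → ℝ → ℝ} (hf : Ct f) (hf' : Ct f')
    (hd : ∀ t, 0 < t → ∀ x, HasDerivAt (fun s => f s x) (f' t x) t) {t : ℝ} (ht : 0 < t) :
    HasDerivAt (fun s => ∫ x in (0 : ℝ)..1, f s x) (∫ x in (0 : ℝ)..1, f' t x) t := by
  obtain ⟨C, hC⟩ := ct_bound hf' (a := t / 2) (b := 2 * t) (by linarith)
  have hs : Icc (t / 2) (2 * t) ∈ nhds t := Icc_mem_nhds (by linarith) (by linarith)
  refine (intervalIntegral.hasDerivAt_integral_of_dominated_loc_of_deriv_le (μ := volume)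
    (F := f) (F' := f') (x₀ := t) (s := Icc (t / 2) (2 * t)) (bound := fun _ => C) hs
    ?_ ?_ ?_ ?_ ?_ ?_).2
  · filter_upwards [hs] with s hs1
    exact (ct_slice hf (t := s) (by linarith [hs1.1])).aestronglyMeasurable
  · exact (ct_slice hf ht).intervalIntegrable _ _
  · exact (ct_slice hf' ht).aestronglyMeasurable
  · refine Filter.Eventually.of_forall fun x hx s hs1 => ?_
    rw [uIoc_of_le zero_le_one] at hx
    exact hC s hs1 x ⟨hx.1.le, hx.2⟩
  · exact continuous_const.intervalIntegrable _ _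
  · refine Filter.Eventually.of_forall fun x _ s hs1 => ?_
    exact hd s (by linarith [hs1.1]) x

variable {v k k1 k2 V1 V2 : ℝ → ℝ → ℝ}

private theorem ct_mul {f g : ℝ → ℝ → ℝ} (hf : Ct f) (hg : Ct g) : Ct (fun t x => f t x * g t x) :=
  ContinuousOn.mul hf hg

private theorem ct_add {f g : ℝ → ℝ → ℝ} (hf : Ct f) (hg : Ct g) : Ct (fun t x => f t x + g t x) :=
  ContinuousOn.add hf hg

private theorem ct_neg {f : ℝ → ℝ → ℝ} (hf : Ct f) : Ct (fun t x => -f t x) :=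
  ContinuousOn.neg hf

private theorem ct_pow {f : ℝ → ℝ → ℝ} (hf : Ct f) (n : ℕ) : Ct (fun t x => f t x ^ n) :=
  ContinuousOn.pow hf n

private theorem ct_V (h : Sys v k k1 k2 V1 V2) : Ct (vf k k2) := by
  have h1 : Ct (fun t x => -(k2 t x + k t x ^ 3 / 2)) :=
    ContinuousOn.neg (ContinuousOn.add h.ck2 (ContinuousOn.div_const (ContinuousOn.pow h.ck 3) 2))
  exact h1

/-- integration by parts over a period -/
private theorem ibp {f g f' g' : ℝ → ℝ} (hf : ∀ x, HasDerivAt f (f' x) x)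
    (hg : ∀ x, HasDerivAt g (g' x) x) (cf : Continuous f') (cg : Continuous g')
    (pf : f 1 = f 0) (pg : g 1 = g 0) :
    ∫ x in (0 : ℝ)..1, f x * g' x = -∫ x in (0 : ℝ)..1, f' x * g x := by
  have h := intervalIntegral.integral_mul_deriv_eq_deriv_mul (a := 0) (b := 1) (u := f) (v := g)
    (u' := f') (v' := g') (fun x _ => hf x) (fun x _ => hg x) (cf.intervalIntegrable _ _)
    (cg.intervalIntegrable _ _)
  rw [h, pf, pg]
  ring

private theorem iadd {f g : ℝ → ℝ} (hf : Continuous f) (hg : Continuous g) :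
    (∫ x in (0 : ℝ)..1, (f x + g x)) = (∫ x in (0 : ℝ)..1, f x) + ∫ x in (0 : ℝ)..1, g x :=
  intervalIntegral.integral_add (hf.intervalIntegrable _ _) (hg.intervalIntegrable _ _)

private theorem icm (c : ℝ) (f : ℝ → ℝ) :
    (∫ x in (0 : ℝ)..1, c * f x) = c * ∫ x in (0 : ℝ)..1, f x :=
  intervalIntegral.integral_const_mul _ _

private theorem ineg (f : ℝ → ℝ) :
    (∫ x in (0 : ℝ)..1, -f x) = -∫ x in (0 : ℝ)..1, f x :=
  intervalIntegral.integral_neg

private theorem per01 {f : ℝ → ℝ} (h : ∀ x, f (x + 1) = f x) : f 1 = f 0 := by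
  have := h 0
  rwa [zero_add] at this

private theorem pV (h : Sys v k k1 k2 V1 V2) {t : ℝ} (ht : 0 < t) (x : ℝ) :
    vf k k2 t (x + 1) = vf k k2 t x := by
  unfold vf
  rw [h.pk2 t ht x, h.pk t ht x]

theorem ev_L (h : Sys v k k1 k2 V1 V2) {t : ℝ} (ht : 0 < t) : HasDerivAt (fL v) (fP v k k2 t) t := by
  have h1 : Ct (fun t x => -(k t x * vf k k2 t x * v t x)) :=
    ct_neg (ct_mul (ct_mul h.ck (ct_V h)) h.cv)
  have h2 := hasDerivAt_int h.cv h1 h.tv ht
  have h3 : (∫ x in (0 : ℝ)..1, -(k t x * vf k k2 t x * v t x)) = fP v k k2 t := by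
    unfold fP
    exact ineg _
  rw [h3] at h2
  exact h2

theorem ev_rot (h : Sys v k k1 k2 V1 V2) {t : ℝ} (ht : 0 < t) : HasDerivAt (fR v k) 0 t := by
  have h1 : Ct (fun t x => V2 t x * v t x) := ct_mul h.cV2 h.cv
  have h0 : ∀ t, 0 < t → ∀ x, HasDerivAt (fun s => k s x * v s x) (V2 t x * v t x) t := by
    intro t ht x
    have h5 := (h.tk t ht x).mul (h.tv t ht x)
    refine h5.congr_deriv ?_
    ring
  have h2 := hasDerivAt_int (ct_mul h.ck h.cv) h1 h0 ht
  have h3 : (∫ x in (0 : ℝ)..1, V2 t x * v t x) = 0 := by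
    have h5 : ∀ x, V2 t x * v t x = v t x * V2 t x := fun x => mul_comm _ _
    simp only [h5]
    have h4 : ∫ x in (0 : ℝ)..1, v t x * V2 t x = V1 t 1 - V1 t 0 :=
      intervalIntegral.integral_eq_sub_of_hasDerivAt (fun x _ => h.dV1 t ht x)
        ((ct_slice (ct_mul h.cv h.cV2) ht).intervalIntegrable _ _)
    rw [per01 (h.pV1 t ht), sub_self] at h4
    exact h4
  rw [h3] at h2
  exact h2

private theorem by_parts (h : Sys v k k1 k2 V1 V2) {t : ℝ} (ht : 0 < t) :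
    ∫ x in (0 : ℝ)..1, k t x * (v t x * V2 t x) = ∫ x in (0 : ℝ)..1, v t x * k2 t x * vf k k2 t x := by
  have e1 := ibp (f := k t) (g := V1 t) (h.dk t ht) (h.dV1 t ht)
    (ct_slice (ct_mul h.cv h.ck1) ht) (ct_slice (ct_mul h.cv h.cV2) ht) (per01 (h.pk t ht))
    (per01 (h.pV1 t ht))
  have e2 := ibp (f := k1 t) (g := vf k k2 t) (h.dk1 t ht) (h.dV t ht)
    (ct_slice (ct_mul h.cv h.ck2) ht) (ct_slice (ct_mul h.cv h.cV1) ht) (per01 (h.pk1 t ht))
    (per01 (pV h ht))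
  have e3 : ∫ x in (0 : ℝ)..1, v t x * k1 t x * V1 t x = ∫ x in (0 : ℝ)..1, k1 t x * (v t x * V1 t x) := by
    refine intervalIntegral.integral_congr fun x _ => ?_
    ring
  rw [e1, e3, e2, neg_neg]

theorem ev_E (h : Sys v k k1 k2 V1 V2) {t : ℝ} (ht : 0 < t) : HasDerivAt (fE v k) (-fW v k k2 t) t := by
  have h1 : Ct (fun t x => 2 * (k t x * (v t x * V2 t x)) + k t x ^ 3 * vf k k2 t x * v t x) := by
    have a1 : Ct (fun t x => k t x * (v t x * V2 t x)) := ct_mul h.ck (ct_mul h.cv h.cV2)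
    have a2 : Ct (fun t x => 2 * (k t x * (v t x * V2 t x))) :=
      ContinuousOn.mul continuousOn_const a1
    exact ct_add a2 (ct_mul (ct_mul (ct_pow h.ck 3) (ct_V h)) h.cv)
  have h0 : ∀ t, 0 < t → ∀ x, HasDerivAt (fun s => k s x ^ 2 * v s x)
      (2 * (k t x * (v t x * V2 t x)) + k t x ^ 3 * vf k k2 t x * v t x) t := by
    intro t ht x
    have h5 := ((h.tk t ht x).pow 2).mul (h.tv t ht x)
    refine h5.congr_deriv ?_
    simp only [Pi.pow_apply]
    push_cast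
    ring
  have h2 := (hasDerivAt_int (ct_mul (ct_pow h.ck 2) h.cv) h1 h0 ht).const_mul (1 / 2 : ℝ)
  have h3 : (1 / 2 : ℝ) * (∫ x in (0 : ℝ)..1,
      (2 * (k t x * (v t x * V2 t x)) + k t x ^ 3 * vf k k2 t x * v t x)) = -fW v k k2 t := by
    have c1 : Continuous (fun x => k t x * (v t x * V2 t x)) :=
      ct_slice (ct_mul h.ck (ct_mul h.cv h.cV2)) ht
    have c2 : Continuous (fun x => k t x ^ 3 * vf k k2 t x * v t x) :=
      ct_slice (ct_mul (ct_mul (ct_pow h.ck 3) (ct_V h)) h.cv) ht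
    have c3 : Continuous (fun x => v t x * k2 t x * vf k k2 t x) :=
      ct_slice (ct_mul (ct_mul h.cv h.ck2) (ct_V h)) ht
    have c4 : Continuous (fun x => 2 * (k t x * (v t x * V2 t x))) := continuous_const.mul c1
    have c5 : Continuous (fun x => 2 * (v t x * k2 t x * vf k k2 t x)) := continuous_const.mul c3
    rw [iadd c4 c2, icm, by_parts h ht]
    unfold fW
    rw [← icm, ← iadd c5 c2, ← icm, ← ineg]
    refine intervalIntegral.integral_congr fun x _ => ?_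
    simp only [vf]
    ring
  rw [h3] at h2
  exact h2

theorem P_eq (h : Sys v k k1 k2 V1 V2) {t : ℝ} (ht : 0 < t) :
    fP v k k2 t =
      (1 / 2) * (∫ x in (0 : ℝ)..1, k t x ^ 4 * v t x) - ∫ x in (0 : ℝ)..1, k1 t x ^ 2 * v t x := by
  have e1 := ibp (f := k t) (g := k1 t) (h.dk t ht) (h.dk1 t ht)
    (ct_slice (ct_mul h.cv h.ck1) ht) (ct_slice (ct_mul h.cv h.ck2) ht) (per01 (h.pk t ht))
    (per01 (h.pk1 t ht))
  have e2 : ∫ x in (0 : ℝ)..1, k1 t x ^ 2 * v t x = ∫ x in (0 : ℝ)..1, v t x * k1 t x * k1 t x := by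
    refine intervalIntegral.integral_congr fun x _ => ?_
    ring
  have c1 : Continuous (fun x => k t x ^ 4 * v t x) := ct_slice (ct_mul (ct_pow h.ck 4) h.cv) ht
  have c2 : Continuous (fun x => k t x * (v t x * k2 t x)) :=
    ct_slice (ct_mul h.ck (ct_mul h.cv h.ck2)) ht
  have c3 : Continuous (fun x => (1 / 2 : ℝ) * (k t x ^ 4 * v t x)) := continuous_const.mul c1
  rw [e2, sub_eq_add_neg, ← e1, ← icm, ← iadd c3 c2]
  unfold fP
  rw [← ineg]
  refine intervalIntegral.integral_congr fun x _ => ?_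
  simp only [vf]
  ring

/-- weighted Cauchy-Schwarz over `[0, 1]` -/
private theorem csw {f g w : ℝ → ℝ} (hf : Continuous f) (hg : Continuous g) (hw : Continuous w)
    (hp : ∀ x, 0 < w x) :
    (∫ x in (0 : ℝ)..1, f x * g x * w x) ^ 2 ≤
      (∫ x in (0 : ℝ)..1, f x ^ 2 * w x) * ∫ x in (0 : ℝ)..1, g x ^ 2 * w x := by
  set A := ∫ x in (0 : ℝ)..1, f x ^ 2 * w x with hA
  set B := ∫ x in (0 : ℝ)..1, f x * g x * w x with hB
  set C := ∫ x in (0 : ℝ)..1, g x ^ 2 * w x with hC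
  have key : ∀ y : ℝ, 0 ≤ A * (y * y) + (2 * B) * y + C := by
    intro y
    have h1 : 0 ≤ ∫ x in (0 : ℝ)..1, (y * f x + g x) ^ 2 * w x :=
      intervalIntegral.integral_nonneg zero_le_one fun x _ => mul_nonneg (sq_nonneg _) (hp x).le
    have h2 : (∫ x in (0 : ℝ)..1, (y * f x + g x) ^ 2 * w x) = A * (y * y) + (2 * B) * y + C := by
      have c1 : Continuous (fun x => (y * y) * (f x ^ 2 * w x)) := by fun_prop
      have c2 : Continuous (fun x => (2 * y) * (f x * g x * w x)) := by fun_prop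
      have c3 : Continuous (fun x => g x ^ 2 * w x) := by fun_prop
      have e1 : (∫ x in (0 : ℝ)..1, (y * f x + g x) ^ 2 * w x) =
          ∫ x in (0 : ℝ)..1, ((y * y) * (f x ^ 2 * w x) + (2 * y) * (f x * g x * w x)) +
            g x ^ 2 * w x := by
        refine intervalIntegral.integral_congr fun x _ => ?_
        ring
      have c4 : Continuous (fun x => (y * y) * (f x ^ 2 * w x) + (2 * y) * (f x * g x * w x)) :=
        c1.add c2
      rw [e1, iadd c4 c3, iadd c1 c2, icm, icm]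
      rw [hA, hB, hC]
      ring
    rw [← h2]
    exact h1
  have hd := discrim_le_zero key
  unfold discrim at hd
  nlinarith [hd]

theorem cs_kV (h : Sys v k k1 k2 V1 V2) {t : ℝ} (ht : 0 < t) :
    fP v k k2 t ^ 2 ≤ 2 * fE v k t * fW v k k2 t := by
  have h1 := csw (ct_slice h.ck ht) (ct_slice (ct_V h) ht) (ct_slice h.cv ht) (h.vpos t ht)
  unfold fP fE fW
  rw [neg_sq]
  refine h1.trans (le_of_eq ?_)
  ring

theorem fL_pos (h : Sys v k k1 k2 V1 V2) {t : ℝ} (ht : 0 < t) : 0 < fL v t := by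
  unfold fL
  exact intervalIntegral.intervalIntegral_pos_of_pos ((ct_slice h.cv ht).intervalIntegrable _ _)
    (fun x => h.vpos t ht x) zero_lt_one

theorem fW_nonneg (h : Sys v k k1 k2 V1 V2) {t : ℝ} (ht : 0 < t) : 0 ≤ fW v k k2 t := by
  unfold fW
  exact intervalIntegral.integral_nonneg zero_le_one fun x _ =>
    mul_nonneg (sq_nonneg _) (h.vpos t ht x).le

/-- Cauchy-Schwarz `(∫ k v)^2 ≤ (∫ k^2 v) (∫ v)`. -/
theorem cs_R (h : Sys v k k1 k2 V1 V2) {t : ℝ} (ht : 0 < t) :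
    fR v k t ^ 2 / 2 ≤ fE v k t * fL v t := by
  have h1 := csw (ct_slice h.ck ht) (continuous_const (y := (1 : ℝ))) (ct_slice h.cv ht)
    (h.vpos t ht)
  simp only [mul_one, one_pow, one_mul] at h1
  unfold fR fE fL
  have h2 := h1
  nlinarith [h2]

/-- the total curvature is constant in time -/
theorem fR_const (h : Sys v k k1 k2 V1 V2) {s t : ℝ} (hs : 0 < s) (ht : 0 < t) :
    fR v k s = fR v k t := by
  have hd : DifferentiableOn ℝ (fR v k) (Ioi 0) := fun x hx =>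
    (ev_rot h hx).differentiableAt.differentiableWithinAt
  have hz : EqOn (deriv (fR v k)) 0 (Ioi 0) := fun x hx => (ev_rot h hx).deriv
  exact (isOpen_Ioi.is_const_of_deriv_eq_zero (isPreconnected_Ioi) hd hz hs ht)

/-- the integral over a period of a continuous function depending continuously on `t` is continuous -/
theorem cont_int {f : ℝ → ℝ → ℝ} (hf : Ct f) :
    ContinuousOn (fun t => ∫ x in (0 : ℝ)..1, f t x) (Ioi 0) := by
  intro t ht
  have ht0 : (0 : ℝ) < t := ht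
  refine ContinuousAt.continuousWithinAt ?_
  obtain ⟨C, hC⟩ := ct_bound hf (a := t / 2) (b := 2 * t) (by linarith)
  have hs : Icc (t / 2) (2 * t) ∈ nhds t := Icc_mem_nhds (by linarith) (by linarith)
  refine intervalIntegral.continuousAt_of_dominated_interval (bound := fun _ => C) ?_ ?_ ?_ ?_
  · filter_upwards [hs] with s hs1
    exact (ct_slice hf (t := s) (by linarith [hs1.1])).aestronglyMeasurable
  · filter_upwards [hs] with s hs1
    refine Filter.Eventually.of_forall fun x hx => ?_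
    rw [uIoc_of_le zero_le_one] at hx
    exact hC s hs1 x ⟨hx.1.le, hx.2⟩
  · exact continuous_const.intervalIntegrable _ _
  · refine Filter.Eventually.of_forall fun x _ => ?_
    have h1 : ContinuousAt (fun p : ℝ × ℝ => f p.1 p.2) (t, x) :=
      ContinuousOn.continuousAt hf ((isOpen_Ioi.prod isOpen_univ).mem_nhds ⟨ht, mem_univ _⟩)
    have h2 : ContinuousAt (fun s : ℝ => ((s, x) : ℝ × ℝ)) t := by fun_prop
    exact ContinuousAt.comp (f := fun s : ℝ => ((s, x) : ℝ × ℝ)) (g := fun p : ℝ × ℝ => f p.1 p.2) h1 h2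

end Pool.Agent.Work.MP_207eeb_an
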