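import Pool.Agent.Work.MP_207eeb_an.Qs

/-!
# The functional inequality for almost one-signed functions.  Size: S-M.

`m = ∫ u^2`, `A = ∫ u`, `a = m - A^2 ≥ 0` (Cauchy-Schwarz), `R = u2 + u^3/2 - (m/4) u`.  By `id_q`, `qf = ∫ R^2 - m^3/16 ≥ (∫ R)^2 - m^3/16`
(Cauchy-Schwarz on `[0,1]`), and `∫ R = (1/2) ∫ u^3 - (m/4) A`.
Let `u ≥ -δ √m`, `δ < 3/4`.  Pointwise identity: `(1/2) u^3 - (m/4) u - √m (5 u^2 - 3 m)/8 = (1/8) (u - √m)^2 (4 u + 3 √m)`
(for `m = 1`: `4 u^3 - 5 u^2 - 2 u + 3 = (u-1)^2 (4u+3)`), and `4 u + 3 √m ≥ (3 - 4 δ) √m ≥ 0`.  Integrate: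
`∫ R ≥ √m (5 m - 3 m)/8 + (1/8)(3 - 4δ) √m ∫ (u - √m)^2 = m^{3/2}/4 + (1/4)(3 - 4δ) m (√m - A)`
(`∫ (u - √m)^2 = 2 m - 2 √m A`).  As `A ≤ |A| ≤ √m` and `√m - A ≥ √m - |A| = a/(√m + |A|) ≥ a/(2 √m)`:
`∫ R ≥ m^{3/2}/4 + (1/8)(3 - 4δ) √m a`.  So `(∫ R)^2 - m^3/16 ≥ 2 (m^{3/2}/4)(1/8)(3 - 4δ) √m a = ((3 - 4δ)/16) m^2 a`
`≥ ((3 - 4δ)/16) A^4 a`.  If `m = 0` everything vanishes.  For `u ≤ δ √m` apply the result to `-u` (`qf` is even).
-/

namespace Pool.Agent.Work.MP_207eeb_an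

open Set intervalIntegral MeasureTheory

private theorem per_u1 {u u1 u2 : ℝ → ℝ} (h : Per u u1 u2) (x : ℝ) : u1 (x + 1) = u1 x := by
  have h1 : HasDerivAt (fun y => u (y + 1)) (u1 (x + 1)) x := (h.d1 (x + 1)).comp_add_const x 1
  have h2 : (fun y => u (y + 1)) = u := funext h.per
  rw [h2] at h1
  exact h1.unique (h.d1 x)

private theorem int_u2 {u u1 u2 : ℝ → ℝ} (h : Per u u1 u2) : ∫ x in (0 : ℝ)..1, u2 x = 0 := by
  rw [intervalIntegral.integral_eq_sub_of_hasDerivAt (fun x _ => h.d2 x)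
    (h.c2.intervalIntegrable 0 1)]
  have := per_u1 h 0
  rw [zero_add] at this
  rw [this, sub_self]

private theorem final_ineq (k s A c : ℝ) (hk : 0 < k) (hs : 0 ≤ s) (hA : A ^ 2 ≤ s ^ 2)
    (hc : s ^ 3 / 4 + k / 4 * s ^ 2 * (s - A) ≤ c) :
    (k / 16) * A ^ 4 * (s ^ 2 - A ^ 2) ≤ c ^ 2 - s ^ 6 / 16 := by
  have hA1 : |A| ≤ s := by
    have := sq_le_sq.mp hA
    rwa [abs_of_nonneg hs] at this
  have hA2 := (abs_le.mp hA1).1
  have hA3 := (abs_le.mp hA1).2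
  have ha : 0 ≤ s ^ 2 - A ^ 2 := by linarith
  have h1 : s * (s ^ 2 - A ^ 2) ≤ 2 * (s ^ 2 * (s - A)) := by
    have : 0 ≤ s * ((s - A) * (s - A)) := mul_nonneg hs (mul_self_nonneg _)
    nlinarith
  have h2 : s ^ 3 / 4 + k / 8 * (s * (s ^ 2 - A ^ 2)) ≤ c := by nlinarith
  have h3 : 0 ≤ s ^ 3 / 4 := by positivity
  have h4 : 0 ≤ k / 8 * (s * (s ^ 2 - A ^ 2)) := by positivity
  have h5 : (s ^ 3 / 4 + k / 8 * (s * (s ^ 2 - A ^ 2))) ^ 2 ≤ c ^ 2 :=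
    pow_le_pow_left₀ (by linarith) h2 2
  have h6 : A ^ 4 ≤ s ^ 4 := by
    have : (A ^ 2) ^ 2 ≤ (s ^ 2) ^ 2 := pow_le_pow_left₀ (sq_nonneg A) hA 2
    nlinarith
  have h7 : (k / 16) * (A ^ 4 * (s ^ 2 - A ^ 2)) ≤ (k / 16) * (s ^ 4 * (s ^ 2 - A ^ 2)) :=
    mul_le_mul_of_nonneg_left (mul_le_mul_of_nonneg_right h6 ha) (by linarith)
  have h8 : 0 ≤ (k / 8 * (s * (s ^ 2 - A ^ 2))) ^ 2 := sq_nonneg _
  nlinarith

private theorem q_one {u u1 u2 : ℝ → ℝ} (h : Per u u1 u2) (δ : ℝ) (hδ : δ < 3 / 4)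
    (hu : ∀ x, -(δ * Real.sqrt (∫ y in (0 : ℝ)..1, u y ^ 2)) ≤ u x) :
    ((3 - 4 * δ) / 16) * (∫ x in (0 : ℝ)..1, u x) ^ 4 *
      ((∫ x in (0 : ℝ)..1, u x ^ 2) - (∫ x in (0 : ℝ)..1, u x) ^ 2) ≤ qf u u1 u2 := by
  have cu : Continuous u := continuous_iff_continuousAt.mpr fun x => (h.d1 x).continuousAt
  have c2 := h.c2
  rw [← id_q h]
  set m := ∫ y in (0 : ℝ)..1, u y ^ 2 with hm
  set A := ∫ x in (0 : ℝ)..1, u x with hA
  have hm0 : 0 ≤ m := by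
    rw [hm]
    exact intervalIntegral.integral_nonneg (by norm_num) fun x _ => sq_nonneg _
  set s := Real.sqrt m with hs
  have hs0 : 0 ≤ s := Real.sqrt_nonneg _
  have hsm : s ^ 2 = m := Real.sq_sqrt hm0
  -- Cauchy-Schwarz for `u`
  have hcs : ∀ f : ℝ → ℝ, Continuous f →
      (∫ x in (0 : ℝ)..1, f x) ^ 2 ≤ ∫ x in (0 : ℝ)..1, f x ^ 2 := by
    intro f hf
    set c := ∫ x in (0 : ℝ)..1, f x with hc
    have h0 : 0 ≤ ∫ x in (0 : ℝ)..1, (f x - c) ^ 2 :=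
      intervalIntegral.integral_nonneg (by norm_num) fun x _ => sq_nonneg _
    have h1 : ∫ x in (0 : ℝ)..1, (f x - c) ^ 2 =
        (∫ x in (0 : ℝ)..1, f x ^ 2) - 2 * c * c + c ^ 2 := by
      have e : ∀ x, (f x - c) ^ 2 = f x ^ 2 - 2 * c * f x + c ^ 2 := fun x => by ring
      simp_rw [e]
      rw [intervalIntegral.integral_add, intervalIntegral.integral_sub,
        intervalIntegral.integral_const_mul, ← hc, intervalIntegral.integral_const]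
      · simp
      · exact (Continuous.intervalIntegrable (by fun_prop) 0 1)
      · exact (Continuous.intervalIntegrable (by fun_prop) 0 1)
      · exact (Continuous.intervalIntegrable (by fun_prop) 0 1)
      · exact (Continuous.intervalIntegrable (by fun_prop) 0 1)
    rw [h1] at h0
    nlinarith
  have hAs : A ^ 2 ≤ s ^ 2 := by
    rw [hsm]
    exact hcs u cu
  have hR := hcs (fun x => u2 x + u x ^ 3 / 2 - m / 4 * u x) (by fun_prop)
  set c := ∫ x in (0 : ℝ)..1, (u2 x + u x ^ 3 / 2 - m / 4 * u x) with hc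
  have hcs3 : s ^ 3 / 4 + (3 - 4 * δ) / 4 * s ^ 2 * (s - A) ≤ c := by
    have h1 : ∫ x in (0 : ℝ)..1, (u2 x + (s * (5 * u x ^ 2 - 3 * s ^ 2) / 8 +
        (3 - 4 * δ) / 8 * s * (u x - s) ^ 2)) ≤ c := by
      rw [hc]
      refine intervalIntegral.integral_mono_on (by norm_num)
        (Continuous.intervalIntegrable (by fun_prop) 0 1)
        (Continuous.intervalIntegrable (by fun_prop) 0 1) fun x _ => ?_
      have h2 := hu x
      have h3 : 0 ≤ (u x - s) ^ 2 * (u x + δ * s) :=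
        mul_nonneg (sq_nonneg _) (by linarith)
      rw [← hsm]
      nlinarith
    refine le_trans (le_of_eq ?_) h1
    have e : ∀ x, u2 x + (s * (5 * u x ^ 2 - 3 * s ^ 2) / 8 +
        (3 - 4 * δ) / 8 * s * (u x - s) ^ 2) =
        u2 x + ((5 * s / 8 + (3 - 4 * δ) / 8 * s) * u x ^ 2 +
          (-(2 * s * ((3 - 4 * δ) / 8 * s))) * u x +
          (-(3 * s ^ 3 / 8) + (3 - 4 * δ) / 8 * s ^ 3)) := fun x => by ring
    simp_rw [e]
    rw [intervalIntegral.integral_add, intervalIntegral.integral_add,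
      intervalIntegral.integral_add,
      intervalIntegral.integral_const_mul, intervalIntegral.integral_const_mul, ← hm, ← hA,
      intervalIntegral.integral_const, int_u2 h]
    · rw [← hsm]
      simp only [smul_eq_mul]
      ring
    · exact (Continuous.intervalIntegrable (by fun_prop) 0 1)
    · exact (Continuous.intervalIntegrable (by fun_prop) 0 1)
    · exact (Continuous.intervalIntegrable (by fun_prop) 0 1)
    · exact (Continuous.intervalIntegrable (by fun_prop) 0 1)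
    · exact (Continuous.intervalIntegrable (by fun_prop) 0 1)
    · exact (Continuous.intervalIntegrable (by fun_prop) 0 1)
  have hfin := final_ineq (3 - 4 * δ) s A c (by linarith) hs0 hAs hcs3
  have hs6 : s ^ 6 = m ^ 3 := by rw [← hsm]; ring
  rw [hsm, hs6] at hfin
  linarith

theorem q_sign {u u1 u2 : ℝ → ℝ} (h : Per u u1 u2) (δ : ℝ) (hδ : δ < 3 / 4)
    (hu : (∀ x, -(δ * Real.sqrt (∫ y in (0 : ℝ)..1, u y ^ 2)) ≤ u x) ∨
      (∀ x, u x ≤ δ * Real.sqrt (∫ y in (0 : ℝ)..1, u y ^ 2))) :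
    ((3 - 4 * δ) / 16) * (∫ x in (0 : ℝ)..1, u x) ^ 4 *
      ((∫ x in (0 : ℝ)..1, u x ^ 2) - (∫ x in (0 : ℝ)..1, u x) ^ 2) ≤ qf u u1 u2 := by
  rcases hu with hu | hu
  · exact q_one h δ hδ hu
  · have hn : Per (fun x => -u x) (fun x => -u1 x) (fun x => -u2 x) :=
      ⟨fun x => (h.d1 x).neg, fun x => (h.d2 x).neg, h.c2.neg, fun x => by simp only [h.per]⟩
    have h2 : ∀ x, (-u x) ^ 2 = u x ^ 2 := fun x => by ring
    have h21 : ∀ x, (-u1 x) ^ 2 = u1 x ^ 2 := fun x => by ring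
    have h4 : ∀ x, (-u x) ^ 4 = u x ^ 4 := fun x => by ring
    have h3 : ∀ x, (-u2 x + (-u x) ^ 3 / 2) ^ 2 = (u2 x + u x ^ 3 / 2) ^ 2 := fun x => by ring
    have key := q_one hn δ hδ (by
      intro x
      simp only [h2]
      have := hu x
      linarith)
    unfold qf at key ⊢
    simp only [h2, h21, h4, h3, intervalIntegral.integral_neg] at key
    have e4 : (-∫ x in (0 : ℝ)..1, u x) ^ 4 = (∫ x in (0 : ℝ)..1, u x) ^ 4 := by ring
    rw [e4, neg_sq] at key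
    exact key

end Pool.Agent.Work.MP_207eeb_an
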