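import Pool.Agent.Work.MP_207eeb_an.Ev
import Pool.Agent.Work.MP_207eeb_an.Cell
import Pool.Agent.Work.MP_207eeb_an.Qo

/-!
# From the curve at time `t` to one normalised cell.  Size: M.

`red`: `L = ∫ v`, `φ` from `cell (v t)`.  `u y = (L/n) k (φ y)`, `u1 y = (L/n)^2 k1 (φ y)`, `u2 y = (L/n)^3 k2 (φ y)`.
Derivatives: `φ' = (L/n)/v(φ)`, `(k)' = v k1`, so `u' = (L/n) (v k1)(φ) (L/n)/v(φ) = u1`, the same for `u1' = u2`.
`k1`, `k2` are also `1/n`-periodic: the derivative of `x ↦ k (x + 1/n) = k x` gives `v (x+1/n) k1 (x+1/n) = v x k1 x` (uniqueness of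
derivatives), divide by `v`.
Integrals (`L ∫_0^1 G(φ) = ∫ G v`): `n ∫ u = L ∫ k(φ) = ∫ k v = fR`; `n^2 ∫ u^2 = L^2 ∫ k(φ)^2 = L ∫ k^2 v = 2 fE fL`;
`n^6 ∫ (u2 + u^3/2)^2 = L^6 ∫ V(φ)^2 = L^5 fW`; `n^4 ((1/2) ∫ u^4 - ∫ u1^2) = L^4 ((1/2) ∫ k^4(φ) - ∫ k1^2(φ)) = L^3 fP` (`P_eq`).
So `n^6 qf = L^5 fW - (1/2) (2 fE L) L^3 fP = L^4 (L fW - fE fP)`.

`rate1`: with `Θ = fR`, `I = fE fL`: `A = ∫ u = Θ/n`, `a = ∫ u^2 - A^2 = (2 I - Θ^2)/n^2`.  The first hypothesis says `a ≤ 24`, the second one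
`a ≤ 2 π |Θ|/n = 2 π |A|`.  `q_small`: `qf ≥ (1/12) A^4 a`, multiply by `n^6`: `L^4 (L fW - fE fP) ≥ (1/12) Θ^4 (2 I - Θ^2)`.
`rate2`: `u n = L k(x)`, `√(∫ u^2) n = √(2 fE L) = L √(2 fE/L)`, so the hypothesis says `u ≥ -δ √(∫ u^2)` (or `≤`); `q_sign`.
-/

namespace Pool.Agent.Work.MP_207eeb_an

open Set intervalIntegral MeasureTheory

variable {v k k1 k2 V1 V2 : ℝ → ℝ → ℝ}

private theorem red_cont {f : ℝ → ℝ → ℝ} (hf : Ct f) {t : ℝ} (ht : 0 < t) : Continuous (f t) := by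
  have h1 : Continuous fun x : ℝ => ((t, x) : ℝ × ℝ) := continuous_const.prodMk continuous_id
  exact hf.comp_continuous h1 fun x => ⟨ht, trivial⟩

/-- a derivative with respect to arclength of a periodic function is periodic -/
private theorem red_per {f g w : ℝ → ℝ} {c : ℝ} (hw : ∀ x, 0 < w x) (hwp : ∀ x, w (x + c) = w x)
    (hfp : ∀ x, f (x + c) = f x) (hd : ∀ x, HasDerivAt f (w x * g x) x) (x : ℝ) :
    g (x + c) = g x := by
  have h1 : HasDerivAt (fun y => f (y + c)) (w (x + c) * g (x + c)) x := (hd (x + c)).comp_add_const x c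
  have h2 : (fun y => f (y + c)) = f := funext hfp
  rw [h2] at h1
  have h3 := h1.unique (hd x)
  rw [hwp x] at h3
  exact mul_left_cancel₀ (hw x).ne' h3

theorem red (h : Sys v k k1 k2 V1 V2) {t : ℝ} (ht : 0 < t) (n : ℕ) (hn : 1 ≤ n)
    (hv : ∀ x, v t (x + 1 / n) = v t x) (hk : ∀ x, k t (x + 1 / n) = k t x) :
    ∃ u u1 u2 : ℝ → ℝ, Per u u1 u2 ∧
      (n : ℝ) * (∫ x in (0 : ℝ)..1, u x) = fR v k t ∧
      (n : ℝ) ^ 2 * (∫ x in (0 : ℝ)..1, u x ^ 2) = 2 * fE v k t * fL v t ∧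
      (∀ y, ∃ x, (n : ℝ) * u y = fL v t * k t x) ∧
      (n : ℝ) ^ 6 * qf u u1 u2 =
        fL v t ^ 4 * (fL v t * fW v k k2 t - fE v k t * fP v k k2 t) := by
  have hN : (0 : ℝ) < n := by exact_mod_cast hn
  have hN0 : (n : ℝ) ≠ 0 := hN.ne'
  have cv := red_cont h.cv ht
  have ck := red_cont h.ck ht
  have ck1 := red_cont h.ck1 ht
  have ck2 := red_cont h.ck2 ht
  have hk1 : ∀ x, k1 t (x + 1 / n) = k1 t x := red_per (h.vpos t ht) hv hk (h.dk t ht)
  have hk2 : ∀ x, k2 t (x + 1 / n) = k2 t x := red_per (h.vpos t ht) hv hk1 (h.dk1 t ht)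
  obtain ⟨φ, hφ, hφ1, hI⟩ := cell (v t) cv (h.vpos t ht) n hn hv
  have hLdef : (∫ x in (0 : ℝ)..1, v t x) = fL v t := rfl
  rw [hLdef] at hφ hI
  set L : ℝ := fL v t with hL
  have hφc : Continuous φ := continuous_iff_continuousAt.2 fun y => (hφ y).continuousAt
  have hd : ∀ (f g : ℝ → ℝ), (∀ x, HasDerivAt f (v t x * g x) x) → ∀ y,
      HasDerivAt (fun y => f (φ y)) (L / n * g (φ y)) y := by
    intro f g hfg y
    have h1 : HasDerivAt (fun y => f (φ y)) (v t (φ y) * g (φ y) * (L / n / v t (φ y))) y :=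
      HasDerivAt.comp y (hfg (φ y)) (hφ y)
    have h2 : v t (φ y) * g (φ y) * (L / n / v t (φ y)) = L / n * g (φ y) := by
      have := (h.vpos t ht (φ y)).ne'
      field_simp
    rw [h2] at h1
    exact h1
  have Ik := hI (k t) ck hk
  have Ik2 := hI (fun x => k t x ^ 2) (ck.pow 2) (fun x => by rw [hk x])
  have Ik4 := hI (fun x => k t x ^ 4) (ck.pow 4) (fun x => by rw [hk x])
  have Ik1 := hI (fun x => k1 t x ^ 2) (ck1.pow 2) (fun x => by rw [hk1 x])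
  have IV := hI (fun x => vf k k2 t x ^ 2)
    ((ck2.add ((ck.pow 3).div_const 2)).neg.pow 2) (fun x => by unfold vf; rw [hk x, hk2 x])
  have hP := P_eq h ht
  refine ⟨fun y => L / n * k t (φ y), fun y => (L / n) ^ 2 * k1 t (φ y),
    fun y => (L / n) ^ 3 * k2 t (φ y), ⟨?_, ?_, ?_, ?_⟩, ?_, ?_, ?_, ?_⟩
  · intro y
    have h1 := (hd (k t) (k1 t) (h.dk t ht) y).const_mul (L / n)
    have e : L / n * (L / n * k1 t (φ y)) = (L / n) ^ 2 * k1 t (φ y) := by ring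
    rw [e] at h1
    exact h1
  · intro y
    have h1 := (hd (k1 t) (k2 t) (h.dk1 t ht) y).const_mul ((L / n) ^ 2)
    have e : (L / n) ^ 2 * (L / n * k2 t (φ y)) = (L / n) ^ 3 * k2 t (φ y) := by ring
    rw [e] at h1
    exact h1
  · exact continuous_const.mul (ck2.comp hφc)
  · intro y
    change L / n * k t (φ (y + 1)) = L / n * k t (φ y)
    rw [hφ1, hk]
  · have e : fR v k t = ∫ x in (0 : ℝ)..1, k t x * v t x := rfl
    rw [e, ← Ik, intervalIntegral.integral_const_mul]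
    field_simp
  · have e : fE v k t = (1 / 2) * ∫ x in (0 : ℝ)..1, k t x ^ 2 * v t x := rfl
    have e1 : (∫ x in (0 : ℝ)..1, (L / n * k t (φ x)) ^ 2) =
        (L / n) ^ 2 * ∫ x in (0 : ℝ)..1, k t (φ x) ^ 2 := by
      rw [← intervalIntegral.integral_const_mul]
      refine intervalIntegral.integral_congr fun x _ => ?_
      ring
    rw [e, ← Ik2, e1]
    field_simp
  · intro y
    refine ⟨φ y, ?_⟩
    field_simp
  · have e0 : fE v k t = (1 / 2) * ∫ x in (0 : ℝ)..1, k t x ^ 2 * v t x := rfl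
    have e1 : fW v k k2 t = ∫ x in (0 : ℝ)..1, vf k k2 t x ^ 2 * v t x := rfl
    have i1 : (∫ x in (0 : ℝ)..1, ((L / n) ^ 3 * k2 t (φ x) + (L / n * k t (φ x)) ^ 3 / 2) ^ 2) =
        (L / n) ^ 6 * ∫ x in (0 : ℝ)..1, vf k k2 t (φ x) ^ 2 := by
      rw [← intervalIntegral.integral_const_mul]
      refine intervalIntegral.integral_congr fun x _ => ?_
      unfold vf
      ring
    have i2 : (∫ x in (0 : ℝ)..1, (L / n * k t (φ x)) ^ 2) =
        (L / n) ^ 2 * ∫ x in (0 : ℝ)..1, k t (φ x) ^ 2 := by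
      rw [← intervalIntegral.integral_const_mul]
      refine intervalIntegral.integral_congr fun x _ => ?_
      ring
    have i4 : (∫ x in (0 : ℝ)..1, (L / n * k t (φ x)) ^ 4) =
        (L / n) ^ 4 * ∫ x in (0 : ℝ)..1, k t (φ x) ^ 4 := by
      rw [← intervalIntegral.integral_const_mul]
      refine intervalIntegral.integral_congr fun x _ => ?_
      ring
    have i5 : (∫ x in (0 : ℝ)..1, ((L / n) ^ 2 * k1 t (φ x)) ^ 2) =
        (L / n) ^ 4 * ∫ x in (0 : ℝ)..1, k1 t (φ x) ^ 2 := by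
      rw [← intervalIntegral.integral_const_mul]
      refine intervalIntegral.integral_congr fun x _ => ?_
      ring
    unfold qf
    rw [i1, i2, i4, i5, hP, e0, e1, ← Ik2, ← Ik4, ← Ik1, ← IV]
    field_simp

theorem rate1 (h : Sys v k k1 k2 V1 V2) {t : ℝ} (ht : 0 < t) (n : ℕ) (hn : 1 ≤ n)
    (hv : ∀ x, v t (x + 1 / n) = v t x) (hk : ∀ x, k t (x + 1 / n) = k t x) (hR : fR v k t ≠ 0)
    (hI : fE v k t * fL v t ≤ fR v k t ^ 2 / 2 + 12 * n ^ 2 ∨
      fE v k t * fL v t ≤ fR v k t ^ 2 / 2 + Real.pi * n * |fR v k t|) :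
    (1 / 6) * fR v k t ^ 4 * (fE v k t * fL v t - fR v k t ^ 2 / 2) ≤
      fL v t ^ 4 * (fW v k k2 t * fL v t - fE v k t * fP v k k2 t) := by
  have hN : (0 : ℝ) < n := by exact_mod_cast hn
  obtain ⟨u, u1, u2, hP, h1, h2, -, h4⟩ := red h ht n hn hv hk
  have hA : (∫ x in (0 : ℝ)..1, u x) ≠ 0 := by
    intro h0
    rw [h0, mul_zero] at h1
    exact hR h1.symm
  have hq := q_small hP hA ?_
  · set A : ℝ := ∫ x in (0 : ℝ)..1, u x
    set m : ℝ := ∫ x in (0 : ℝ)..1, u x ^ 2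
    have h5 := mul_le_mul_of_nonneg_left hq (pow_pos hN 6).le
    rw [h4] at h5
    have h6 : (n : ℝ) ^ 6 * (1 / 12 * A ^ 4 * (m - A ^ 2)) =
        (1 / 12) * ((n : ℝ) * A) ^ 4 * ((n : ℝ) ^ 2 * m - ((n : ℝ) * A) ^ 2) := by ring
    rw [h6, h1, h2] at h5
    calc (1 / 6) * fR v k t ^ 4 * (fE v k t * fL v t - fR v k t ^ 2 / 2)
        = (1 / 12) * fR v k t ^ 4 * (2 * fE v k t * fL v t - fR v k t ^ 2) := by ring
      _ ≤ _ := h5
      _ = _ := by ring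
  · set A : ℝ := ∫ x in (0 : ℝ)..1, u x
    set m : ℝ := ∫ x in (0 : ℝ)..1, u x ^ 2
    have h7 : (n : ℝ) ^ 2 * (m - A ^ 2) = 2 * (fE v k t * fL v t) - fR v k t ^ 2 := by
      rw [← h1]
      linear_combination h2
    have hN2 : (0 : ℝ) < (n : ℝ) ^ 2 := pow_pos hN 2
    rcases hI with hI | hI
    · left
      refine le_of_mul_le_mul_left ?_ hN2
      rw [h7]
      linarith
    · right
      refine le_of_mul_le_mul_left ?_ hN2
      rw [h7]
      have h8 : |fR v k t| = n * |A| := by rw [← h1, abs_mul, abs_of_pos hN]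
      rw [h8] at hI
      linarith

theorem rate2 (h : Sys v k k1 k2 V1 V2) {t : ℝ} (ht : 0 < t) (δ : ℝ) (hδ : δ < 3 / 4)
    (hs : (∀ x, -(δ * Real.sqrt (2 * fE v k t / fL v t)) ≤ k t x) ∨
      (∀ x, k t x ≤ δ * Real.sqrt (2 * fE v k t / fL v t))) :
    ((3 - 4 * δ) / 8) * fR v k t ^ 4 * (fE v k t * fL v t - fR v k t ^ 2 / 2) ≤
      fL v t ^ 4 * (fW v k k2 t * fL v t - fE v k t * fP v k k2 t) := by
  obtain ⟨u, u1, u2, hP, h1, h2, h3, h4⟩ := red h ht 1 le_rfl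
    (fun x => by rw [Nat.cast_one, div_one]; exact h.pv t ht x)
    (fun x => by rw [Nat.cast_one, div_one]; exact h.pk t ht x)
  simp only [Nat.cast_one, one_mul, one_pow] at h1 h2 h3 h4
  have hL := fL_pos h ht
  have hsq : Real.sqrt (∫ y in (0 : ℝ)..1, u y ^ 2) =
      fL v t * Real.sqrt (2 * fE v k t / fL v t) := by
    rw [h2]
    have e : 2 * fE v k t * fL v t = fL v t ^ 2 * (2 * fE v k t / fL v t) := by
      field_simp
    rw [e, Real.sqrt_mul (sq_nonneg _), Real.sqrt_sq hL.le]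
  have hq := q_sign hP δ hδ ?_
  · rw [h1, h2, h4] at hq
    calc ((3 - 4 * δ) / 8) * fR v k t ^ 4 * (fE v k t * fL v t - fR v k t ^ 2 / 2)
        = ((3 - 4 * δ) / 16) * fR v k t ^ 4 * (2 * fE v k t * fL v t - fR v k t ^ 2) := by ring
      _ ≤ _ := hq
      _ = _ := by ring
  · rw [hsq]
    rcases hs with hs | hs
    · left
      intro y
      obtain ⟨x, hx⟩ := h3 y
      rw [hx]
      have := mul_le_mul_of_nonneg_left (hs x) hL.le
      linarith
    · right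
      intro y
      obtain ⟨x, hx⟩ := h3 y
      rw [hx]
      have := mul_le_mul_of_nonneg_left (hs x) hL.le
      linarith

end Pool.Agent.Work.MP_207eeb_an
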