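import Pool.Agent.Work.MP_207eeb_an.Lb

/-!
# The sharp constant.  Size: S-M.

Let `I = E L → J`, antitone on `[t0, ∞)` (`D ≥ 0`), so `I ≥ J` and `L^4 ≤ C t` (`lb`).  Let `e > 0`.  Choose `μ` with `8 I(t0) C/μ ≤ e/3`,
then `t1 ≥ t0` such that for `t ≥ t1`: `8 I^2 ≤ 8 J^2 + e/3` and `μ (I - J) ≤ e/3`.  `F = L^4 + μ t (I - J)`; by `key` for `t ≥ t1`:
`F' = 4 L^3 P + μ (I - J) - μ t D ≤ 8 I^2 + 8 I L^4/(μ t) + μ (I - J) ≤ 8 J^2 + e`.
So `L^4 ≤ F ≤ F t1 + (8 J^2 + e)(t - t1) ≤ (8 J^2 + 2 e) t` for large `t` (`lim4`).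
For `sh` take the fourth root: `L ≤ ((8 J^2 + 2 e) t)^(1/4) = (8 J^2 + 2 e)^(1/4) t^(1/4)` and choose `e` with
`(8 J^2 + 2 e)^(1/4) ≤ (8 J^2)^(1/4) + ε` (continuity of `rpow`, or `e = (((8J^2)^(1/4) + ε)^4 - 8 J^2)/2`).
-/

namespace Pool.Agent.Work.MP_207eeb_an

open Set Filter Topology

variable {E L W P : ℝ → ℝ}

private theorem anti_aux (h : Ode E L W P) (t0 : ℝ) (ht0 : 0 < t0)
    (hD : ∀ t, t0 ≤ t → 0 ≤ W t * L t - E t * P t) : AntitoneOn (fun t => E t * L t) (Ici t0) := by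
  have hder : ∀ t, t0 ≤ t → HasDerivAt (fun s => E s * L s) (-(W t * L t - E t * P t)) t :=
    fun t ht => dI h (lt_of_lt_of_le ht0 ht)
  apply antitoneOn_of_deriv_nonpos (convex_Ici t0)
  · exact fun t ht => (hder t ht).continuousAt.continuousWithinAt
  · rw [interior_Ici]
    exact fun t ht => (hder t (le_of_lt ht)).differentiableAt.differentiableWithinAt
  · rw [interior_Ici]
    intro t ht
    rw [(hder t (le_of_lt ht)).deriv]
    linarith [hD t (le_of_lt ht)]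

private theorem lim4_aux (h : Ode E L W P) (t0 : ℝ) (ht0 : 0 < t0)
    (hD : ∀ t, t0 ≤ t → 0 ≤ W t * L t - E t * P t)
    (J : ℝ) (hT : Tendsto (fun t => E t * L t) atTop (𝓝 J)) (e : ℝ) (he : 0 < e) :
    ∃ t1 K : ℝ, ∀ t, t1 ≤ t → L t ^ 4 ≤ (8 * J ^ 2 + e) * t + K := by
  have hanti := anti_aux h t0 ht0 hD
  have hJle : ∀ t, t0 ≤ t → J ≤ E t * L t := by
    intro t ht
    apply le_of_tendsto hT
    filter_upwards [eventually_ge_atTop t] with s hs
    exact hanti (mem_Ici.2 ht) (mem_Ici.2 (ht.trans hs)) hs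
  obtain ⟨C, hC, hLC⟩ := lb h t0 ht0 hD
  have hI0 : 0 < E t0 * L t0 := mul_pos (h.Epos t0 ht0) (h.Lpos t0 ht0)
  set I0 : ℝ := E t0 * L t0 with hI0def
  set μ : ℝ := 24 * I0 * C / e + 1 with hμdef
  have hμ : 0 < μ := by positivity
  have hμ1 : 8 * I0 * C / μ ≤ e / 3 := by
    rw [div_le_iff₀ hμ]
    have : e / 3 * μ = 8 * I0 * C + e / 3 := by
      rw [hμdef]; field_simp; ring
    rw [this]; linarith
  have hev1 : ∀ᶠ t in atTop, 8 * (E t * L t) ^ 2 < 8 * J ^ 2 + e / 3 := by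
    have : Tendsto (fun t => 8 * (E t * L t) ^ 2) atTop (𝓝 (8 * J ^ 2)) := (hT.pow 2).const_mul 8
    exact this.eventually (gt_mem_nhds (by linarith))
  have hev2 : ∀ᶠ t in atTop, μ * (E t * L t - J) < e / 3 := by
    have : Tendsto (fun t => μ * (E t * L t - J)) atTop (𝓝 (μ * (J - J))) :=
      (hT.sub_const J).const_mul μ
    rw [sub_self, mul_zero] at this
    exact this.eventually (gt_mem_nhds (by linarith))
  obtain ⟨t1, ht1⟩ := eventually_atTop.1 ((hev1.and hev2).and (eventually_ge_atTop t0))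
  refine ⟨t1, (L t1 ^ 4 + μ * t1 * (E t1 * L t1 - J)) - (8 * J ^ 2 + e) * t1, ?_⟩
  have ht01 : t0 ≤ t1 := (ht1 t1 le_rfl).2
  set H : ℝ → ℝ := fun t => (L t ^ 4 + μ * t * (E t * L t - J)) - (8 * J ^ 2 + e) * t with hH
  have hder : ∀ t, t1 ≤ t → HasDerivAt H
      ((4 * L t ^ 3 * P t + (μ * (E t * L t - J) + μ * t * (-(W t * L t - E t * P t))))
        - (8 * J ^ 2 + e)) t := by
    intro t ht
    have htp : 0 < t := lt_of_lt_of_le ht0 (ht01.trans ht)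
    have h1 : HasDerivAt (fun s => L s ^ 4) (4 * L t ^ 3 * P t) t := by
      have h0 := (h.dL t htp).fun_pow 4
      have e1 : ((4 : ℕ) : ℝ) * L t ^ (4 - 1) * P t = 4 * L t ^ 3 * P t := by norm_num
      rw [e1] at h0
      exact h0
    have h2 : HasDerivAt (fun s => μ * s) μ t := by
      simpa using (hasDerivAt_id t).const_mul μ
    have h3 : HasDerivAt (fun s => E s * L s - J) (-(W t * L t - E t * P t)) t :=
      (dI h htp).sub_const J
    have h4 : HasDerivAt (fun s => (8 * J ^ 2 + e) * s) (8 * J ^ 2 + e) t := by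
      simpa using (hasDerivAt_id t).const_mul (8 * J ^ 2 + e)
    exact (h1.add (h2.mul h3)).sub h4
  have hneg : ∀ t, t1 ≤ t →
      ((4 * L t ^ 3 * P t + (μ * (E t * L t - J) + μ * t * (-(W t * L t - E t * P t))))
        - (8 * J ^ 2 + e)) ≤ 0 := by
    intro t ht
    have ht0' : t0 ≤ t := ht01.trans ht
    have htp : 0 < t := lt_of_lt_of_le ht0 ht0'
    have hk := key h htp (hD t ht0') μ hμ
    have hI : E t * L t ≤ I0 := hanti (mem_Ici.2 le_rfl) (mem_Ici.2 ht0') ht0'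
    have hIp : 0 < E t * L t := mul_pos (h.Epos t htp) (h.Lpos t htp)
    have hL4 := hLC t ht0'
    have hL0 : 0 ≤ L t ^ 4 := by positivity
    have hq : 8 * (E t * L t) * L t ^ 4 / (μ * t) ≤ 8 * I0 * C / μ := by
      rw [div_le_div_iff₀ (by positivity) hμ]
      have ha : (E t * L t) * L t ^ 4 ≤ I0 * (C * t) :=
        mul_le_mul hI hL4 hL0 hI0.le
      nlinarith [mul_le_mul_of_nonneg_right ha hμ.le]
    have he1 := (ht1 t ht).1.1
    have he2 := (ht1 t ht).1.2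
    linarith
  have hHanti : AntitoneOn H (Ici t1) := by
    apply antitoneOn_of_deriv_nonpos (convex_Ici t1)
    · exact fun t ht => (hder t ht).continuousAt.continuousWithinAt
    · rw [interior_Ici]
      exact fun t ht => (hder t (le_of_lt ht)).differentiableAt.differentiableWithinAt
    · rw [interior_Ici]
      intro t ht
      rw [(hder t (le_of_lt ht)).deriv]
      exact hneg t (le_of_lt ht)
  intro t ht
  have hm := hHanti (mem_Ici.2 le_rfl) (mem_Ici.2 ht) ht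
  simp only [hH] at hm
  have htp : 0 < t := lt_of_lt_of_le ht0 (ht01.trans ht)
  have hnn : 0 ≤ μ * t * (E t * L t - J) :=
    mul_nonneg (by positivity) (sub_nonneg.2 (hJle t (ht01.trans ht)))
  linarith

theorem lim4 (h : Ode E L W P) (t0 : ℝ) (ht0 : 0 < t0) (hD : ∀ t, t0 ≤ t → 0 ≤ W t * L t - E t * P t)
    (J : ℝ) (hT : Tendsto (fun t => E t * L t) atTop (𝓝 J)) (e : ℝ) (he : 0 < e) :
    ∀ᶠ t in atTop, L t ^ 4 ≤ (8 * J ^ 2 + e) * t := by
  obtain ⟨t1, K, hK⟩ := lim4_aux h t0 ht0 hD J hT (e / 2) (by positivity)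
  filter_upwards [eventually_ge_atTop t1, eventually_ge_atTop (2 * K / e)] with t h1 h2
  have h3 := hK t h1
  have h4 : K ≤ e / 2 * t := by
    rw [div_le_iff₀ he] at h2
    linarith
  linarith

theorem sh (h : Ode E L W P) (t0 : ℝ) (ht0 : 0 < t0) (hD : ∀ t, t0 ≤ t → 0 ≤ W t * L t - E t * P t)
    (J : ℝ) (hT : Tendsto (fun t => E t * L t) atTop (𝓝 J)) (ε : ℝ) (hε : 0 < ε) :
    ∀ᶠ t in atTop, L t ≤ ((8 * J ^ 2) ^ (1 / 4 : ℝ) + ε) * t ^ (1 / 4 : ℝ) := by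
  set a : ℝ := (8 * J ^ 2) ^ (1 / 4 : ℝ) with ha
  have ha0 : 0 ≤ a := Real.rpow_nonneg (by positivity) _
  have ha4 : a ^ 4 = 8 * J ^ 2 := by
    rw [ha, ← Real.rpow_natCast, ← Real.rpow_mul (by positivity)]
    norm_num
  have hlt : 8 * J ^ 2 < (a + ε) ^ 4 := by
    rw [← ha4]
    exact pow_lt_pow_left₀ (by linarith) ha0 (by norm_num)
  have hev := lim4 h t0 ht0 hD J hT ((a + ε) ^ 4 - 8 * J ^ 2) (by linarith)
  filter_upwards [hev, eventually_gt_atTop (0 : ℝ)] with t h1 h2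
  have h3 : (t ^ (1 / 4 : ℝ)) ^ 4 = t := by
    rw [← Real.rpow_natCast, ← Real.rpow_mul h2.le]
    norm_num
  have h4 : 0 ≤ t ^ (1 / 4 : ℝ) := Real.rpow_nonneg h2.le _
  have h5 : L t ^ 4 ≤ ((a + ε) * t ^ (1 / 4 : ℝ)) ^ 4 := by
    rw [mul_pow, h3]
    calc L t ^ 4 ≤ (8 * J ^ 2 + ((a + ε) ^ 4 - 8 * J ^ 2)) * t := h1
      _ = (a + ε) ^ 4 * t := by ring
  exact le_of_pow_le_pow_left₀ (by norm_num) (by positivity) h5

end Pool.Agent.Work.MP_207eeb_an
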