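import Pool.Agent.Work.MP_207eeb_an.Geo2
import Pool.Agent.Work.MP_207eeb_an.Red
import Pool.Agent.Work.MP_207eeb_an.Bar
import Pool.Agent.Work.MP_207eeb_an.Cv
import Pool.Agent.Work.MP_207eeb_an.Sh

/-!
# The explicit basin: assembly.  Size: M.

`h : Flow γ`, `S := flow_sys h`; `len (γ t) = fL v t`, `ener (γ t) = fE v k t`, `2 π rot (γ t) = fR v k t` (definitional unfolding, `π ≠ 0`), with
`v = fun t => spd (γ t)`, `k = fun t => kap (γ t)`.  `fR` is constant (`fR_const`), nonzero; `fE > 0` by `cs_R` (`fR ≠ 0`, `fL > 0`).  So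
`Ode (fE v k) (fL v) (fW v k k2) (fP v k k2)` by `ev_E`, `ev_L`, `cs_kV`, `fL_pos`.  `J := fR^2/2 = 2 π^2 ω^2`, `J ≤ E L` by `cs_R`.
`D = W L - E P`; `dI`: `(E L)' = -D`.
Case 1 / 2: `B := J + 12 n^2` or `J + π n |Θ|` (`Θ = 2 π ω`, `π n |Θ| = 2 π^2 n |ω|`).  `rate1` (with `symm_spd`, `symm_kap`) gives for `E L < B`:
`(1/6) Θ^4 (E L - J) ≤ L^4 D`, so `D ≥ 0`; `bar` gives `E L < B` for all `t ≥ t0`, so `rate1` holds for all `t ≥ t0`.
Case 3: `rate2` for all `t ≥ t0`.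
So in all cases there is `c > 0` with `c (E L - J) ≤ L^4 D` on `[t0, ∞)`, hence `D ≥ 0` and `E L` is antitone on `[t0, ∞)`;
`conv`: `E L → J`; `sh`: the bound with the constant `(8 J^2)^(1/4) = (32 π^4 ω^4)^(1/4) = 2^(5/4) π |ω|`.
-/

namespace Pool.Agent.Work.MP_207eeb_an

open Set Filter Topology

private theorem const_eq (w : ℝ) :
    (8 * (2 * Real.pi ^ 2 * w ^ 2) ^ 2) ^ (1 / 4 : ℝ) = 2 ^ (5 / 4 : ℝ) * Real.pi * |w| := by
  have hpi := Real.pi_pos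
  have h2 : (0 : ℝ) ≤ 2 ^ (5 / 4 : ℝ) := by positivity
  have h4 : ((2 : ℝ) ^ (5 / 4 : ℝ)) ^ (4 : ℕ) = 32 := by
    rw [← Real.rpow_natCast, ← Real.rpow_mul (by norm_num)]
    norm_num
  have hw : |w| ^ 4 = w ^ 4 := by
    rw [show (4 : ℕ) = 2 * 2 from rfl, pow_mul, pow_mul, sq_abs]
  have hx : 8 * (2 * Real.pi ^ 2 * w ^ 2) ^ 2 = (2 ^ (5 / 4 : ℝ) * Real.pi * |w|) ^ (4 : ℕ) := by
    have : (2 ^ (5 / 4 : ℝ) * Real.pi * |w|) ^ (4 : ℕ) =
        ((2 : ℝ) ^ (5 / 4 : ℝ)) ^ (4 : ℕ) * Real.pi ^ 4 * |w| ^ 4 := by ring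
    rw [this, h4, hw]
    ring
  rw [hx, ← Real.rpow_natCast, ← Real.rpow_mul (by positivity)]
  norm_num

/-- abstract form -/
private theorem abs_basin {E L W P : ℝ → ℝ} (h : Ode E L W P) (t0 : ℝ) (ht0 : 0 < t0) (J c : ℝ)
    (hc : 0 < c) (hJ : ∀ t, t0 ≤ t → J ≤ E t * L t)
    (hr : ∀ t, t0 ≤ t → c * (E t * L t - J) ≤ L t ^ 4 * (W t * L t - E t * P t)) :
    AntitoneOn (fun t => E t * L t) (Ici t0) ∧
      Tendsto (fun t => E t * L t) atTop (𝓝 J) ∧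
      ∀ ε : ℝ, 0 < ε → ∀ᶠ t in atTop, L t ≤ ((8 * J ^ 2) ^ (1 / 4 : ℝ) + ε) * t ^ (1 / 4 : ℝ) := by
  have hD : ∀ t, t0 ≤ t → 0 ≤ W t * L t - E t * P t := by
    intro t ht
    have hL := h.Lpos t (ht0.trans_le ht)
    have h1 : 0 ≤ L t ^ 4 * (W t * L t - E t * P t) :=
      le_trans (mul_nonneg hc.le (sub_nonneg.mpr (hJ t ht))) (hr t ht)
    exact nonneg_of_mul_nonneg_right h1 (by positivity)
  have hT := conv h t0 ht0 J c hc hJ hr
  refine ⟨?_, hT, fun ε hε => sh h t0 ht0 hD J hT ε hε⟩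
  have hd : ∀ t, t0 ≤ t → HasDerivAt (fun s => E s * L s) (-(W t * L t - E t * P t)) t :=
    fun t ht => dI h (ht0.trans_le ht)
  apply antitoneOn_of_deriv_nonpos (convex_Ici t0)
  · intro t ht
    exact (hd t ht).continuousAt.continuousWithinAt
  · intro t ht
    rw [interior_Ici] at ht
    exact (hd t (le_of_lt ht)).differentiableAt.differentiableWithinAt
  · intro t ht
    rw [interior_Ici] at ht
    rw [(hd t (le_of_lt ht)).deriv]
    have := hD t (le_of_lt ht)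
    linarith

theorem basin (γ : ℝ → ℝ → ℂ) (h : Flow γ) (n : ℕ) (hn : 1 ≤ n) (hs : Symm n γ) (t0 : ℝ) (ht0 : 0 < t0)
    (hrot : rot (γ t0) ≠ 0)
    (hyp : ener (γ t0) * len (γ t0) < 2 * Real.pi ^ 2 * (rot (γ t0) ^ 2 + n * |rot (γ t0)|) ∨
      ener (γ t0) * len (γ t0) < 2 * Real.pi ^ 2 * rot (γ t0) ^ 2 + 12 * n ^ 2 ∨
      ∃ δ : ℝ, δ < 3 / 4 ∧ ∀ t, t0 ≤ t →
        (∀ x, -(δ * Real.sqrt (2 * ener (γ t) / len (γ t))) ≤ kap (γ t) x) ∨
          (∀ x, kap (γ t) x ≤ δ * Real.sqrt (2 * ener (γ t) / len (γ t)))) :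
    AntitoneOn (fun t => ener (γ t) * len (γ t)) (Ici t0) ∧
      Tendsto (fun t => ener (γ t) * len (γ t)) atTop (𝓝 (2 * Real.pi ^ 2 * rot (γ t0) ^ 2)) ∧
      ∀ ε : ℝ, 0 < ε → ∀ᶠ t in atTop,
        len (γ t) ≤ (2 ^ (5 / 4 : ℝ) * Real.pi * |rot (γ t0)| + ε) * t ^ (1 / 4 : ℝ) := by
  have hpi := Real.pi_pos
  have S := flow_sys h
  set v : ℝ → ℝ → ℝ := fun t => spd (γ t) with hv
  set k : ℝ → ℝ → ℝ := fun t => kap (γ t) with hk
  set k2 : ℝ → ℝ → ℝ := fun t => dS (γ t) (dS (γ t) (kap (γ t))) with hk2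
  have eL : ∀ t, len (γ t) = fL v t := fun t => rfl
  have eE : ∀ t, ener (γ t) = fE v k t := fun t => rfl
  have eR : ∀ t, fR v k t = 2 * Real.pi * rot (γ t) := by
    intro t
    have : rot (γ t) = (2 * Real.pi)⁻¹ * fR v k t := rfl
    rw [this]
    field_simp
  have hR0 : fR v k t0 ≠ 0 := by
    rw [eR]
    exact mul_ne_zero (by positivity) hrot
  have hRc : ∀ t, 0 < t → fR v k t = fR v k t0 := fun t ht => fR_const S ht ht0
  have hLp : ∀ t, 0 < t → 0 < fL v t := fun t ht => fL_pos S ht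
  have hEp : ∀ t, 0 < t → 0 < fE v k t := by
    intro t ht
    have h1 := cs_R S ht
    rw [hRc t ht] at h1
    have h2 : 0 < fR v k t0 ^ 2 / 2 := by positivity
    exact (mul_pos_iff_of_pos_right (hLp t ht)).mp (lt_of_lt_of_le h2 h1)
  have O : Ode (fE v k) (fL v) (fW v k k2) (fP v k k2) :=
    ⟨hEp, hLp, fun t ht => ev_E S ht, fun t ht => ev_L S ht, fun t ht => cs_kV S ht⟩
  have eJ : fR v k t0 ^ 2 / 2 = 2 * Real.pi ^ 2 * rot (γ t0) ^ 2 := by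
    rw [eR]
    ring
  have hJ : ∀ t, t0 ≤ t → fR v k t0 ^ 2 / 2 ≤ fE v k t * fL v t := by
    intro t ht
    have h1 := cs_R S (ht0.trans_le ht)
    rwa [hRc t (ht0.trans_le ht)] at h1
  suffices H : ∃ c : ℝ, 0 < c ∧ ∀ t, t0 ≤ t →
      c * (fE v k t * fL v t - fR v k t0 ^ 2 / 2) ≤
        fL v t ^ 4 * (fW v k k2 t * fL v t - fE v k t * fP v k k2 t) by
    obtain ⟨c, hc, hr⟩ := H
    have := abs_basin O t0 ht0 (fR v k t0 ^ 2 / 2) c hc hJ hr
    rw [eJ, const_eq] at this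
    exact this
  have hR4 : 0 < fR v k t0 ^ 4 := by positivity
  -- the two smallness conditions
  have small : ∀ B : ℝ, fE v k t0 * fL v t0 < B →
      (∀ t, t0 ≤ t → fE v k t * fL v t < B →
        fE v k t * fL v t ≤ fR v k t ^ 2 / 2 + 12 * n ^ 2 ∨
        fE v k t * fL v t ≤ fR v k t ^ 2 / 2 + Real.pi * n * |fR v k t|) →
      ∃ c : ℝ, 0 < c ∧ ∀ t, t0 ≤ t →
        c * (fE v k t * fL v t - fR v k t0 ^ 2 / 2) ≤
          fL v t ^ 4 * (fW v k k2 t * fL v t - fE v k t * fP v k k2 t) := by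
    intro B hB hcond
    have hrate : ∀ t, t0 ≤ t → fE v k t * fL v t < B →
        (1 / 6) * fR v k t0 ^ 4 * (fE v k t * fL v t - fR v k t0 ^ 2 / 2) ≤
          fL v t ^ 4 * (fW v k k2 t * fL v t - fE v k t * fP v k k2 t) := by
      intro t ht hlt
      have htp := ht0.trans_le ht
      have h1 := rate1 S htp n hn (fun x => symm_spd h hs htp x) (fun x => symm_kap h hs htp x)
        (by rw [hRc t htp]; exact hR0) (hcond t ht hlt)
      rwa [hRc t htp] at h1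
    have hDn : ∀ t, t0 ≤ t → fE v k t * fL v t < B →
        0 ≤ fW v k k2 t * fL v t - fE v k t * fP v k k2 t := by
      intro t ht hlt
      have h1 := hrate t ht hlt
      have h2 : 0 ≤ (1 / 6) * fR v k t0 ^ 4 * (fE v k t * fL v t - fR v k t0 ^ 2 / 2) :=
        mul_nonneg (by positivity) (sub_nonneg.mpr (hJ t ht))
      exact nonneg_of_mul_nonneg_right (h2.trans h1) (pow_pos (hLp t (ht0.trans_le ht)) 4)
    obtain ⟨-, hlt⟩ := bar (fun t => fE v k t * fL v t)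
      (fun t => fW v k k2 t * fL v t - fE v k t * fP v k k2 t) t0
      (fun t ht => dI O (ht0.trans_le ht)) B hB hDn
    exact ⟨(1 / 6) * fR v k t0 ^ 4, by positivity, fun t ht => hrate t ht (hlt t ht)⟩
  rcases hyp with h1 | h1 | ⟨δ, hδ, h1⟩
  · refine small _ h1 ?_
    intro t ht hlt
    right
    rw [hRc t (ht0.trans_le ht), eJ, eR, abs_mul, abs_of_pos (show (0 : ℝ) < 2 * Real.pi by positivity)]
    refine hlt.le.trans (le_of_eq ?_)
    ring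
  · refine small _ h1 ?_
    intro t ht hlt
    left
    rw [hRc t (ht0.trans_le ht), eJ]
    exact hlt.le
  · refine ⟨((3 - 4 * δ) / 8) * fR v k t0 ^ 4, mul_pos (by linarith) hR4, ?_⟩
    intro t ht
    have htp := ht0.trans_le ht
    have h2 := rate2 S htp δ hδ (h1 t ht)
    rwa [hRc t htp] at h2

end Pool.Agent.Work.MP_207eeb_an
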