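import Pool.Agent.Work.MP_207eeb_an.Gr

/-!
# Length bound from the total absolute curvature.  Size: M.

`hW`: `c E^5 ≤ W K^6`.  `(E^(-4))' = 4 E^(-5) W ≥ 4 c K^(-6)` (continuous in `t`), so `E^(-4)(t) - 4 c ∫_1^t K^(-6)` is monotone on `[1, ∞)` and
`E^(-4)(t) ≥ 4 c ∫_1^t K^(-6) ≥ 4 c η t^β` for large `t` (`t ≥ t1 ≥ 1`): `E^2 ≤ C1 t^(-β/2)`, `C1 = (4 c η)^(-1/2)`.
Let `b = 1/2 + β/4`, `F = L + t^b E^2` on `[t1, ∞)`.  With `λ = t^b`:
`F' = P - 2 λ E W + λ' E^2 ≤ P - λ P^2 + λ' E^2 ≤ 1/(4 λ) + b t^(b-1) E^2 ≤ t^(-b)/4 + b C1 t^(b - 1 - β/2) = (1/4 + b C1) t^(-b)`,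
because `b - 1 - β/2 = -1/2 - β/4 = -b`.  As `1 - b = 1/2 - β/4 ≥ 1/4 > 0`, the function `F - (1/4 + b C1) t^(1-b)/(1-b)` is antitone
on `[t1, ∞)`, so `L ≤ F ≤ C2 + C3 t^(1-b) ≤ C t^(1-b)` for `t ≥ t1 ≥ 1`.
-/

namespace Pool.Agent.Work.MP_207eeb_an

open Set Filter Topology

variable {E L W P : ℝ → ℝ}

private theorem gk_int {K : ℝ → ℝ} (hKc : ContinuousOn K (Ioi 0)) (hKp : ∀ t, 0 < t → 0 < K t) {t : ℝ}
    (ht : 0 < t) :
    HasDerivAt (fun u => ∫ s in (1 : ℝ)..u, (K s ^ 6)⁻¹) ((K t ^ 6)⁻¹) t := by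
  have hKi : ContinuousOn (fun s => (K s ^ 6)⁻¹) (Ioi 0) :=
    (hKc.pow 6).inv₀ fun s hs => (pow_pos (hKp s hs) 6).ne'
  have hsub : uIcc 1 t ⊆ Ioi 0 := by
    intro x hx
    have h1 : min 1 t ≤ x := hx.1
    have h2 : 0 < min 1 t := lt_min one_pos ht
    exact lt_of_lt_of_le h2 h1
  have hint : IntervalIntegrable (fun s => (K s ^ 6)⁻¹) MeasureTheory.volume 1 t :=
    (hKi.mono hsub).intervalIntegrable
  exact intervalIntegral.integral_hasDerivAt_right hint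
    (hKi.stronglyMeasurableAtFilter isOpen_Ioi t ht) (hKi.continuousAt (Ioi_mem_nhds ht))

/-- the lower bound for `E^(-4)` -/
private theorem gk_E4 (h : Ode E L W P) (K : ℝ → ℝ) (hKc : ContinuousOn K (Ioi 0))
    (hKp : ∀ t, 0 < t → 0 < K t) (c : ℝ) (hW : ∀ t, 0 < t → c * E t ^ 5 ≤ W t * K t ^ 6) {t : ℝ}
    (ht : 1 ≤ t) :
    4 * c * (∫ s in (1 : ℝ)..t, (K s ^ 6)⁻¹) ≤ (E t ^ 4)⁻¹ := by
  set G : ℝ → ℝ := fun u => (E u ^ 4)⁻¹ - 4 * c * ∫ s in (1 : ℝ)..u, (K s ^ 6)⁻¹ with hG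
  have hd : ∀ u, 0 < u → HasDerivAt G
      (-(4 * E u ^ 3 * (-(W u))) / (E u ^ 4) ^ 2 - 4 * c * (K u ^ 6)⁻¹) u := by
    intro u hu
    have h1 : HasDerivAt (fun x => E x ^ 4) (4 * E u ^ 3 * (-(W u))) u := by
      have h2 := (h.dE u hu).fun_pow 4
      simpa using h2
    exact (h1.inv (pow_pos (h.Epos u hu) 4).ne').sub ((gk_int hKc hKp hu).const_mul (4 * c))
  have hn : ∀ u, 0 < u → 0 ≤ -(4 * E u ^ 3 * (-(W u))) / (E u ^ 4) ^ 2 - 4 * c * (K u ^ 6)⁻¹ := by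
    intro u hu
    have hE := h.Epos u hu
    have hK := hKp u hu
    have h1 := hW u hu
    have h2 : -(4 * E u ^ 3 * (-(W u))) / (E u ^ 4) ^ 2 - 4 * c * (K u ^ 6)⁻¹ =
        4 * (W u * K u ^ 6 - c * E u ^ 5) / (E u ^ 5 * K u ^ 6) := by
      field_simp
    rw [h2]
    apply div_nonneg
    · linarith
    · positivity
  have hmono : MonotoneOn G (Icc 1 t) := by
    apply monotoneOn_of_deriv_nonneg (convex_Icc 1 t)
    · intro x hx
      exact (hd x (lt_of_lt_of_le one_pos hx.1)).continuousAt.continuousWithinAt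
    · intro x hx
      rw [interior_Icc] at hx
      exact (hd x (lt_trans one_pos hx.1)).differentiableAt.differentiableWithinAt
    · intro x hx
      rw [interior_Icc] at hx
      rw [(hd x (lt_trans one_pos hx.1)).deriv]
      exact hn x (lt_trans one_pos hx.1)
  have h1 := hmono (left_mem_Icc.2 ht) (right_mem_Icc.2 ht) ht
  have h2 : G 1 = (E 1 ^ 4)⁻¹ := by
    simp [hG]
  have h3 : 0 < (E 1 ^ 4)⁻¹ := inv_pos.2 (pow_pos (h.Epos 1 one_pos) 4)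
  rw [h2] at h1
  have h4 : G t = (E t ^ 4)⁻¹ - 4 * c * ∫ s in (1 : ℝ)..t, (K s ^ 6)⁻¹ := rfl
  rw [h4] at h1
  linarith

theorem growth_k (h : Ode E L W P) (K : ℝ → ℝ) (hKc : ContinuousOn K (Ioi 0)) (hKp : ∀ t, 0 < t → 0 < K t)
    (c : ℝ) (hc : 0 < c) (hW : ∀ t, 0 < t → c * E t ^ 5 ≤ W t * K t ^ 6)
    (β : ℝ) (hβ : 0 < β) (hβ1 : β ≤ 1) (η : ℝ) (hη : 0 < η)
    (hK : ∀ᶠ t in atTop, η * t ^ β ≤ ∫ s in (1 : ℝ)..t, (K s ^ 6)⁻¹) :
    ∃ C : ℝ, ∀ᶠ t in atTop, L t ≤ C * t ^ (1 / 2 - β / 4) := by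
  obtain ⟨t0, ht0⟩ := eventually_atTop.1 hK
  set t1 : ℝ := max t0 1 with ht1
  have ht1' : 1 ≤ t1 := le_max_right _ _
  have ht01 : t0 ≤ t1 := le_max_left _ _
  set C1 : ℝ := (4 * c * η) ^ (-(1 / 2) : ℝ) with hC1
  have hC1p : 0 < C1 := Real.rpow_pos_of_pos (by positivity) _
  have hE2 : ∀ t, t1 ≤ t → E t ^ 2 ≤ C1 * t ^ (-(β / 2)) := by
    intro t ht
    have htp : 0 < t := by linarith
    have h1 : 4 * c * (η * t ^ β) ≤ (E t ^ 4)⁻¹ := by
      refine le_trans ?_ (gk_E4 h K hKc hKp c hW (ht1'.trans ht))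
      exact mul_le_mul_of_nonneg_left (ht0 t (ht01.trans ht)) (by positivity)
    have hE := h.Epos t htp
    have htb : 0 < t ^ β := Real.rpow_pos_of_pos htp _
    have h2 : E t ^ 4 ≤ (4 * c * (η * t ^ β))⁻¹ := by
      rw [le_inv_comm₀ (pow_pos hE 4) (by positivity)]
      exact h1
    have h3 : (C1 * t ^ (-(β / 2))) ^ 2 = (4 * c * (η * t ^ β))⁻¹ := by
      have e1 : C1 ^ 2 = (4 * c * η)⁻¹ := by
        rw [hC1, ← Real.rpow_natCast, ← Real.rpow_mul (by positivity)]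
        norm_num
        rw [Real.rpow_neg_one]
        field_simp
      have e2 : (t ^ (-(β / 2))) ^ 2 = (t ^ β)⁻¹ := by
        rw [← Real.rpow_natCast, ← Real.rpow_mul htp.le, ← Real.rpow_neg htp.le]
        congr 1
        push_cast
        ring
      rw [mul_pow, e1, e2, ← mul_inv]
      congr 1
      ring
    have h4 : (E t ^ 2) ^ 2 ≤ (C1 * t ^ (-(β / 2))) ^ 2 := by
      rw [h3]
      calc (E t ^ 2) ^ 2 = E t ^ 4 := by ring
        _ ≤ _ := h2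
    have h5 : 0 ≤ C1 * t ^ (-(β / 2)) := by positivity
    exact (sq_le_sq₀ (by positivity) h5).1 h4
  set b : ℝ := 1 / 2 + β / 4 with hb
  have hb0 : 0 < b := by positivity
  have hb1 : 0 < 1 - b := by rw [hb]; linarith
  set D : ℝ := (1 / 4 + b * C1) / (1 - b) with hD
  have hDp : 0 < D := by positivity
  set F : ℝ → ℝ := fun t => L t + t ^ b * E t ^ 2 - D * t ^ (1 - b) with hF
  have hd : ∀ t, 0 < t → HasDerivAt F
      (P t + (b * t ^ (b - 1) * E t ^ 2 + t ^ b * (2 * E t * (-(W t)))) -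
        D * ((1 - b) * t ^ (1 - b - 1))) t := by
    intro t ht
    have h1 : HasDerivAt (fun x => E x ^ 2) (2 * E t * (-(W t))) t := by
      have h2 := (h.dE t ht).fun_pow 2
      simpa using h2
    have h3 : HasDerivAt (fun x : ℝ => x ^ b) (b * t ^ (b - 1)) t :=
      Real.hasDerivAt_rpow_const (Or.inl ht.ne')
    have h4 : HasDerivAt (fun x : ℝ => x ^ (1 - b)) ((1 - b) * t ^ (1 - b - 1)) t :=
      Real.hasDerivAt_rpow_const (Or.inl ht.ne')
    exact ((h.dL t ht).add (h3.mul h1)).sub (h4.const_mul D)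
  have hn : ∀ t, t1 ≤ t → P t + (b * t ^ (b - 1) * E t ^ 2 + t ^ b * (2 * E t * (-(W t)))) -
        D * ((1 - b) * t ^ (1 - b - 1)) ≤ 0 := by
    intro t ht
    have htp : 0 < t := by linarith
    have hcs := h.cs t htp
    have hE := hE2 t ht
    have hl : 0 < t ^ b := Real.rpow_pos_of_pos htp _
    have e1 : t ^ (1 - b - 1) = (t ^ b)⁻¹ := by
      rw [← Real.rpow_neg htp.le]
      congr 1
      ring
    have e2 : t ^ (b - 1) * t ^ (-(β / 2)) = (t ^ b)⁻¹ := by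
      rw [← Real.rpow_add htp, ← Real.rpow_neg htp.le]
      congr 1
      rw [hb]
      ring
    have e3 : D * ((1 - b) * (t ^ b)⁻¹) = (1 / 4 + b * C1) * (t ^ b)⁻¹ := by
      rw [hD]
      field_simp
    rw [e1, e3]
    have h1 : b * t ^ (b - 1) * E t ^ 2 ≤ b * C1 * (t ^ b)⁻¹ := by
      have h2 : 0 < t ^ (b - 1) := Real.rpow_pos_of_pos htp _
      calc b * t ^ (b - 1) * E t ^ 2 ≤ b * t ^ (b - 1) * (C1 * t ^ (-(β / 2))) :=
            mul_le_mul_of_nonneg_left hE (by positivity)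
        _ = b * C1 * (t ^ (b - 1) * t ^ (-(β / 2))) := by ring
        _ = b * C1 * (t ^ b)⁻¹ := by rw [e2]
    have h3 : t ^ b * P t ^ 2 ≤ t ^ b * (2 * E t * W t) := mul_le_mul_of_nonneg_left hcs hl.le
    have h4 : P t ≤ t ^ b * P t ^ 2 + 1 / 4 * (t ^ b)⁻¹ := by
      have h5 : t ^ b * P t ^ 2 + 1 / 4 * (t ^ b)⁻¹ - P t = (t ^ b * P t - 1 / 2) ^ 2 / t ^ b := by
        field_simp
        ring
      have h6 : 0 ≤ (t ^ b * P t - 1 / 2) ^ 2 / t ^ b := by positivity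
      linarith
    have h7 : t ^ b * (2 * E t * (-(W t))) = -(t ^ b * (2 * E t * W t)) := by ring
    rw [h7]
    linarith
  have hanti : AntitoneOn F (Ici t1) := by
    apply antitoneOn_of_deriv_nonpos (convex_Ici t1)
    · intro x hx
      exact (hd x (lt_of_lt_of_le (by linarith) (mem_Ici.1 hx))).continuousAt.continuousWithinAt
    · intro x hx
      rw [interior_Ici] at hx
      exact (hd x (lt_trans (by linarith) (mem_Ioi.1 hx))).differentiableAt.differentiableWithinAt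
    · intro x hx
      rw [interior_Ici] at hx
      rw [(hd x (lt_trans (by linarith) (mem_Ioi.1 hx))).deriv]
      exact hn x (le_of_lt (mem_Ioi.1 hx))
  refine ⟨|F t1| + D, ?_⟩
  filter_upwards [eventually_ge_atTop t1] with t ht
  have htp : 0 < t := by linarith
  have h1 := hanti (mem_Ici.2 le_rfl) (mem_Ici.2 ht) ht
  have h2 : F t = L t + t ^ b * E t ^ 2 - D * t ^ (1 - b) := rfl
  rw [h2] at h1
  have e : (1 / 2 - β / 4 : ℝ) = 1 - b := by rw [hb]; ring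
  rw [e]
  have h3 : 1 ≤ t ^ (1 - b) := Real.one_le_rpow (ht1'.trans ht) hb1.le
  have h4 : F t1 ≤ |F t1| * t ^ (1 - b) :=
    (le_abs_self _).trans (le_mul_of_one_le_right (abs_nonneg _) h3)
  have h5 : 0 ≤ t ^ b * E t ^ 2 := by positivity
  have h6 : (|F t1| + D) * t ^ (1 - b) = |F t1| * t ^ (1 - b) + D * t ^ (1 - b) := by ring
  rw [h6]
  linarith

end Pool.Agent.Work.MP_207eeb_an
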