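import Pool.Agent.Work.MP_207eeb_an.Red2
import Pool.Agent.Work.MP_207eeb_an.Gk

/-!
# Total absolute curvature criterion: assembly.  Size: S-M.

`S := flow_sys h`; `Ode (fun t => ener (γ t)) (fun t => len (γ t)) (fW ..) (fP ..)` by `ev_E`, `ev_L`, `cs_kV`, `fL_pos`, `ener_pos`
(`vf k k2 t = vel (γ t)` definitionally).  `K t = tac (γ t)` is continuous on `(0, ∞)` (`cont_int`; `|k| v` is continuous) and `≥ 1`.
Part 1 is `o_sqrt`.  Part 2 is `growth_k` with `c = 10^{-5}` (`diss_tac`).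
-/

namespace Pool.Agent.Work.MP_207eeb_an

open Set Filter Topology

theorem criterion (γ : ℝ → ℝ → ℂ) (h : Flow γ) :
    Tendsto (fun t => len (γ t) / Real.sqrt t) atTop (𝓝 0) ∧
      ∀ β : ℝ, 0 < β → β ≤ 1 → ∀ η : ℝ, 0 < η →
        (∀ᶠ t in atTop, η * t ^ β ≤ ∫ s in (1 : ℝ)..t, (tac (γ s) ^ 6)⁻¹) →
          ∃ C : ℝ, ∀ᶠ t in atTop, len (γ t) ≤ C * t ^ (1 / 2 - β / 4) := by
  have S := flow_sys h
  have O : Ode (fun t => ener (γ t)) (fun t => len (γ t))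
      (fW (fun t => spd (γ t)) (fun t => kap (γ t)) (fun t => dS (γ t) (dS (γ t) (kap (γ t)))))
      (fP (fun t => spd (γ t)) (fun t => kap (γ t)) (fun t => dS (γ t) (dS (γ t) (kap (γ t))))) :=
    ⟨fun t ht => ener_pos h ht, fun t ht => fL_pos S ht, fun t ht => ev_E S ht,
      fun t ht => ev_L S ht, fun t ht => cs_kV S ht⟩
  refine ⟨o_sqrt O, ?_⟩
  intro β hβ hβ1 η hη hK
  have hc : Ct (fun t x => |kap (γ t) x| * spd (γ t) x) :=
    (ContinuousOn.abs S.ck).mul S.cv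
  exact growth_k O (fun t => tac (γ t)) (cont_int hc)
    (fun t ht => lt_of_lt_of_le one_pos (tac_ge_one h ht)) (1 / 100000) (by norm_num)
    (fun t ht => diss_tac h ht) β hβ hβ1 η hη hK

end Pool.Agent.Work.MP_207eeb_an
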