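import Pool.Agent.Work.MP_207eeb_an.SmL

/-!
# A solution of the flow: smoothness and the Frenet equation.  Size: M.

* `sm_spd`: `Sm (fun t x => deriv (γ t) x)` by `Sm.dx`, never zero, `Sm.norm`.  `spd_pos`: `norm_pos_iff`.
* `sm_kap`: `Sm.conj`, `Sm.mulC`, `Sm.im`, `Sm.divR`, `Sm.powR`.  `sm_dS`: `Sm.dx`, `Sm.divR`.
* periodicity: `γ t (x + 1) = γ t x` for all `x`, so all derivatives in `x` are periodic
  (`deriv_comp_add_const` or `Function.Periodic`), hence `spd`, `kap`, `dS`.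
* `tng_deriv` (Frenet): `T = c'/|c'|`.  `T' = c''/|c'| - c' |c'|' / |c'|^2`, so
  `conj T * T' = conj c' c'' / |c'|^2 - |c'|'/|c'|`, whose imaginary part is `Im (conj c' c'')/|c'|^2 = kap * spd`; its real part
  is `0` because `conj T * T = 1` (differentiate).  So `conj T * T' = i kap spd` and `T' = T (conj T T') = i kap spd T`.
* `nrm_deriv`: `N = i T`, so `N' = -kap spd T`.
* `symm_spd`, `symm_kap`: from `γ t (x + 1/n) = ζ γ t x + b`: `c'(x + 1/n) = ζ c'(x)`, `c''(x + 1/n) = ζ c''(x)`, `|ζ| = 1`.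
-/

namespace Pool.Agent.Work.MP_207eeb_an

open scoped ContDiff
open Set

variable {γ : ℝ → ℝ → ℂ}

private theorem aff_deriv {f : ℝ → ℂ} {a : ℝ} {ζ b : ℂ} (hf : ∀ x, f (x + a) = ζ * f x + b)
    (x : ℝ) : deriv f (x + a) = ζ * deriv f x := by
  rw [← deriv_comp_add_const]
  have h1 : (fun y => f (y + a)) = fun y => ζ * f y + b := funext hf
  rw [h1, deriv_add_const, deriv_const_mul_field]

private theorem per_deriv {E : Type*} [NormedAddCommGroup E] [NormedSpace ℝ E] {f : ℝ → E} {a : ℝ}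
    (hf : ∀ x, f (x + a) = f x) (x : ℝ) : deriv f (x + a) = deriv f x := by
  rw [← deriv_comp_add_const]
  have h1 : (fun y => f (y + a)) = f := funext hf
  rw [h1]

theorem Flow.sm (h : Flow γ) : Sm γ := h.smooth

theorem Flow.spd_pos (h : Flow γ) {t : ℝ} (ht : 0 < t) (x : ℝ) : 0 < spd (γ t) x := by
  unfold spd
  exact norm_pos_iff.2 (h.immersed t ht x)

theorem Flow.sm_spd (h : Flow γ) : Sm (fun t => spd (γ t)) := by
  have h1 : Sm (fun t x => deriv (γ t) x) := h.sm.dx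
  exact h1.norm h.immersed

theorem Flow.sm_kap (h : Flow γ) : Sm (fun t => kap (γ t)) := by
  have h1 : Sm (fun t x => deriv (γ t) x) := h.sm.dx
  have h2 : Sm (fun t x => deriv (deriv (γ t)) x) := h1.dx
  exact Sm.divR (h1.conj.mulC h2).im (h.sm_spd.powR 3)
    fun t ht x => pow_ne_zero 3 (h.spd_pos ht x).ne'

theorem Flow.sm_dS (h : Flow γ) {f : ℝ → ℝ → ℝ} (hf : Sm f) : Sm (fun t => dS (γ t) (f t)) := by
  exact Sm.divR hf.dx h.sm_spd fun t ht x => (h.spd_pos ht x).ne'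

theorem Flow.sm_vel (h : Flow γ) : Sm (fun t => vel (γ t)) := by
  have h1 := h.sm_dS (h.sm_dS h.sm_kap)
  have h2 : Sm (fun t x => kap (γ t) x ^ 3 / 2) :=
    Sm.divR (h.sm_kap.powR 3) (Sm.const 2) fun t ht x => two_ne_zero
  exact (h1.add h2).neg

theorem Flow.sm_tng (h : Flow γ) : Sm (fun t => tng (γ t)) := by
  exact Sm.divC h.sm.dx h.sm_spd.ofReal fun t ht x => by
    rw [Ne, Complex.ofReal_eq_zero]
    exact (h.spd_pos ht x).ne'

private theorem p_d1 (h : Flow γ) {t : ℝ} (ht : 0 < t) (x : ℝ) :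
    deriv (γ t) (x + 1) = deriv (γ t) x := per_deriv (h.closed t ht) x

private theorem p_d2 (h : Flow γ) {t : ℝ} (ht : 0 < t) (x : ℝ) :
    deriv (deriv (γ t)) (x + 1) = deriv (deriv (γ t)) x := per_deriv (p_d1 h ht) x

theorem Flow.p_spd (h : Flow γ) {t : ℝ} (ht : 0 < t) (x : ℝ) : spd (γ t) (x + 1) = spd (γ t) x := by
  unfold spd
  rw [p_d1 h ht]

theorem Flow.p_kap (h : Flow γ) {t : ℝ} (ht : 0 < t) (x : ℝ) : kap (γ t) (x + 1) = kap (γ t) x := by
  unfold kap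
  rw [p_d1 h ht, p_d2 h ht, h.p_spd ht]

theorem Flow.p_tng (h : Flow γ) {t : ℝ} (ht : 0 < t) (x : ℝ) : tng (γ t) (x + 1) = tng (γ t) x := by
  unfold tng
  rw [p_d1 h ht, h.p_spd ht]

theorem Flow.p_dS (h : Flow γ) {t : ℝ} (ht : 0 < t) {f : ℝ → ℝ} (hf : ∀ x, f (x + 1) = f x) (x : ℝ) :
    dS (γ t) f (x + 1) = dS (γ t) f x := by
  unfold dS
  rw [per_deriv hf, h.p_spd ht]

theorem Flow.norm_tng (h : Flow γ) {t : ℝ} (ht : 0 < t) (x : ℝ) : ‖tng (γ t) x‖ = 1 := by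
  have h1 := h.spd_pos ht x
  unfold tng
  rw [norm_div, Complex.norm_real, Real.norm_of_nonneg h1.le]
  exact div_self h1.ne'

private theorem spd_deriv (h : Flow γ) {t : ℝ} (ht : 0 < t) (x : ℝ) :
    spd (γ t) x * deriv (spd (γ t)) x =
      ((starRingEnd ℂ) (deriv (γ t) x) * deriv (deriv (γ t)) x).re := by
  have h1 : Sm (fun t x => deriv (γ t) x) := h.sm.dx
  have h2 : HasDerivAt (deriv (γ t)) (deriv (deriv (γ t)) x) x := h1.hx ht x
  have h3 : HasDerivAt (spd (γ t)) (deriv (spd (γ t)) x) x := h.sm_spd.hx ht x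
  have h4 := h3.pow 2
  have hre : HasDerivAt (fun y => (deriv (γ t) y).re) (deriv (deriv (γ t)) x).re x :=
    Complex.reCLM.hasFDerivAt.comp_hasDerivAt x h2
  have him : HasDerivAt (fun y => (deriv (γ t) y).im) (deriv (deriv (γ t)) x).im x :=
    Complex.imCLM.hasFDerivAt.comp_hasDerivAt x h2
  have h5 := (hre.pow 2).add (him.pow 2)
  have h6 : (spd (γ t)) ^ 2 =
      (fun y => (deriv (γ t) y).re) ^ 2 + (fun y => (deriv (γ t) y).im) ^ 2 := by
    funext y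
    simp only [Pi.pow_apply, Pi.add_apply, spd]
    rw [Complex.sq_norm, Complex.normSq_apply]
    ring
  rw [h6] at h4
  have h7 := h4.unique h5
  simp only [Nat.cast_ofNat, Nat.reduceSub, pow_one, Nat.add_one_sub_one] at h7
  rw [Complex.mul_re, Complex.conj_re, Complex.conj_im]
  linarith

private theorem spd_sq (c : ℝ → ℂ) (x : ℝ) :
    ((spd c x : ℂ)) ^ 2 = (starRingEnd ℂ) (deriv c x) * deriv c x := by
  unfold spd
  rw [mul_comm, Complex.mul_conj, Complex.normSq_eq_norm_sq]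
  push_cast
  rfl

theorem Flow.tng_deriv (h : Flow γ) {t : ℝ} (ht : 0 < t) (x : ℝ) :
    HasDerivAt (tng (γ t)) (Complex.I * (kap (γ t) x * spd (γ t) x : ℝ) * tng (γ t) x) x := by
  have h1 : Sm (fun t x => deriv (γ t) x) := h.sm.dx
  have h2 : HasDerivAt (deriv (γ t)) (deriv (deriv (γ t)) x) x := h1.hx ht x
  have h3 : HasDerivAt (fun y => ((spd (γ t) y : ℝ) : ℂ)) ((deriv (spd (γ t)) x : ℝ) : ℂ) x :=
    (h.sm_spd.hx ht x).ofReal_comp
  have hpos := h.spd_pos ht x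
  have hne : ((spd (γ t) x : ℝ) : ℂ) ≠ 0 := by
    rw [Ne, Complex.ofReal_eq_zero]
    exact hpos.ne'
  have h4 := h2.div h3 hne
  refine h4.congr_deriv ?_
  set s : ℝ := spd (γ t) x with hs
  set s' : ℝ := deriv (spd (γ t)) x with hs'
  set c1 : ℂ := deriv (γ t) x with hc1
  set c2 : ℂ := deriv (deriv (γ t)) x with hc2
  set z : ℂ := (starRingEnd ℂ) c1 * c2 with hz
  have e1 : (s : ℂ) * (s' : ℂ) = (z.re : ℂ) := by
    rw [← Complex.ofReal_mul]
    exact congrArg _ (spd_deriv h ht x)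
  have e2 : (s : ℂ) ^ 2 = (starRingEnd ℂ) c1 * c1 := spd_sq (γ t) x
  have e3 : (z.re : ℂ) + (z.im : ℂ) * Complex.I = z := Complex.re_add_im z
  have e4 : kap (γ t) x * s = z.im / s ^ 2 := by
    unfold kap
    rw [← hs, ← hc1, ← hc2, ← hz]
    field_simp
  have e5 : tng (γ t) x = c1 / (s : ℂ) := rfl
  rw [e4, e5]
  push_cast
  have e6 : c2 * (s : ℂ) ^ 2 = c1 * z := by
    rw [e2, hz]
    ring
  field_simp
  linear_combination e6 - c1 * e1 - c1 * e3

theorem Flow.nrm_deriv (h : Flow γ) {t : ℝ} (ht : 0 < t) (x : ℝ) :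
    HasDerivAt (nrm (γ t)) (-(kap (γ t) x * spd (γ t) x : ℝ) * tng (γ t) x) x := by
  have h1 := (h.tng_deriv ht x).const_mul Complex.I
  refine h1.congr_deriv ?_
  linear_combination (((kap (γ t) x * spd (γ t) x : ℝ) : ℂ) * tng (γ t) x) * Complex.I_mul_I

private theorem s_d1 {n : ℕ} {t : ℝ} {ζ b : ℂ} (hb : ∀ x, γ t (x + 1 / n) = ζ * γ t x + b)
    (x : ℝ) : deriv (γ t) (x + 1 / n) = ζ * deriv (γ t) x := aff_deriv hb x

private theorem s_d2 {n : ℕ} {t : ℝ} {ζ b : ℂ} (hb : ∀ x, γ t (x + 1 / n) = ζ * γ t x + b)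
    (x : ℝ) : deriv (deriv (γ t)) (x + 1 / n) = ζ * deriv (deriv (γ t)) x := by
  apply aff_deriv (b := 0)
  intro y
  rw [s_d1 hb, add_zero]

theorem symm_spd {n : ℕ} (h : Flow γ) (hs : Symm n γ) {t : ℝ} (ht : 0 < t) (x : ℝ) :
    spd (γ t) (x + 1 / n) = spd (γ t) x := by
  obtain ⟨ζ, hζ, hb⟩ := hs
  obtain ⟨b, hb⟩ := hb t ht
  unfold spd
  rw [s_d1 hb, norm_mul, hζ, one_mul]

theorem symm_kap {n : ℕ} (h : Flow γ) (hs : Symm n γ) {t : ℝ} (ht : 0 < t) (x : ℝ) :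
    kap (γ t) (x + 1 / n) = kap (γ t) x := by
  have h1 := symm_spd h hs ht x
  obtain ⟨ζ, hζ, hb⟩ := hs
  obtain ⟨b, hb⟩ := hb t ht
  unfold kap
  rw [h1, s_d1 hb, s_d2 hb]
  have h2 : (starRingEnd ℂ) (ζ * deriv (γ t) x) * (ζ * deriv (deriv (γ t)) x) =
      (starRingEnd ℂ) (deriv (γ t) x) * deriv (deriv (γ t)) x := by
    have h3 : (starRingEnd ℂ) ζ * ζ = 1 := by
      rw [mul_comm, Complex.mul_conj, Complex.normSq_eq_norm_sq, hζ]
      simp
    rw [map_mul]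
    linear_combination ((starRingEnd ℂ) (deriv (γ t) x) * deriv (deriv (γ t)) x) * h3
  rw [h2]

end Pool.Agent.Work.MP_207eeb_an
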