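import Pool.Agent.Work.MP_207eeb_an.Geo1

/-!
# The evolution equations of speed and curvature.  Size: M.

Fix `t > 0`, write `v = spd`, `κ = kap`, `T = tng`, `V = vel`, `γ_t = V i T`, `γ_x = v T`, `T_x = i κ v T` (`Flow.tng_deriv`).
(1) `(γ_x)_t = (γ_t)_x` (`Sm.comm`, and `deriv (fun s => γ s y) t = V(y) nrm(y)` for all `y` by `Flow.flow`)
    `= V_x i T + V i T_x = V_x i T - V κ v T`.
(2) `v = |γ_x|`, `v^2 = γ_x conj γ_x`, so `v v_t = Re (conj γ_x (γ_x)_t) = Re (v conj T (V_x i T - V κ v T)) = - v^2 V κ`: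
    `v_t = - κ V v` (`evol_v`).
(3) `T_t = (γ_x)_t / v - γ_x v_t / v^2 = (V_x i T - V κ v T)/v + κ V T = i (V_x / v) T` (`evol_T`).
(4) `(T_x)_t = (T_t)_x` (`Sm.comm` for `T`): the left side is `(i κ v T)_t = i (κ v)_t T + i κ v · i (V_x/v) T`, the right side is
    `(i (V_x / v) T)_x = i (V_x/v)_x T + i (V_x/v) i κ v T`.  So `(κ v)_t = (V_x / v)_x` (divide by `i T ≠ 0`, real numbers).
(5) `κ_t v = (V_x/v)_x - κ v_t = (V_x/v)_x + κ^2 V v`, so `κ_t = dS (dS V) + κ^2 V` (`evol_k`).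
`flow_sys` collects everything: `dk : HasDerivAt κ (v * dS κ) x` as `dS κ = κ_x / v`, etc.; `vf k k2 = vel` definitionally
for `k = kap`, `k2 = dS (dS kap)`; periodicity from `Geo1`; continuity from `Sm.ct`.
-/

namespace Pool.Agent.Work.MP_207eeb_an

open scoped ContDiff
open Set

variable {γ : ℝ → ℝ → ℂ}

theorem geo2_mul_dS (h : Flow γ) {t : ℝ} (ht : 0 < t) (f : ℝ → ℝ) (x : ℝ) :
    spd (γ t) x * dS (γ t) f x = deriv f x := by
  have hv := (h.spd_pos ht x).ne'
  unfold dS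
  field_simp

theorem geo2_gx (h : Flow γ) {t : ℝ} (ht : 0 < t) (x : ℝ) :
    deriv (γ t) x = (spd (γ t) x : ℂ) * tng (γ t) x := by
  have hv : (spd (γ t) x : ℂ) ≠ 0 := by
    exact_mod_cast (h.spd_pos ht x).ne'
  unfold tng
  field_simp

theorem geo2_gxt (h : Flow γ) {t : ℝ} (ht : 0 < t) (x : ℝ) :
    HasDerivAt (fun s => deriv (γ s) x)
      ((spd (γ t) x * dS (γ t) (vel (γ t)) x : ℝ) * (Complex.I * tng (γ t) x) +
        (vel (γ t) x : ℂ) * (-(kap (γ t) x * spd (γ t) x : ℝ) * tng (γ t) x)) t := by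
  have h1 := h.sm.dx.ht ht x
  have h2 := h.sm.comm ht x
  have h3 : (fun y => deriv (fun s => γ s y) t) = fun y => (vel (γ t) y : ℂ) * nrm (γ t) y := by
    funext y
    exact h.flow t ht y
  rw [h3] at h2
  have h4 : HasDerivAt (vel (γ t)) (spd (γ t) x * dS (γ t) (vel (γ t)) x) x := by
    rw [geo2_mul_dS h ht]
    exact h.sm_vel.hx ht x
  have h5 := h4.ofReal_comp.mul (h.nrm_deriv ht x)
  have h6 := h5.deriv
  have h7 : deriv (fun s => deriv (γ s) x) t =
      ((spd (γ t) x * dS (γ t) (vel (γ t)) x : ℝ) : ℂ) * nrm (γ t) x +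
        (vel (γ t) x : ℂ) * (-(kap (γ t) x * spd (γ t) x : ℝ) * tng (γ t) x) := by
    rw [h2]
    exact h6
  rw [h7] at h1
  exact h1

theorem geo2_TT (h : Flow γ) {t : ℝ} (ht : 0 < t) (x : ℝ) :
    (starRingEnd ℂ) (tng (γ t) x) * tng (γ t) x = 1 := by
  rw [← Complex.normSq_eq_conj_mul_self, Complex.normSq_eq_norm_sq, h.norm_tng ht x]
  norm_num

theorem evol_v (h : Flow γ) {t : ℝ} (ht : 0 < t) (x : ℝ) :
    HasDerivAt (fun s => spd (γ s) x) (-(kap (γ t) x * vel (γ t) x * spd (γ t) x)) t := by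
  have h1 := h.sm_spd.ht ht x
  have h2 := (geo2_gxt h ht x).norm_sq
  have h3 := h1.pow 2
  have hv := h.spd_pos ht x
  have h4 : (fun s => ‖deriv (γ s) x‖ ^ 2) = (fun s => spd (γ s) x) ^ 2 := by
    funext s
    rfl
  rw [h4] at h2
  have h5 := h2.unique h3
  rw [Complex.inner, geo2_gx h ht x] at h5
  have h6 : ((spd (γ t) x * dS (γ t) (vel (γ t)) x : ℝ) * (Complex.I * tng (γ t) x) +
        (vel (γ t) x : ℂ) * (-(kap (γ t) x * spd (γ t) x : ℝ) * tng (γ t) x)) *
      (starRingEnd ℂ) ((spd (γ t) x : ℂ) * tng (γ t) x) =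
      ((-(spd (γ t) x ^ 2 * vel (γ t) x * kap (γ t) x) : ℝ) : ℂ) +
        ((spd (γ t) x ^ 2 * dS (γ t) (vel (γ t)) x : ℝ) : ℂ) * Complex.I := by
    rw [map_mul, Complex.conj_ofReal]
    push_cast
    linear_combination ((spd (γ t) x : ℂ) * ((spd (γ t) x : ℂ) * (dS (γ t) (vel (γ t)) x : ℂ) * Complex.I
      - (vel (γ t) x : ℂ) * (kap (γ t) x : ℂ) * (spd (γ t) x : ℂ))) * geo2_TT h ht x
  rw [h6] at h5
  have h7 : (((-(spd (γ t) x ^ 2 * vel (γ t) x * kap (γ t) x) : ℝ) : ℂ) +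
        ((spd (γ t) x ^ 2 * dS (γ t) (vel (γ t)) x : ℝ) : ℂ) * Complex.I).re =
        -(spd (γ t) x ^ 2 * vel (γ t) x * kap (γ t) x) := by
    simp only [Complex.add_re, Complex.mul_re, Complex.ofReal_re, Complex.ofReal_im, Complex.I_re,
      Complex.I_im]
    ring
  rw [h7] at h5
  have h8 : deriv (fun s => spd (γ s) x) t = -(kap (γ t) x * vel (γ t) x * spd (γ t) x) := by
    apply mul_left_cancel₀ hv.ne'
    norm_num at h5
    linear_combination (-(1 / 2 : ℝ)) * h5
  rw [h8] at h1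
  exact h1

theorem evol_T (h : Flow γ) {t : ℝ} (ht : 0 < t) (x : ℝ) :
    HasDerivAt (fun s => tng (γ s) x) (Complex.I * (dS (γ t) (vel (γ t)) x : ℝ) * tng (γ t) x) t := by
  have hv : (spd (γ t) x : ℂ) ≠ 0 := by
    exact_mod_cast (h.spd_pos ht x).ne'
  have h1 := (geo2_gxt h ht x).div (evol_v h ht x).ofReal_comp hv
  refine h1.congr_deriv ?_
  rw [geo2_gx h ht x, div_eq_iff (pow_ne_zero 2 hv)]
  push_cast
  ring

theorem evol_k (h : Flow γ) {t : ℝ} (ht : 0 < t) (x : ℝ) :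
    HasDerivAt (fun s => kap (γ s) x)
      (dS (γ t) (dS (γ t) (vel (γ t))) x + kap (γ t) x ^ 2 * vel (γ t) x) t := by
  have hvp := h.spd_pos ht x
  have h1 := h.sm_kap.ht ht x
  have h2 := h.sm_tng.comm ht x
  have h3 : deriv (fun s => deriv (tng (γ s)) x) t =
      deriv (fun s => Complex.I * (kap (γ s) x * spd (γ s) x : ℝ) * tng (γ s) x) t :=
    deriv_t_congr (f := fun s y => Complex.I * (kap (γ s) y * spd (γ s) y : ℝ) * tng (γ s) y)
      (g := fun s y => deriv (tng (γ s)) y) (fun s hs y => (h.tng_deriv hs y).deriv) ht x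
  have h4 : (fun y => deriv (fun s => tng (γ s) y) t) =
      fun y => Complex.I * (dS (γ t) (vel (γ t)) y : ℝ) * tng (γ t) y := by
    funext y
    exact (evol_T h ht y).deriv
  rw [h3, h4] at h2
  have h5 := ((((h1.mul (evol_v h ht x)).ofReal_comp).const_mul Complex.I).mul (evol_T h ht x)).deriv
  have h6 : HasDerivAt (dS (γ t) (vel (γ t))) (spd (γ t) x * dS (γ t) (dS (γ t) (vel (γ t))) x) x := by
    rw [geo2_mul_dS h ht]
    exact (h.sm_dS h.sm_vel).hx ht x
  have h7 := (((h6.ofReal_comp).const_mul Complex.I).mul (h.tng_deriv ht x)).deriv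
  have h8 := (h5.symm.trans h2).trans h7
  have hT : tng (γ t) x ≠ 0 := by
    intro h0
    have := geo2_TT h ht x
    rw [h0, mul_zero] at this
    exact zero_ne_one this
  simp only [Pi.mul_apply] at h8
  have h9 : Complex.I * tng (γ t) x * ((deriv (fun s => kap (γ s) x) t * spd (γ t) x +
      kap (γ t) x * -(kap (γ t) x * vel (γ t) x * spd (γ t) x) : ℝ) : ℂ) =
      Complex.I * tng (γ t) x * ((spd (γ t) x * dS (γ t) (dS (γ t) (vel (γ t))) x : ℝ) : ℂ) := by
    linear_combination h8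
  have h10 := mul_left_cancel₀ (mul_ne_zero Complex.I_ne_zero hT) h9
  have h11 : deriv (fun s => kap (γ s) x) t * spd (γ t) x +
      kap (γ t) x * -(kap (γ t) x * vel (γ t) x * spd (γ t) x) =
      spd (γ t) x * dS (γ t) (dS (γ t) (vel (γ t))) x := by
    exact_mod_cast h10
  have h12 : deriv (fun s => kap (γ s) x) t =
      dS (γ t) (dS (γ t) (vel (γ t))) x + kap (γ t) x ^ 2 * vel (γ t) x := by
    apply mul_right_cancel₀ hvp.ne'
    linear_combination h11
  rw [h12] at h1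
  exact h1

theorem flow_sys (h : Flow γ) :
    Sys (fun t => spd (γ t)) (fun t => kap (γ t)) (fun t => dS (γ t) (kap (γ t)))
      (fun t => dS (γ t) (dS (γ t) (kap (γ t)))) (fun t => dS (γ t) (vel (γ t)))
      (fun t => dS (γ t) (dS (γ t) (vel (γ t)))) := by
  have hk1 := h.sm_dS h.sm_kap
  have hk2 := h.sm_dS hk1
  have hV1 := h.sm_dS h.sm_vel
  have hV2 := h.sm_dS hV1
  have pvel : ∀ t, 0 < t → ∀ x, vel (γ t) (x + 1) = vel (γ t) x := by
    intro t ht x
    unfold vel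
    rw [h.p_dS ht (fun y => h.p_dS ht (fun z => h.p_kap ht z) y) x, h.p_kap ht x]
  exact
    { cv := h.sm_spd.ct
      ck := h.sm_kap.ct
      ck1 := hk1.ct
      ck2 := hk2.ct
      cV1 := hV1.ct
      cV2 := hV2.ct
      vpos := fun t ht x => h.spd_pos ht x
      pv := fun t ht x => h.p_spd ht x
      pk := fun t ht x => h.p_kap ht x
      pk1 := fun t ht x => h.p_dS ht (fun y => h.p_kap ht y) x
      pk2 := fun t ht x => h.p_dS ht (fun y => h.p_dS ht (fun z => h.p_kap ht z) y) x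
      pV1 := fun t ht x => h.p_dS ht (fun y => pvel t ht y) x
      dk := fun t ht x => by
        have := h.sm_kap.hx ht x
        rw [← geo2_mul_dS h ht] at this
        exact this
      dk1 := fun t ht x => by
        have := hk1.hx ht x
        rw [← geo2_mul_dS h ht] at this
        exact this
      dV := fun t ht x => by
        have := h.sm_vel.hx ht x
        rw [← geo2_mul_dS h ht] at this
        exact this
      dV1 := fun t ht x => by
        have := hV1.hx ht x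
        rw [← geo2_mul_dS h ht] at this
        exact this
      tv := fun t ht x => evol_v h ht x
      tk := fun t ht x => evol_k h ht x }

end Pool.Agent.Work.MP_207eeb_an
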