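import Pool.Agent.Work.MP_207eeb_an.Defs

/-!
# The sharp inequality `(1/2) ∫ p^4 ≤ ∫ p'^2 + (∫ p^2)^3 / 48`.  Size: S-M.

`p` is continuous, `1`-periodic, of mean zero, so it has a zero `z`.  Shift: it suffices to integrate over `[z, z+1]`
(`Function.Periodic.intervalIntegral_add_eq`); `p z = p (z+1) = 0`.  Let `a = ∫ p^2`, `F x = ∫_z^x p^2`, `F z = 0`, `F (z+1) = a`.
If `a = 0` then `p = 0` everywhere (continuous) and the claim is `0 ≤ ∫ p'^2`.  Let `a > 0` and `c = a / 4`,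
`w x = 2 F x / a - 1`, `w' = 2 p^2 / a`.  Then
`0 ≤ ∫ (p' + c p w)^2 = ∫ p'^2 + 2 c ∫ p p' w + c^2 ∫ p^2 w^2`.
* `2 ∫ p p' w = [p^2 w] - ∫ p^2 w' = - (2/a) ∫ p^4`.
* `∫ p^2 w^2 = (a/2) ∫ w' w^2 = (a/2) [w^3/3] = (a/6) (1 - (-1)) = a/3`.
So `0 ≤ ∫ p'^2 - (2c/a) ∫ p^4 + c^2 a/3 = ∫ p'^2 - (1/2) ∫ p^4 + a^3/48`.
(To avoid division one can use `a w = 2F - a`.)
-/

namespace Pool.Agent.Work.MP_207eeb_an

open Set intervalIntegral MeasureTheory

private lemma gn_per (f : ℝ → ℝ) (hf : ∀ x, f (x + 1) = f x) (z : ℝ) :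
    ∫ x in (0 : ℝ)..1, f x = ∫ x in z..(z + 1), f x := by
  have h := Function.Periodic.intervalIntegral_add_eq (f := f) (T := 1) hf 0 z
  simpa using h

theorem gn (p p1 : ℝ → ℝ) (hp : ∀ x, HasDerivAt p (p1 x) x) (hc : Continuous p1)
    (per : ∀ x, p (x + 1) = p x) (h0 : ∫ x in (0 : ℝ)..1, p x = 0) :
    -((∫ x in (0 : ℝ)..1, p x ^ 2) ^ 3 / 48) ≤
      (∫ x in (0 : ℝ)..1, p1 x ^ 2) - (1 / 2) * ∫ x in (0 : ℝ)..1, p x ^ 4 := by
  have cp : Continuous p := continuous_iff_continuousAt.2 fun x => (hp x).continuousAt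
  have per1 : ∀ x, p1 (x + 1) = p1 x := by
    intro x
    have h1 : HasDerivAt (fun y => p (y + 1)) (p1 (x + 1)) x := by
      simpa using (hp (x + 1)).comp_add_const x 1
    have h2 : (fun y => p (y + 1)) = p := funext per
    rw [h2] at h1
    exact h1.unique (hp x)
  -- a zero
  obtain ⟨z, hz⟩ : ∃ z, p z = 0 := by
    have hG : ∀ x, HasDerivAt (fun y => ∫ s in (0 : ℝ)..y, p s) (p x) x := fun x =>
      integral_hasDerivAt_right (cp.intervalIntegrable _ _)
        (cp.stronglyMeasurableAtFilter _ _) cp.continuousAt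
    obtain ⟨z, _, hz⟩ := exists_hasDerivAt_eq_zero (f := fun y => ∫ s in (0 : ℝ)..y, p s)
      (f' := p) (zero_lt_one) (fun x _ => (hG x).continuousAt.continuousWithinAt)
      (by simp [h0]) (fun x _ => hG x)
    exact ⟨z, hz⟩
  have hz1 : p (z + 1) = 0 := by rw [per, hz]
  rw [gn_per (fun x => p x ^ 2) (fun x => by simp only [per]) z,
    gn_per (fun x => p1 x ^ 2) (fun x => by simp only [per1]) z,
    gn_per (fun x => p x ^ 4) (fun x => by simp only [per]) z]
  set a : ℝ := ∫ x in z..(z + 1), p x ^ 2 with ha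
  -- `W = 2 F - a`
  set W : ℝ → ℝ := fun x => 2 * (∫ s in z..x, p s ^ 2) - a with hW
  have cp2 : Continuous fun x => p x ^ 2 := cp.pow 2
  have dW : ∀ x, HasDerivAt W (2 * p x ^ 2) x := by
    intro x
    have h1 : HasDerivAt (fun y => ∫ s in z..y, p s ^ 2) (p x ^ 2) x :=
      integral_hasDerivAt_right (cp2.intervalIntegrable _ _)
        (cp2.stronglyMeasurableAtFilter _ _) cp2.continuousAt
    exact (h1.const_mul 2).sub_const a
  have cW : Continuous W := continuous_iff_continuousAt.2 fun x => (dW x).continuousAt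
  have Wz : W z = -a := by simp [hW]
  have Wz1 : W (z + 1) = a := by simp only [hW, ← ha]; ring
  have hPhi : ∀ x, HasDerivAt (fun y => 4 * p y ^ 2 * W y + W y ^ 3 / 6)
      (8 * p x * p1 x * W x + 8 * p x ^ 4 + p x ^ 2 * W x ^ 2) x := by
    intro x
    have h1 := ((((hp x).fun_pow 2).const_mul 4).mul (dW x)).add (((dW x).fun_pow 3).div_const 6)
    refine h1.congr_deriv ?_
    simp only [Nat.cast_ofNat]
    ring
  have hint : ∫ x in z..(z + 1), (8 * p x * p1 x * W x + 8 * p x ^ 4 + p x ^ 2 * W x ^ 2) =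
      a ^ 3 / 3 := by
    rw [integral_eq_sub_of_hasDerivAt (fun x _ => hPhi x)
      (Continuous.intervalIntegrable (by fun_prop) _ _)]
    rw [Wz, Wz1, hz, hz1]
    ring
  have hint2 : ∫ x in z..(z + 1), (4 * p1 x + p x * W x) ^ 2 =
      16 * (∫ x in z..(z + 1), p1 x ^ 2) + a ^ 3 / 3 - 8 * ∫ x in z..(z + 1), p x ^ 4 := by
    rw [← hint, ← intervalIntegral.integral_const_mul, ← intervalIntegral.integral_const_mul,
      ← intervalIntegral.integral_add, ← intervalIntegral.integral_sub]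
    · apply intervalIntegral.integral_congr
      intro x _
      simp only
      ring
    all_goals exact Continuous.intervalIntegrable (by fun_prop) _ _
  have hnn : 0 ≤ ∫ x in z..(z + 1), (4 * p1 x + p x * W x) ^ 2 :=
    intervalIntegral.integral_nonneg (by linarith) fun x _ => sq_nonneg _
  rw [hint2] at hnn
  linarith

end Pool.Agent.Work.MP_207eeb_an
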