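import Pool.Agent.Work.MP_207eeb_an.Defs

/-!
# The length of every solution is `o(√t)`.  Size: S-M.

`W ≥ 0` (from `cs`, `E > 0`), so `E` is antitone on `(0, ∞)` and `E^2` has a limit `e ≥ 0` at infinity (bounded below, antitone).
`step`: for `0 < s ≤ t` and `λ > 0`: `L t - L s ≤ (t - s)/(4 λ) + λ (E s^2 - E t^2)`, because the derivative of
`L + λ E^2 - t/(4 λ)` is `P - 2 λ E W - 1/(4 λ) ≤ P - λ P^2 - 1/(4 λ) = -λ (P - 1/(2λ))^2 ≤ 0`.
`o_sqrt`: given `ε > 0` choose `s` with `E s^2 - e ≤ ε^2/16` (so `E s^2 - E t^2 ≤ ε^2/16` for `t ≥ s`); for `t > s` take `λ = √t/ε`: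
`L t ≤ L s + ε √t/4 + ε √t/16`, so `L t/√t < ε` for large `t`.  Also `L > 0`.
-/

namespace Pool.Agent.Work.MP_207eeb_an

open Set Filter Topology

variable {E L W P : ℝ → ℝ}

theorem W_nonneg (h : Ode E L W P) {t : ℝ} (ht : 0 < t) : 0 ≤ W t := by
  have h1 := h.cs t ht
  have h2 := h.Epos t ht
  by_contra h3
  rw [not_le] at h3
  nlinarith [sq_nonneg (P t), mul_pos h2 (neg_pos.2 h3)]

theorem step (h : Ode E L W P) {s t : ℝ} (hs : 0 < s) (hst : s ≤ t) (l : ℝ) (hl : 0 < l) :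
    L t - L s ≤ (t - s) / (4 * l) + l * (E s ^ 2 - E t ^ 2) := by
  have hanti : AntitoneOn (fun τ => L τ + l * E τ ^ 2 - τ / (4 * l)) (Ici s) := by
    have hd : ∀ τ, s ≤ τ → HasDerivAt (fun τ => L τ + l * E τ ^ 2 - τ / (4 * l))
        (P τ + l * (2 * E τ * -(W τ)) - 1 / (4 * l)) τ := by
      intro τ hτ
      have hp := hs.trans_le hτ
      have h1 : HasDerivAt (fun τ => E τ ^ 2) (2 * E τ * -(W τ)) τ := by
        refine ((h.dE τ hp).fun_pow 2).congr_deriv ?_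
        norm_num
      exact ((h.dL τ hp).add (h1.const_mul l)).sub ((hasDerivAt_id τ).div_const (4 * l))
    apply antitoneOn_of_deriv_nonpos (convex_Ici s)
    · intro τ hτ
      exact (hd τ hτ).continuousAt.continuousWithinAt
    · intro τ hτ
      rw [interior_Ici] at hτ
      exact (hd τ (le_of_lt hτ)).differentiableAt.differentiableWithinAt
    · intro τ hτ
      rw [interior_Ici] at hτ
      rw [(hd τ (le_of_lt hτ)).deriv]
      have hc := h.cs τ (hs.trans hτ)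
      have h1 : l * P τ ^ 2 ≤ l * (2 * E τ * W τ) := mul_le_mul_of_nonneg_left hc hl.le
      have h2 : l * (P τ - 1 / (2 * l)) ^ 2 = l * P τ ^ 2 - P τ + 1 / (4 * l) := by
        field_simp
        ring
      have h3 : 0 ≤ l * (P τ - 1 / (2 * l)) ^ 2 := by positivity
      nlinarith [h1, h2, h3]
  have h1 := hanti (mem_Ici.2 le_rfl) (mem_Ici.2 hst) hst
  simp only at h1
  have h2 : (t - s) / (4 * l) = t / (4 * l) - s / (4 * l) := by ring
  rw [h2]
  nlinarith [h1]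

theorem o_sqrt (h : Ode E L W P) : Tendsto (fun t => L t / Real.sqrt t) atTop (𝓝 0) := by
  rw [Metric.tendsto_atTop]
  intro ε hε
  obtain ⟨S, hS⟩ : ∃ S : Set ℝ, S = (fun t => E t ^ 2) '' Ici 1 := ⟨_, rfl⟩
  have hSn : S.Nonempty := by
    rw [hS]
    exact ⟨_, mem_image_of_mem _ (mem_Ici.2 le_rfl)⟩
  have hSb : BddBelow S := by
    refine ⟨0, ?_⟩
    rintro _ hx
    rw [hS] at hx
    obtain ⟨t, _, rfl⟩ := hx
    exact sq_nonneg _
  obtain ⟨a, ha, hlt⟩ := exists_lt_of_csInf_lt hSn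
    (show sInf S < sInf S + ε ^ 2 / 16 by linarith [pow_pos hε 2])
  rw [hS] at ha
  obtain ⟨s, hs1, rfl⟩ := ha
  have hs0 : 0 < s := lt_of_lt_of_le one_pos hs1
  have hEs : ∀ t, s ≤ t → E s ^ 2 - E t ^ 2 ≤ ε ^ 2 / 16 := by
    intro t ht
    have h1 : sInf S ≤ E t ^ 2 := by
      apply csInf_le hSb
      rw [hS]
      exact ⟨t, le_trans hs1 ht, rfl⟩
    simp only at hlt
    linarith
  refine ⟨max s ((2 * L s / ε) ^ 2 + 1), fun t ht => ?_⟩
  have hst : s ≤ t := (le_max_left _ _).trans ht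
  have htp : 0 < t := hs0.trans_le hst
  have hr := Real.sqrt_pos.2 htp
  have hLs := h.Lpos s hs0
  have hLt := h.Lpos t htp
  have h1 : 2 * L s / ε < Real.sqrt t := by
    apply Real.lt_sqrt_of_sq_lt
    have := (le_max_right s ((2 * L s / ε) ^ 2 + 1)).trans ht
    linarith
  rw [div_lt_iff₀ hε] at h1
  rw [Real.dist_eq, sub_zero, abs_of_pos (div_pos hLt hr), div_lt_iff₀ hr]
  have h2 := step h hs0 hst (Real.sqrt t / ε) (div_pos hr hε)
  have h3 := hEs t hst
  have h4 : (t - s) / (4 * (Real.sqrt t / ε)) ≤ ε * Real.sqrt t / 4 := by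
    rw [div_le_iff₀ (by positivity)]
    have h5 : ε * Real.sqrt t / 4 * (4 * (Real.sqrt t / ε)) = Real.sqrt t * Real.sqrt t := by
      field_simp
    rw [h5, Real.mul_self_sqrt htp.le]
    linarith
  have h6 : Real.sqrt t / ε * (E s ^ 2 - E t ^ 2) ≤ ε * Real.sqrt t / 16 := by
    have h7 : Real.sqrt t / ε * (E s ^ 2 - E t ^ 2) ≤ Real.sqrt t / ε * (ε ^ 2 / 16) :=
      mul_le_mul_of_nonneg_left h3 (by positivity)
    have h8 : Real.sqrt t / ε * (ε ^ 2 / 16) = ε * Real.sqrt t / 16 := by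
      field_simp
    linarith
  nlinarith [mul_pos hε hr]

end Pool.Agent.Work.MP_207eeb_an
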