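import Pool.Agent.Work.MP_207eeb_an.Defs

/-!
# Bound for the length when `E L` is non-increasing.  Size: S-M.

Write `I = E L`, `D = W L - E P ≥ 0` (so `I' = E P - W L = -D`).
`key`: let `X = L^3 P`, `A = 8 I L^4/(μ t)`, `B = μ t D`, so `A B / 4 = 2 I L^4 D`.  `X^2 = L^6 P^2 ≤ 2 E W L^6 = 2 E L^5 (E P + D) = 2 I^2 X + 2 I L^4 D`.
If `X ≤ 2 I^2` the claim `4 X ≤ 8 I^2 + A + B` is clear.  Otherwise `(X - 2 I^2)^2 ≤ X (X - 2 I^2) ≤ A B/4 ≤ ((A + B)/4)^2`, so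
`X - 2 I^2 ≤ (A + B)/4`.
`lb`: `I ≤ I0 := I t0` on `[t0, ∞)` (antitone).  Let `μ = 16 I0`, `F = L^4 + μ t I`.  `F' = 4 L^3 P + μ I - μ t D ≤ 8 I^2 + 8 I L^4/(μ t) + μ I
≤ 24 I0^2 + F/(2 t)`.  So `G = F/√t - 48 I0^2 √t` has `G' ≤ 0` on `[t0, ∞)`, hence `F ≤ √t (G t0 + 48 I0^2 √t) ≤ C t`
for `t ≥ t0` (with `C = |G t0|/√t0 + 48 I0^2 + 1`), and `L^4 ≤ F`.
-/

namespace Pool.Agent.Work.MP_207eeb_an

open Set

variable {E L W P : ℝ → ℝ}

private theorem anti {f f' : ℝ → ℝ} {t0 : ℝ} (hd : ∀ t, t0 ≤ t → HasDerivAt f (f' t) t)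
    (hn : ∀ t, t0 ≤ t → f' t ≤ 0) : AntitoneOn f (Ici t0) := by
  apply antitoneOn_of_deriv_nonpos (convex_Ici t0)
  · intro t ht
    exact (hd t ht).continuousAt.continuousWithinAt
  · intro t ht
    rw [interior_Ici] at ht
    exact (hd t (le_of_lt ht)).differentiableAt.differentiableWithinAt
  · intro t ht
    rw [interior_Ici] at ht
    rw [(hd t (le_of_lt ht)).deriv]
    exact hn t (le_of_lt ht)

theorem dI (h : Ode E L W P) {t : ℝ} (ht : 0 < t) :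
    HasDerivAt (fun s => E s * L s) (-(W t * L t - E t * P t)) t := by
  have h1 := (h.dE t ht).mul (h.dL t ht)
  have h2 : -(W t * L t - E t * P t) = -W t * L t + E t * P t := by ring
  rw [h2]
  exact h1

theorem key (h : Ode E L W P) {t : ℝ} (ht : 0 < t) (hD : 0 ≤ W t * L t - E t * P t) (μ : ℝ) (hμ : 0 < μ) :
    4 * L t ^ 3 * P t ≤ 8 * (E t * L t) ^ 2 + 8 * (E t * L t) * L t ^ 4 / (μ * t) +
      μ * t * (W t * L t - E t * P t) := by
  have he := h.Epos t ht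
  have hl := h.Lpos t ht
  have hc := h.cs t ht
  obtain ⟨e, rfl⟩ : ∃ e, e = E t := ⟨_, rfl⟩
  obtain ⟨D, hDd⟩ : ∃ D, D = W t * L t - E t * P t := ⟨_, rfl⟩
  obtain ⟨X, hX⟩ : ∃ X, X = L t ^ 3 * P t := ⟨_, rfl⟩
  obtain ⟨A, hA⟩ : ∃ A, A = 8 * (E t * L t) * L t ^ 4 / (μ * t) := ⟨_, rfl⟩
  obtain ⟨B, hB⟩ : ∃ B, B = μ * t * D := ⟨_, rfl⟩
  rw [← hDd] at hD ⊢
  rw [← hA, ← hB, mul_assoc 4, ← hX]
  have hA0 : 0 ≤ A := by rw [hA]; positivity
  have hB0 : 0 ≤ B := by rw [hB]; positivity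
  have hAB : A * B = 8 * (E t * L t) * L t ^ 4 * D := by
    rw [hA, hB]
    field_simp
  have hX2 : X ^ 2 ≤ 2 * (E t * L t) ^ 2 * X + A * B / 4 := by
    have h1 : L t ^ 6 * P t ^ 2 ≤ L t ^ 6 * (2 * E t * W t) :=
      mul_le_mul_of_nonneg_left hc (by positivity)
    rw [hAB, hX, hDd]
    nlinarith [h1]
  have hI : 0 ≤ (E t * L t) ^ 2 := sq_nonneg _
  by_contra hcon
  rw [not_le] at hcon
  have hs : 0 ≤ (A + B) / 4 := by positivity
  have hY : (A + B) / 4 < X - 2 * (E t * L t) ^ 2 := by linarith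
  have h1 : (X - 2 * (E t * L t) ^ 2) * (X - 2 * (E t * L t) ^ 2) ≤
      X * (X - 2 * (E t * L t) ^ 2) :=
    mul_le_mul_of_nonneg_right (by linarith) (by linarith)
  have h2 : (A + B) / 4 * ((A + B) / 4) <
      (X - 2 * (E t * L t) ^ 2) * (X - 2 * (E t * L t) ^ 2) :=
    mul_self_lt_mul_self hs hY
  have h3 : A * B / 4 ≤ (A + B) / 4 * ((A + B) / 4) := by nlinarith [sq_nonneg (A - B)]
  nlinarith [h1, h2, h3, hX2]

theorem lb (h : Ode E L W P) (t0 : ℝ) (ht0 : 0 < t0) (hD : ∀ t, t0 ≤ t → 0 ≤ W t * L t - E t * P t) :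
    ∃ C : ℝ, 0 < C ∧ ∀ t, t0 ≤ t → L t ^ 4 ≤ C * t := by
  obtain ⟨I0, hI0⟩ : ∃ I0, I0 = E t0 * L t0 := ⟨_, rfl⟩
  have hI0p : 0 < I0 := by
    rw [hI0]
    exact mul_pos (h.Epos t0 ht0) (h.Lpos t0 ht0)
  have hanti : AntitoneOn (fun s => E s * L s) (Ici t0) := by
    apply anti (f' := fun t => -(W t * L t - E t * P t))
    · intro t ht
      exact dI h (ht0.trans_le ht)
    · intro t ht
      have := hD t ht
      linarith
  have hIle : ∀ t, t0 ≤ t → E t * L t ≤ I0 := by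
    intro t ht
    rw [hI0]
    exact hanti (mem_Ici.2 le_rfl) ht ht
  obtain ⟨F, hF⟩ : ∃ F : ℝ → ℝ, F = fun t => L t ^ 4 + 16 * I0 * t * (E t * L t) := ⟨_, rfl⟩
  have hdF : ∀ t, t0 ≤ t → HasDerivAt F (4 * L t ^ 3 * P t + (16 * I0 * (E t * L t) +
      16 * I0 * t * (-(W t * L t - E t * P t)))) t := by
    intro t ht
    have htp := ht0.trans_le ht
    rw [hF]
    have h1 : HasDerivAt (fun t => L t ^ 4) (4 * L t ^ 3 * P t) t := by
      refine ((h.dL t htp).fun_pow 4).congr_deriv ?_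
      norm_num
    have h2 : HasDerivAt (fun t => 16 * I0 * t) (16 * I0) t := by
      have := (hasDerivAt_id t).const_mul (16 * I0)
      simpa using this
    exact h1.add (h2.mul (dI h htp))
  have hFb : ∀ t, t0 ≤ t → 4 * L t ^ 3 * P t + (16 * I0 * (E t * L t) +
      16 * I0 * t * (-(W t * L t - E t * P t))) ≤ 24 * I0 ^ 2 + F t / (2 * t) := by
    intro t ht
    have htp := ht0.trans_le ht
    have hk := key h htp (hD t ht) (16 * I0) (by positivity)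
    have hIp : 0 < E t * L t := mul_pos (h.Epos t htp) (h.Lpos t htp)
    have hi := hIle t ht
    have hl := h.Lpos t htp
    have h1 : 8 * (E t * L t) * L t ^ 4 / (16 * I0 * t) ≤ L t ^ 4 / (2 * t) := by
      rw [div_le_div_iff₀ (by positivity) (by positivity)]
      have h2 : (E t * L t) * (L t ^ 4 * t) ≤ I0 * (L t ^ 4 * t) :=
        mul_le_mul_of_nonneg_right hi (by positivity)
      nlinarith [h2]
    have h3 : L t ^ 4 / (2 * t) ≤ F t / (2 * t) := by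
      rw [hF]
      apply div_le_div_of_nonneg_right _ (by positivity)
      have : 0 ≤ 16 * I0 * t * (E t * L t) := by positivity
      linarith
    have h4 : (E t * L t) ^ 2 ≤ I0 ^ 2 := pow_le_pow_left₀ hIp.le hi 2
    have h5 : 16 * I0 * (E t * L t) ≤ 16 * I0 ^ 2 := by nlinarith
    linarith
  obtain ⟨G, hG⟩ : ∃ G : ℝ → ℝ, G = fun t => F t / Real.sqrt t - 48 * I0 ^ 2 * Real.sqrt t :=
    ⟨_, rfl⟩
  have hGanti : AntitoneOn G (Ici t0) := by
    apply anti (f' := fun t => ((4 * L t ^ 3 * P t + (16 * I0 * (E t * L t) +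
      16 * I0 * t * (-(W t * L t - E t * P t)))) * Real.sqrt t - F t * (1 / (2 * Real.sqrt t))) /
      Real.sqrt t ^ 2 - 48 * I0 ^ 2 * (1 / (2 * Real.sqrt t)))
    · intro t ht
      have htp := ht0.trans_le ht
      have hs := Real.sqrt_pos.2 htp
      rw [hG]
      exact ((hdF t ht).div (Real.hasDerivAt_sqrt htp.ne') hs.ne').sub
        ((Real.hasDerivAt_sqrt htp.ne').const_mul _)
    · intro t ht
      have htp := ht0.trans_le ht
      have hs := Real.sqrt_pos.2 htp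
      have hb := hFb t ht
      obtain ⟨r, hr⟩ : ∃ r, r = Real.sqrt t := ⟨_, rfl⟩
      have hrt : t = r ^ 2 := by rw [hr, Real.sq_sqrt htp.le]
      obtain ⟨Z, hZ⟩ : ∃ Z, Z = 4 * L t ^ 3 * P t + (16 * I0 * (E t * L t) +
        16 * I0 * t * (-(W t * L t - E t * P t))) := ⟨_, rfl⟩
      rw [← hZ] at hb
      rw [← hZ, ← hr]
      rw [← hr] at hs
      have h1 : (Z * r - F t * (1 / (2 * r))) / r ^ 2 - 48 * I0 ^ 2 * (1 / (2 * r)) =
          (Z - (24 * I0 ^ 2 + F t / (2 * r ^ 2))) / r := by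
        field_simp
        ring
      rw [h1]
      apply div_nonpos_of_nonpos_of_nonneg _ hs.le
      rw [← hrt]
      linarith
  have hs0 := Real.sqrt_pos.2 ht0
  refine ⟨|G t0| / Real.sqrt t0 + 48 * I0 ^ 2 + 1, by positivity, ?_⟩
  intro t ht
  have htp := ht0.trans_le ht
  have hs := Real.sqrt_pos.2 htp
  have hss : Real.sqrt t0 ≤ Real.sqrt t := Real.sqrt_le_sqrt ht
  have hst : Real.sqrt t * Real.sqrt t = t := Real.mul_self_sqrt htp.le
  have h1 : G t ≤ G t0 := hGanti (mem_Ici.2 le_rfl) ht ht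
  have h2 : L t ^ 4 ≤ F t := by
    rw [hF]
    have : 0 ≤ 16 * I0 * t * (E t * L t) := by
      have := mul_pos (h.Epos t htp) (h.Lpos t htp)
      positivity
    simp only
    linarith
  have h3 : F t ≤ (G t0 + 48 * I0 ^ 2 * Real.sqrt t) * Real.sqrt t := by
    have h4 : G t = F t / Real.sqrt t - 48 * I0 ^ 2 * Real.sqrt t := by rw [hG]
    rw [← div_le_iff₀ hs]
    linarith
  have h5 : G t0 * Real.sqrt t ≤ |G t0| / Real.sqrt t0 * t := by
    have h6 : G t0 * Real.sqrt t ≤ |G t0| * Real.sqrt t :=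
      mul_le_mul_of_nonneg_right (le_abs_self _) hs.le
    have h7 : |G t0| * Real.sqrt t ≤ |G t0| / Real.sqrt t0 * t := by
      rw [div_mul_eq_mul_div, le_div_iff₀ hs0, mul_assoc]
      apply mul_le_mul_of_nonneg_left _ (abs_nonneg _)
      nlinarith
    linarith
  nlinarith [h2, h3, h5, hst]

end Pool.Agent.Work.MP_207eeb_an
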