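import Pool.Agent.Work.MP_207eeb_an.Defs

/-!
# A real inequality.  Size: S-M.

`ineqT`: write `b0 = (3/2) x - 5/4 + α/4` and
`f = x (1 + 5 α)/4 - α x^2/4 - 7/16 - (11/8) α + α^2/16`.  Claim: `(b0 - s)^2 - f ≥ 1/12` for all real `x`, `α ≥ 0`, `s ≤ s1 = 0.8225`.
Exact identity: `b0^2 - f = 2.25 x^2 - 4 x + 2 + (α/4) ((x-1)^2 + 2)`.
* If `b0 ≥ s1`: `(b0 - s)^2 ≥ (b0 - s1)^2` and `(b0 - s1)^2 - f = 2.25 x^2 - (4 + 3 s1) x + 2 + 2.5 s1 + s1^2 + (α/4) ((x-1)^2 + 2 - 2 s1)`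
  `≥ 2.25 x^2 - 6.4675 x + 4.73275 ≥ 4.73275 - 6.4675^2/9 > 0.085 > 1/12` (complete the square).
* If `b0 < s1`: `x < x1 := (s1 + 5/4)/1.5 - α/6 = 1.38166.. - α/6` and `f ≤ -1/12`: `f` is increasing in `x` for
  `x ≤ 2.5` (`∂f/∂x = (1 + 5α)/4 - α x/2 ≥ 1/4`), so `f x ≤ f x1`, and
  `f x1 = -0.0920.. - 0.166.. α - 0.0306.. α^2 - 0.0069.. α^3 < -1/12`.
  (Check: at `x = x1` expand; all coefficients negative.)
`ineqT2` is the homogeneous version: `x = -τ/(A a)`, `α = a/A^2`, `s = -S/(A^2 a)` for `A > 0`, `a > 0`: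
the left side of the claim is `A^4 a^2 ((b0 - s)^2 - f)`.  For `A < 0` replace `(A, τ)` by `(-A, -τ)`.  `a = 0`: both sides vanish
(the left side is `S^2 ≥ 0`).  The condition `s ≤ 0.8225`: if `S ≥ 0` then `s ≤ 0`; otherwise `S ≥ -a^3/48` and `a ≤ 2 π |A|`
give `s ≤ a^2/(48 A^2) ≤ π^2/12 < 0.8225` (`Real.pi_lt_d4`: `π < 3.1416`, `3.1416^2/12 = 0.82247..`).
-/

namespace Pool.Agent.Work.MP_207eeb_an

theorem ineqT (x α s : ℝ) (hα : 0 ≤ α) (hs : s ≤ 8225 / 10000) :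
    1 / 12 ≤ ((3 / 2) * x - 5 / 4 + α / 4 - s) ^ 2 -
      (x * (1 + 5 * α) / 4 - α * x ^ 2 / 4 - 7 / 16 - (11 / 8) * α + α ^ 2 / 16) := by
  by_cases hb : (8225 / 10000 : ℝ) ≤ (3 / 2) * x - 5 / 4 + α / 4
  · have h1 : ((3 / 2) * x - 5 / 4 + α / 4 - 8225 / 10000) ^ 2 ≤
        ((3 / 2) * x - 5 / 4 + α / 4 - s) ^ 2 :=
      pow_le_pow_left₀ (by linarith) (by linarith) 2
    have h2 : 0 ≤ α * ((x - 1) ^ 2 + (2 - 2 * (8225 / 10000))) :=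
      mul_nonneg hα (by nlinarith [sq_nonneg (x - 1)])
    nlinarith [sq_nonneg (x - 6.4675 / 4.5)]
  · have hb' : (3 / 2) * x - 5 / 4 + α / 4 < 8225 / 10000 := not_le.1 hb
    obtain ⟨y, hy⟩ : ∃ y : ℝ, y = (8225 / 10000 + 5 / 4) / (3 / 2) - α / 6 := ⟨_, rfl⟩
    have hxy : x ≤ y := by rw [hy]; linarith
    have hy2 : y ≤ 2 := by rw [hy]; linarith
    have h1 : 0 ≤ (y - x) * ((1 + 5 * α) / 4 - α * (x + y) / 4) := by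
      refine mul_nonneg (by linarith) ?_
      nlinarith [mul_nonneg hα (by linarith : (0 : ℝ) ≤ 4 - (x + y))]
    have h2 : y * (1 + 5 * α) / 4 - α * y ^ 2 / 4 - 7 / 16 - (11 / 8) * α + α ^ 2 / 16 ≤ -(1 / 12) := by
      rw [hy]
      nlinarith [mul_nonneg hα hα, mul_nonneg (mul_nonneg hα hα) hα]
    nlinarith [sq_nonneg ((3 / 2) * x - 5 / 4 + α / 4 - s)]

private theorem ineqT2_pos (A a τ S : ℝ) (hA : 0 < A) (ha : 0 ≤ a)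
    (h : 0 ≤ S ∨ (a ≤ 2 * Real.pi * A ∧ -(a ^ 3 / 48) ≤ S)) :
    (1 / 12) * A ^ 4 * a ^ 2 ≤
      ((A ^ 3 / 4 + (5 / 4) * A * a + τ / 2) ^ 2 - (A ^ 2 + a) ^ 3 / 16) * a +
        (S - (5 / 4) * A ^ 2 * a + a ^ 2 / 4 - (3 / 2) * A * τ) ^ 2 := by
  rcases ha.eq_or_lt with h0 | h0
  · subst h0
    have : (0 : ℝ) ≤ (S - (3 / 2) * A * τ) ^ 2 := sq_nonneg _
    nlinarith [this]
  have hs : -S / (A ^ 2 * a) ≤ 8225 / 10000 := by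
    have hden : 0 < A ^ 2 * a := by positivity
    rw [div_le_iff₀ hden]
    rcases h with h | ⟨h1, h2⟩
    · nlinarith
    · have h3 : a ≤ 6.2832 * A := by
        refine h1.trans ?_
        have := Real.pi_lt_d4
        nlinarith
      have h4 : a ^ 2 ≤ (6.2832 * A) ^ 2 := pow_le_pow_left₀ ha h3 2
      have h5 : a ^ 2 * a ≤ (6.2832 * A) ^ 2 * a := mul_le_mul_of_nonneg_right h4 ha
      have h6 : 0 ≤ A ^ 2 * a := hden.le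
      nlinarith
  have key := ineqT (-τ / (A * a)) (a / A ^ 2) (-S / (A ^ 2 * a)) (by positivity) hs
  have h7 := mul_le_mul_of_nonneg_left key (by positivity : (0 : ℝ) ≤ A ^ 4 * a ^ 2)
  have hA0 : A ≠ 0 := hA.ne'
  have ha0 : a ≠ 0 := h0.ne'
  have e : A ^ 4 * a ^ 2 * (((3 / 2) * (-τ / (A * a)) - 5 / 4 + (a / A ^ 2) / 4 - -S / (A ^ 2 * a)) ^ 2 -
      ((-τ / (A * a)) * (1 + 5 * (a / A ^ 2)) / 4 - (a / A ^ 2) * (-τ / (A * a)) ^ 2 / 4 - 7 / 16 -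
        (11 / 8) * (a / A ^ 2) + (a / A ^ 2) ^ 2 / 16)) =
      ((A ^ 3 / 4 + (5 / 4) * A * a + τ / 2) ^ 2 - (A ^ 2 + a) ^ 3 / 16) * a +
        (S - (5 / 4) * A ^ 2 * a + a ^ 2 / 4 - (3 / 2) * A * τ) ^ 2 := by
    field_simp
    ring
  rw [e] at h7
  linarith

theorem ineqT2 (A a τ S : ℝ) (hA : A ≠ 0) (ha : 0 ≤ a)
    (h : 0 ≤ S ∨ (a ≤ 2 * Real.pi * |A| ∧ -(a ^ 3 / 48) ≤ S)) :
    (1 / 12) * A ^ 4 * a ^ 2 ≤
      ((A ^ 3 / 4 + (5 / 4) * A * a + τ / 2) ^ 2 - (A ^ 2 + a) ^ 3 / 16) * a +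
        (S - (5 / 4) * A ^ 2 * a + a ^ 2 / 4 - (3 / 2) * A * τ) ^ 2 := by
  rcases lt_or_gt_of_ne hA with h0 | h0
  · have := ineqT2_pos (-A) a (-τ) S (by linarith) ha (by rwa [abs_of_neg h0] at h)
    refine le_trans (le_of_eq ?_) (this.trans (le_of_eq ?_))
    · ring
    · ring
  · exact ineqT2_pos A a τ S h0 ha (by rwa [abs_of_pos h0] at h)

end Pool.Agent.Work.MP_207eeb_an
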