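import Pool.Agent.Work.MP_207eeb_an.Sup
import Pool.Agent.Work.MP_207eeb_an.Gn
import Pool.Agent.Work.MP_207eeb_an.Qt

/-!
# The functional inequality for small oscillation.  Size: M.

`u` is `1`-periodic, `A = ∫ u`, `m = ∫ u^2`, `a = m - A^2`, `p = u - A`, so `∫ p = 0`, `∫ p^2 = a`, `τ = ∫ p^3`, `D = ∫ u1^2`,
`S = D - (1/2) ∫ p^4`.  Let `R = u2 + u^3/2 - (m/4) u`.
(1) `∫ R^2 - m^3/16 = qf u u1 u2`: expand `R = g - (m/4) u`, `g = u2 + u^3/2`: `∫ R^2 = ∫ g^2 - (m/2) ∫ u g + (m^2/16) m` and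
    `∫ u g = ∫ u u2 + (1/2) ∫ u^4 = - D + (1/2) ∫ u^4` (integration by parts, periodicity).  So `∫ R^2 - m^3/16 = ∫ g^2 -
    (m/2) ((1/2) ∫ u^4 - D) = qf` (`id_q`).
(2) `∫ R = (1/2) ∫ u^3 - (m/4) A` (`∫ u2 = 0` by periodicity of `u1`), and `∫ u^3 = A^3 + 3 A a + τ`, so
    `∫ R = A^3/4 + (5/4) A a + τ/2` (`id_1`).
(3) `∫ R p = ∫ u2 p + (1/2) ∫ u^3 p - (m/4) ∫ u p = - D + (1/2)(3 A^2 a + 3 A τ + ∫ p^4) - (1/4)(A^2 + a) a`
    `= -(S - (5/4) A^2 a + a^2/4 - (3/2) A τ)` (`id_p`).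
(4) Bessel, without division: `(∫ R)^2 a + (∫ R p)^2 ≤ a ∫ R^2` (`bessel`): for `a > 0` expand
    `0 ≤ ∫ (a R - a (∫ R) - (∫ R p) p)^2 = a (a ∫ R^2 - a (∫ R)^2 - (∫ R p)^2)`; for `a = 0`, `p = 0` a.e. and `∫ R p = 0`.
(5) So `a * qf ≥ ((∫ R)^2 - m^3/16) a + (∫ R p)^2 ≥ (1/12) A^4 a^2` by `ineqT2` (`m = A^2 + a`), divide by `a` if `a > 0`.
    If `a = 0` then `qf ≥ (∫ R)^2 - m^3/16 = (A^3/4 + τ/2)^2 - A^6/16` with `τ = 0`.
(6) The hypothesis of `ineqT2`: `-a^3/48 ≤ S` by `gn`; if `a ≤ 24` then `∫ p^4 ≤ (1/12) D a ≤ 2 D`, so `S ≥ 0`, by `p4_le`.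
-/

namespace Pool.Agent.Work.MP_207eeb_an

open Set intervalIntegral MeasureTheory

private theorem lin2 (c d : ℝ) (f g : ℝ → ℝ) (hf : Continuous f) (hg : Continuous g) :
    (∫ x in (0 : ℝ)..1, (c * f x + d * g x)) =
      c * (∫ x in (0 : ℝ)..1, f x) + d * ∫ x in (0 : ℝ)..1, g x := by
  rw [intervalIntegral.integral_add, intervalIntegral.integral_const_mul,
    intervalIntegral.integral_const_mul]
  · exact (hf.const_mul c).intervalIntegrable _ _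
  · exact (hg.const_mul d).intervalIntegrable _ _

private theorem lin3 (c d e : ℝ) (f g h : ℝ → ℝ) (hf : Continuous f) (hg : Continuous g)
    (hh : Continuous h) :
    (∫ x in (0 : ℝ)..1, (c * f x + d * g x + e * h x)) =
      c * (∫ x in (0 : ℝ)..1, f x) + d * (∫ x in (0 : ℝ)..1, g x) +
        e * ∫ x in (0 : ℝ)..1, h x := by
  rw [intervalIntegral.integral_add, lin2 c d f g hf hg, intervalIntegral.integral_const_mul]
  · exact ((hf.const_mul c).add (hg.const_mul d)).intervalIntegrable _ _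
  · exact (hh.const_mul e).intervalIntegrable _ _

private theorem lin4 (c d e k : ℝ) (f g h l : ℝ → ℝ) (hf : Continuous f) (hg : Continuous g)
    (hh : Continuous h) (hl : Continuous l) :
    (∫ x in (0 : ℝ)..1, (c * f x + d * g x + e * h x + k * l x)) =
      c * (∫ x in (0 : ℝ)..1, f x) + d * (∫ x in (0 : ℝ)..1, g x) +
        e * (∫ x in (0 : ℝ)..1, h x) + k * ∫ x in (0 : ℝ)..1, l x := by
  rw [intervalIntegral.integral_add, lin3 c d e f g h hf hg hh,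
    intervalIntegral.integral_const_mul]
  · exact (((hf.const_mul c).add (hg.const_mul d)).add (hh.const_mul e)).intervalIntegrable _ _
  · exact (hl.const_mul k).intervalIntegrable _ _

private theorem int_one : (∫ _x in (0 : ℝ)..1, (1 : ℝ)) = 1 := by
  rw [intervalIntegral.integral_const]; norm_num

private theorem quad (f p : ℝ → ℝ) (hf : Continuous f) (hp : Continuous p)
    (h0 : ∫ x in (0 : ℝ)..1, p x = 0) (t : ℝ) :
    0 ≤ (∫ x in (0 : ℝ)..1, p x ^ 2) * (t * t) + (-2 * ∫ x in (0 : ℝ)..1, f x * p x) * t +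
      ((∫ x in (0 : ℝ)..1, f x ^ 2) - (∫ x in (0 : ℝ)..1, f x) ^ 2) := by
  set F := ∫ x in (0 : ℝ)..1, f x with hF
  have h1 : 0 ≤ ∫ x in (0 : ℝ)..1, (f x - F - t * p x) ^ 2 :=
    intervalIntegral.integral_nonneg (by norm_num) (fun x _ => sq_nonneg _)
  have h2 : (∫ x in (0 : ℝ)..1, (f x - F - t * p x) ^ 2) =
      ∫ x in (0 : ℝ)..1, (1 * (1 * f x ^ 2 + (-2 * F) * f x + F ^ 2 * (1 : ℝ)) +
        (-2 * t) * (f x * p x) + (t ^ 2) * p x ^ 2 + (2 * F * t) * p x) := by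
    refine intervalIntegral.integral_congr (fun x _ => ?_)
    ring
  rw [h2, lin4 1 (-2 * t) (t ^ 2) (2 * F * t) (fun x => 1 * f x ^ 2 + (-2 * F) * f x + F ^ 2 * 1)
    (fun x => f x * p x) (fun x => p x ^ 2) p (by fun_prop) (by fun_prop) (by fun_prop) hp,
    lin3 1 (-2 * F) (F ^ 2) (fun x => f x ^ 2) f (fun _ => 1) (by fun_prop) hf continuous_const,
    int_one, h0, ← hF] at h1
  nlinarith [h1]

theorem bessel (f p : ℝ → ℝ) (hf : Continuous f) (hp : Continuous p) (h0 : ∫ x in (0 : ℝ)..1, p x = 0) :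
    (∫ x in (0 : ℝ)..1, f x) ^ 2 * (∫ x in (0 : ℝ)..1, p x ^ 2) + (∫ x in (0 : ℝ)..1, f x * p x) ^ 2 ≤
      (∫ x in (0 : ℝ)..1, p x ^ 2) * ∫ x in (0 : ℝ)..1, f x ^ 2 := by
  have h := discrim_le_zero (quad f p hf hp h0)
  unfold discrim at h
  nlinarith [h]

private theorem per_cont {u u1 u2 : ℝ → ℝ} (h : Per u u1 u2) : Continuous u :=
  continuous_iff_continuousAt.mpr fun y => (h.d1 y).continuousAt

private theorem per_cont1 {u u1 u2 : ℝ → ℝ} (h : Per u u1 u2) : Continuous u1 :=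
  continuous_iff_continuousAt.mpr fun y => (h.d2 y).continuousAt

private theorem per_per1 {u u1 u2 : ℝ → ℝ} (h : Per u u1 u2) (x : ℝ) : u1 (x + 1) = u1 x := by
  have h1 : HasDerivAt (fun z => u (z + 1)) (u1 (x + 1)) x := (h.d1 (x + 1)).comp_add_const x 1
  have h2 : (fun z => u (z + 1)) = u := funext h.per
  rw [h2] at h1
  exact h1.unique (h.d1 x)

private theorem int_u2 {u u1 u2 : ℝ → ℝ} (h : Per u u1 u2) : ∫ x in (0 : ℝ)..1, u2 x = 0 := by
  rw [intervalIntegral.integral_eq_sub_of_hasDerivAt (f := u1) (fun x _ => h.d2 x)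
    (h.c2.intervalIntegrable _ _)]
  have := per_per1 h 0
  rw [zero_add] at this
  linarith

private theorem int_u_u2 {u u1 u2 : ℝ → ℝ} (h : Per u u1 u2) :
    (∫ x in (0 : ℝ)..1, u x * u2 x) = -∫ x in (0 : ℝ)..1, u1 x ^ 2 := by
  have hu := per_cont h
  have hu1 := per_cont1 h
  have hu2 := h.c2
  have h1 : (∫ x in (0 : ℝ)..1, (u1 x * u1 x + u x * u2 x)) = u 1 * u1 1 - u 0 * u1 0 := by
    refine intervalIntegral.integral_eq_sub_of_hasDerivAt (f := fun x => u x * u1 x)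
      (fun x _ => (h.d1 x).mul (h.d2 x)) ?_
    apply Continuous.intervalIntegrable
    fun_prop
  have h2 := per_per1 h 0
  have h3 := h.per 0
  rw [zero_add] at h2 h3
  rw [h2, h3, sub_self, intervalIntegral.integral_add] at h1
  · have h4 : (∫ x in (0 : ℝ)..1, u1 x * u1 x) = ∫ x in (0 : ℝ)..1, u1 x ^ 2 :=
      intervalIntegral.integral_congr (fun x _ => by ring)
    rw [h4] at h1
    linarith
  · apply Continuous.intervalIntegrable; fun_prop
  · apply Continuous.intervalIntegrable; fun_prop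

theorem id_q {u u1 u2 : ℝ → ℝ} (h : Per u u1 u2) :
    (∫ x in (0 : ℝ)..1, (u2 x + u x ^ 3 / 2 - (∫ y in (0 : ℝ)..1, u y ^ 2) / 4 * u x) ^ 2) -
      (∫ y in (0 : ℝ)..1, u y ^ 2) ^ 3 / 16 = qf u u1 u2 := by
  have hu := per_cont h
  have hu1 := per_cont1 h
  have hu2 := h.c2
  set m := ∫ y in (0 : ℝ)..1, u y ^ 2 with hm
  have h2 : (∫ x in (0 : ℝ)..1, (u2 x + u x ^ 3 / 2 - m / 4 * u x) ^ 2) =
      ∫ x in (0 : ℝ)..1, (1 * (u2 x + u x ^ 3 / 2) ^ 2 + (-m / 2) * (u x * u2 x) +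
        (-m / 4) * u x ^ 4 + (m ^ 2 / 16) * u x ^ 2) := by
    refine intervalIntegral.integral_congr (fun x _ => ?_)
    ring
  rw [h2, lin4 1 (-m / 2) (-m / 4) (m ^ 2 / 16) (fun x => (u2 x + u x ^ 3 / 2) ^ 2)
    (fun x => u x * u2 x) (fun x => u x ^ 4) (fun x => u x ^ 2) (by fun_prop) (by fun_prop)
    (by fun_prop) (by fun_prop), int_u_u2 h, ← hm]
  unfold qf
  rw [← hm]
  ring

theorem q_small {u u1 u2 : ℝ → ℝ} (h : Per u u1 u2)
    (hA : ∫ x in (0 : ℝ)..1, u x ≠ 0)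
    (ha : (∫ x in (0 : ℝ)..1, u x ^ 2) - (∫ x in (0 : ℝ)..1, u x) ^ 2 ≤ 24 ∨
      (∫ x in (0 : ℝ)..1, u x ^ 2) - (∫ x in (0 : ℝ)..1, u x) ^ 2 ≤ 2 * Real.pi * |∫ x in (0 : ℝ)..1, u x|) :
    (1 / 12) * (∫ x in (0 : ℝ)..1, u x) ^ 4 *
      ((∫ x in (0 : ℝ)..1, u x ^ 2) - (∫ x in (0 : ℝ)..1, u x) ^ 2) ≤ qf u u1 u2 := by
  have hu := per_cont h
  have hu1 := per_cont1 h
  have hu2 := h.c2
  rw [← id_q h]
  set A := ∫ x in (0 : ℝ)..1, u x with hAd
  set m := ∫ y in (0 : ℝ)..1, u y ^ 2 with hm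
  set p : ℝ → ℝ := fun x => u x - A with hpd
  have hp : Continuous p := by rw [hpd]; fun_prop
  have hp1 : ∀ x, HasDerivAt p (u1 x) x := fun x => (h.d1 x).sub_const A
  have hpper : ∀ x, p (x + 1) = p x := fun x => by simp only [hpd, h.per x]
  have p0 : ∫ x in (0 : ℝ)..1, p x = 0 := by
    have : (∫ x in (0 : ℝ)..1, p x) = ∫ x in (0 : ℝ)..1, (1 * u x + (-A) * 1) :=
      intervalIntegral.integral_congr (fun x _ => by simp only [hpd]; ring)
    rw [this, lin2 1 (-A) u (fun _ => 1) hu continuous_const, int_one, ← hAd]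
    ring
  have p2 : (∫ x in (0 : ℝ)..1, p x ^ 2) = m - A ^ 2 := by
    have : (∫ x in (0 : ℝ)..1, p x ^ 2) =
        ∫ x in (0 : ℝ)..1, (1 * u x ^ 2 + (-2 * A) * u x + (A ^ 2) * 1) :=
      intervalIntegral.integral_congr (fun x _ => by simp only [hpd]; ring)
    rw [this, lin3 1 (-2 * A) (A ^ 2) (fun x => u x ^ 2) u (fun _ => 1) (by fun_prop) hu
      continuous_const, int_one, ← hAd, ← hm]
    ring
  set a := m - A ^ 2 with had
  have ham : m = A ^ 2 + a := by rw [had]; ring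
  have ha0 : 0 ≤ a := by
    rw [← p2]
    exact intervalIntegral.integral_nonneg (by norm_num) (fun x _ => sq_nonneg _)
  set τ := ∫ x in (0 : ℝ)..1, p x ^ 3 with hτ
  set D := ∫ x in (0 : ℝ)..1, u1 x ^ 2 with hD
  set P4 := ∫ x in (0 : ℝ)..1, p x ^ 4 with hP4
  have hR1 : (∫ x in (0 : ℝ)..1, (u2 x + u x ^ 3 / 2 - m / 4 * u x)) =
      A ^ 3 / 4 + (5 / 4) * A * a + τ / 2 := by
    have : (∫ x in (0 : ℝ)..1, (u2 x + u x ^ 3 / 2 - m / 4 * u x)) =
        ∫ x in (0 : ℝ)..1, (1 * (1 * u2 x + (1 / 2) * p x ^ 3 + (3 / 2 * A) * p x ^ 2) +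
          (3 / 2 * A ^ 2 - m / 4) * p x + (A ^ 3 / 2 - m / 4 * A) * 1) :=
      intervalIntegral.integral_congr (fun x _ => by simp only [hpd]; ring)
    rw [this, lin3 1 (3 / 2 * A ^ 2 - m / 4) (A ^ 3 / 2 - m / 4 * A)
      (fun x => 1 * u2 x + (1 / 2) * p x ^ 3 + (3 / 2 * A) * p x ^ 2) p (fun _ => 1)
      (by fun_prop) hp continuous_const,
      lin3 1 (1 / 2) (3 / 2 * A) u2 (fun x => p x ^ 3) (fun x => p x ^ 2) hu2 (by fun_prop)
      (by fun_prop), int_u2 h, ← hτ, p2, p0, int_one, ham]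
    ring
  have hRp : (∫ x in (0 : ℝ)..1, (u2 x + u x ^ 3 / 2 - m / 4 * u x) * p x) =
      -((D - P4 / 2) - (5 / 4) * A ^ 2 * a + a ^ 2 / 4 - (3 / 2) * A * τ) := by
    have : (∫ x in (0 : ℝ)..1, (u2 x + u x ^ 3 / 2 - m / 4 * u x) * p x) =
        ∫ x in (0 : ℝ)..1, (1 * (1 * (u x * u2 x) + (-A) * u2 x + (1 / 2) * p x ^ 4) +
          (3 / 2 * A) * p x ^ 3 + (3 / 2 * A ^ 2 - m / 4) * p x ^ 2 +
          (A ^ 3 / 2 - m / 4 * A) * p x) :=
      intervalIntegral.integral_congr (fun x _ => by simp only [hpd]; ring)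
    rw [this, lin4 1 (3 / 2 * A) (3 / 2 * A ^ 2 - m / 4) (A ^ 3 / 2 - m / 4 * A)
      (fun x => 1 * (u x * u2 x) + (-A) * u2 x + (1 / 2) * p x ^ 4) (fun x => p x ^ 3)
      (fun x => p x ^ 2) p (by fun_prop) (by fun_prop) (by fun_prop) hp,
      lin3 1 (-A) (1 / 2) (fun x => u x * u2 x) u2 (fun x => p x ^ 4) (by fun_prop) hu2
      (by fun_prop), int_u_u2 h, int_u2 h, ← hτ, p2, p0, ← hP4, ← hD, ham]
    ring
  have hRc : Continuous (fun x => u2 x + u x ^ 3 / 2 - m / 4 * u x) := by fun_prop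
  have hB := bessel (fun x => u2 x + u x ^ 3 / 2 - m / 4 * u x) p hRc hp p0
  rw [hR1, hRp, p2] at hB
  set Q := ∫ x in (0 : ℝ)..1, (u2 x + u x ^ 3 / 2 - m / 4 * u x) ^ 2 with hQ
  rcases ha0.lt_or_eq with hpos | hz
  · have hS : 0 ≤ D - P4 / 2 ∨ (a ≤ 2 * Real.pi * |A| ∧ -(a ^ 3 / 48) ≤ D - P4 / 2) := by
      rcases ha with h24 | hpi
      · left
        have h4 := p4_le p u1 hp1 hu1 hpper p0
        rw [p2, ← hP4, ← hD] at h4
        have hD0 : 0 ≤ D := by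
          rw [hD]
          exact intervalIntegral.integral_nonneg (by norm_num) (fun x _ => sq_nonneg _)
        have : D * a ≤ D * 24 := mul_le_mul_of_nonneg_left h24 hD0
        nlinarith [h4, this]
      · right
        refine ⟨hpi, ?_⟩
        have hg := gn p u1 hp1 hu1 hpper p0
        rw [p2, ← hP4, ← hD] at hg
        linarith
    have hT := ineqT2 A a τ (D - P4 / 2) hA ha0 hS
    have h1 : (1 / 12) * A ^ 4 * a ^ 2 ≤ a * (Q - m ^ 3 / 16) := by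
      rw [ham]
      nlinarith [hT, hB]
    have h2 : a * ((1 / 12) * A ^ 4 * a) ≤ a * (Q - m ^ 3 / 16) := by
      calc a * ((1 / 12) * A ^ 4 * a) = (1 / 12) * A ^ 4 * a ^ 2 := by ring
        _ ≤ _ := h1
    exact le_of_mul_le_mul_left h2 hpos
  · have hq := quad (fun x => u2 x + u x ^ 3 / 2 - m / 4 * u x) p hRc hp p0 0
    have hb2 := bessel (fun x => p x ^ 2) p (by fun_prop) hp p0
    have hp3 : (∫ x in (0 : ℝ)..1, p x ^ 2 * p x) = τ :=
      intervalIntegral.integral_congr (fun x _ => by ring)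
    rw [hp3, p2, ← hz] at hb2
    have hτ0 : τ = 0 := by
      have : τ ^ 2 ≤ 0 := by linarith
      exact pow_eq_zero_iff (two_ne_zero) |>.1 (le_antisymm this (sq_nonneg τ))
    rw [hR1, ← hQ, hτ0, ← hz] at hq
    rw [ham, ← hz]
    nlinarith [hq]

end Pool.Agent.Work.MP_207eeb_an
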