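import Pool.Agent.Work.MP_207eeb_an.Defs

/-!
# Lower bound for the dissipation of a closed curve in terms of the total absolute curvature.  Size: M.

`u` curvature, `T` unit tangent (`T' = i u T`, `|T| = 1`), normalised to length 1, closed: `∫ T = 0`.  `K = ∫ |u|`, `E0 = (1/2) ∫ u^2`, `g = u2 + u^3/2`.
Let `J = (u^2/2 + i u1) T`.  `J' = (u u1 + i u2) T + (u^2/2 + i u1) i u T = i g T`, so `|J'| = |g|`; `|J|^2 = u1^2 + u^4/4` is `1`-periodic,
and so are `u`, `u1`, `u2`, `g`.  `Re (J conj T) = u^2/2`.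
(0) `K ≥ 1`: `|T y - T 0| ≤ ∫_0^y |u| ≤ K` for `y ∈ [0,1]`, and `T 0 = ∫_0^1 (T 0 - T y) dy`.
(1) `E0 = Re ∫ (J - J 0) conj T ≤ ∫_0^1 |J - J 0| ≤ ∫_0^1 |g| ≤ (∫ g^2)^{1/2}` (`∫ conj T = 0`).
(2) Let `M = max |J|` (attained at `y0 ∈ [0,1]`), `M > 0` (else `u = 0`, `K = 0`), `r = M^{-1/2}`.  `u^2 ≤ 2 M`, `|u1| ≤ M`, so
    `E0 ≤ (1/2) (max |u|) K ≤ (1/2) (2 M)^{1/2} K`.
(3) If `|J| ≥ M/2` on `[b, b + 3 r]` then `∫_b^{b+3r} |u| ≥ 1/16`: there is `p ∈ [b, b + 5r/2]` with `|u p| ≥ M^{1/2}/2` (otherwise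
    `u^4/4 < M^2/64` there, `u1^2 > 15 M^2/64`, so `u1` has constant sign (IVT, continuous), `|u (b + 5r/2) - u b| ≥ (5r/2) (√15/8) M
    > M^{1/2}` (`(5/2)(√15/8) = 1.21`), but it is `≤ 2 · M^{1/2}/2`).  On `[p, p + r/4]`, `|u| ≥ M^{1/2}/2 - M r/4 = M^{1/2}/4`, so the integral is `≥ (r/4)(M^{1/2}/4) = 1/16`.
(4) Let `N = ⌊16 K⌋ + 1`, `16 K < N ≤ 16 K + 1 ≤ 17 K`.
    Case `3 r N ≤ 1`: some `y1 ∈ [y0, y0 + 3 r N]` has `|J y1| < M/2` (otherwise (3) on `N` consecutive intervals gives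
    `∫_{y0}^{y0 + 3 r N} |u| ≥ N/16 > K`, but the interval has length `≤ 1`, so the integral is `≤ K` by periodicity).  So
    `M/2 ≤ |J y0 - J y1| ≤ ∫_{y0}^{y0 + 3 r N} |g| ≤ (3 r N)^{1/2} (∫ g^2)^{1/2}`: `∫ g^2 ≥ M^2/(12 r N) = M^{5/2}/(12 N) ≥ M^{5/2}/(204 K)`.
    With (2), `M^{1/2} ≥ √2 E0/K`, `M^{5/2} ≥ 4 √2 (E0/K)^5 ≥ 5 (E0/K)^5`: `∫ g^2 K^6 ≥ (5/204) E0^5`.
    Case `3 r N > 1`: `M^{1/2} < 3 N ≤ 51 K`, so `E0 ≤ (√2/2) · 51 K^2 ≤ 36.1 K^2`, `E0^3 ≤ 47100 K^6`, and by (1)
    `∫ g^2 ≥ E0^2`, so `∫ g^2 K^6 ≥ E0^2 K^6 ≥ E0^5/47100`.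
-/

namespace Pool.Agent.Work.MP_207eeb_an

open Set intervalIntegral MeasureTheory

private theorem mono_int {f : ℝ → ℝ} (hf : Continuous f) (h0 : ∀ x, 0 ≤ f x) {a b c d : ℝ}
    (hca : c ≤ a) (hab : a ≤ b) (hbd : b ≤ d) :
    ∫ x in a..b, f x ≤ ∫ x in c..d, f x :=
  intervalIntegral.integral_mono_interval hca hab hbd (Filter.Eventually.of_forall h0)
    (hf.intervalIntegrable _ _)

private theorem cs_int {g : ℝ → ℝ} (hg : Continuous g) {a b : ℝ} (hab : a ≤ b) :
    (∫ x in a..b, |g x|) ^ 2 ≤ (b - a) * ∫ x in a..b, g x ^ 2 := by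
  rcases eq_or_lt_of_le hab with rfl | hlt
  · simp
  set I1 : ℝ := ∫ x in a..b, |g x| with hI1
  set I2 : ℝ := ∫ x in a..b, g x ^ 2 with hI2
  have hL : 0 < b - a := sub_pos.2 hlt
  set m : ℝ := I1 / (b - a) with hm
  have hmL : m * (b - a) = I1 := by rw [hm]; field_simp
  have h0 : 0 ≤ ∫ x in a..b, (|g x| - m) ^ 2 :=
    intervalIntegral.integral_nonneg hab (fun x _ => sq_nonneg _)
  have h1 : ∫ x in a..b, (|g x| - m) ^ 2 = I2 - 2 * m * I1 + m ^ 2 * (b - a) := by
    have e1 : ∀ x, (|g x| - m) ^ 2 = g x ^ 2 - 2 * m * |g x| + m ^ 2 := by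
      intro x
      have := sq_abs (g x)
      nlinarith
    have i1 : IntervalIntegrable (fun x => g x ^ 2) volume a b :=
      (hg.pow 2).intervalIntegrable _ _
    have i2 : IntervalIntegrable (fun x => 2 * m * |g x|) volume a b :=
      (continuous_const.mul hg.abs).intervalIntegrable _ _
    have i3 : IntervalIntegrable (fun _ : ℝ => m ^ 2) volume a b :=
      continuous_const.intervalIntegrable _ _
    rw [intervalIntegral.integral_congr (g := fun x => g x ^ 2 - 2 * m * |g x| + m ^ 2)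
      (fun x _ => e1 x)]
    rw [intervalIntegral.integral_add (i1.sub i2) i3, intervalIntegral.integral_sub i1 i2,
      intervalIntegral.integral_const_mul, intervalIntegral.integral_const, smul_eq_mul]
    ring
  rw [h1] at h0
  have h2 : (b - a) * (I2 - 2 * m * I1 + m ^ 2 * (b - a)) = (b - a) * I2 - I1 ^ 2 := by
    calc (b - a) * (I2 - 2 * m * I1 + m ^ 2 * (b - a))
        = (b - a) * I2 - 2 * (m * (b - a)) * I1 + (m * (b - a)) ^ 2 := by ring
      _ = (b - a) * I2 - I1 ^ 2 := by rw [hmL]; ring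
  have h3 := mul_nonneg hL.le h0
  rw [h2] at h3
  linarith

theorem K_ge_one {u : ℝ → ℝ} (hu : Continuous u) (T : ℝ → ℂ)
    (hT : ∀ x, HasDerivAt T (Complex.I * (u x : ℂ) * T x) x) (hn : ∀ x, ‖T x‖ = 1)
    (h0 : ∫ x in (0 : ℝ)..1, T x = 0) : 1 ≤ ∫ x in (0 : ℝ)..1, |u x| := by
  have hTc : Continuous T := continuous_iff_continuousAt.2 fun x => (hT x).continuousAt
  have hdc : Continuous fun x => Complex.I * (u x : ℂ) * T x :=
    (continuous_const.mul (Complex.continuous_ofReal.comp hu)).mul hTc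
  have hnd : ∀ x, ‖Complex.I * (u x : ℂ) * T x‖ = |u x| := by
    intro x
    rw [norm_mul, norm_mul, hn, Complex.norm_I, Complex.norm_real, Real.norm_eq_abs]
    ring
  have hK : ∀ y ∈ Icc (0 : ℝ) 1, ‖T 0 - T y‖ ≤ ∫ x in (0 : ℝ)..1, |u x| := by
    intro y hy
    have e1 : T y - T 0 = ∫ x in (0 : ℝ)..y, Complex.I * (u x : ℂ) * T x :=
      (intervalIntegral.integral_eq_sub_of_hasDerivAt (fun x _ => hT x)
        (hdc.intervalIntegrable _ _)).symm
    rw [norm_sub_rev, e1]
    calc ‖∫ x in (0 : ℝ)..y, Complex.I * (u x : ℂ) * T x‖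
        ≤ ∫ x in (0 : ℝ)..y, ‖Complex.I * (u x : ℂ) * T x‖ :=
          intervalIntegral.norm_integral_le_integral_norm hy.1
      _ = ∫ x in (0 : ℝ)..y, |u x| := intervalIntegral.integral_congr (fun x _ => hnd x)
      _ ≤ ∫ x in (0 : ℝ)..1, |u x| := mono_int hu.abs (fun x => abs_nonneg _) le_rfl hy.1 hy.2
  have e2 : ∫ y in (0 : ℝ)..1, (T 0 - T y) = T 0 := by
    rw [intervalIntegral.integral_sub (continuous_const.intervalIntegrable _ _)
      (hTc.intervalIntegrable _ _), h0, intervalIntegral.integral_const]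
    simp
  have e3 : ‖∫ y in (0 : ℝ)..1, (T 0 - T y)‖ ≤ (∫ x in (0 : ℝ)..1, |u x|) * |(1 : ℝ) - 0| := by
    apply intervalIntegral.norm_integral_le_of_norm_le_const
    intro y hy
    rw [uIoc_of_le zero_le_one] at hy
    exact hK y ⟨hy.1.le, hy.2⟩
  rw [e2, hn] at e3
  simpa using e3

theorem static_K {u u1 u2 : ℝ → ℝ} (h : Per u u1 u2) (T : ℝ → ℂ)
    (hT : ∀ x, HasDerivAt T (Complex.I * (u x : ℂ) * T x) x) (hn : ∀ x, ‖T x‖ = 1)
    (h0 : ∫ x in (0 : ℝ)..1, T x = 0) :
    (1 / 100000) * ((1 / 2) * ∫ x in (0 : ℝ)..1, u x ^ 2) ^ 5 ≤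
      (∫ x in (0 : ℝ)..1, (u2 x + u x ^ 3 / 2) ^ 2) * (∫ x in (0 : ℝ)..1, |u x|) ^ 6 := by
  have cu : Continuous u := continuous_iff_continuousAt.2 fun x => (h.d1 x).continuousAt
  have cu1 : Continuous u1 := continuous_iff_continuousAt.2 fun x => (h.d2 x).continuousAt
  have cu2 : Continuous u2 := h.c2
  have cT : Continuous T := continuous_iff_continuousAt.2 fun x => (hT x).continuousAt
  set g : ℝ → ℝ := fun x => u2 x + u x ^ 3 / 2 with hg
  have hgx : ∀ x, g x = u2 x + u x ^ 3 / 2 := fun x => rfl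
  have cg : Continuous g := cu2.add ((cu.pow 3).div_const 2)
  have pu1 : ∀ x, u1 (x + 1) = u1 x := by
    intro x
    have e1 := (h.d1 (x + 1)).comp_add_const x 1
    have e2 : (fun y => u (y + 1)) = u := funext h.per
    rw [e2] at e1
    exact e1.unique (h.d1 x)
  have pu2 : ∀ x, u2 (x + 1) = u2 x := by
    intro x
    have e1 := (h.d2 (x + 1)).comp_add_const x 1
    have e2 : (fun y => u1 (y + 1)) = u1 := funext pu1
    rw [e2] at e1
    exact e1.unique (h.d2 x)
  -- the constants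
  set K : ℝ := ∫ x in (0 : ℝ)..1, |u x| with hKdef
  have K1 : 1 ≤ K := K_ge_one cu T hT hn h0
  set G : ℝ := ∫ x in (0 : ℝ)..1, g x ^ 2 with hGdef
  set E : ℝ := (1 / 2) * ∫ x in (0 : ℝ)..1, u x ^ 2 with hEdef
  have hE0 : 0 ≤ E := by
    rw [hEdef]
    have : 0 ≤ ∫ x in (0 : ℝ)..1, u x ^ 2 :=
      intervalIntegral.integral_nonneg zero_le_one (fun x _ => sq_nonneg _)
    positivity
  suffices hfin : (1 / 100000) * E ^ 5 ≤ G * K ^ 6 from hfin
  -- the vector J
  set J : ℝ → ℂ := fun x => ((u x : ℂ) ^ 2 / 2 + Complex.I * (u1 x : ℂ)) * T x with hJ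
  have dJ : ∀ x, HasDerivAt J (Complex.I * (g x : ℂ) * T x) x := by
    intro x
    have e1 : HasDerivAt (fun x => (u x : ℂ)) (u1 x : ℂ) x := (h.d1 x).ofReal_comp
    have e2 : HasDerivAt (fun x => (u1 x : ℂ)) (u2 x : ℂ) x := (h.d2 x).ofReal_comp
    have e3 := (((e1.pow 2).div_const 2).add (e2.const_mul Complex.I)).mul (hT x)
    refine HasDerivAt.congr_deriv (f := J) e3 ?_
    rw [hgx]
    simp only [Pi.add_apply, Pi.pow_apply]
    push_cast
    linear_combination ((u x : ℂ) * (u1 x : ℂ) * T x) * Complex.I_sq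
  have cJ : Continuous J := continuous_iff_continuousAt.2 fun x => (dJ x).continuousAt
  have cdJ : Continuous fun x => Complex.I * (g x : ℂ) * T x :=
    (continuous_const.mul (Complex.continuous_ofReal.comp cg)).mul cT
  have ndJ : ∀ x, ‖Complex.I * (g x : ℂ) * T x‖ = |g x| := by
    intro x
    rw [norm_mul, norm_mul, hn, Complex.norm_I, Complex.norm_real, Real.norm_eq_abs]
    ring
  have nJ : ∀ x, ‖J x‖ ^ 2 = u1 x ^ 2 + u x ^ 4 / 4 := by
    intro x
    have e1 : ((u x : ℂ) ^ 2 / 2 + Complex.I * (u1 x : ℂ)) =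
        ((u x ^ 2 / 2 : ℝ) : ℂ) + (u1 x : ℂ) * Complex.I := by
      push_cast
      ring
    rw [hJ]
    simp only
    rw [norm_mul, hn, mul_one, ← Complex.normSq_eq_norm_sq, e1, Complex.normSq_add_mul_I]
    ring
  have incJ : ∀ a b, a ≤ b → ‖J b - J a‖ ≤ ∫ x in a..b, |g x| := by
    intro a b hab
    have e1 : J b - J a = ∫ x in a..b, Complex.I * (g x : ℂ) * T x :=
      (intervalIntegral.integral_eq_sub_of_hasDerivAt (fun x _ => dJ x)
        (cdJ.intervalIntegrable _ _)).symm
    rw [e1]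
    calc ‖∫ x in a..b, Complex.I * (g x : ℂ) * T x‖
        ≤ ∫ x in a..b, ‖Complex.I * (g x : ℂ) * T x‖ :=
          intervalIntegral.norm_integral_le_integral_norm hab
      _ = ∫ x in a..b, |g x| := intervalIntegral.integral_congr (fun x _ => ndJ x)
  -- step 1
  have hEA : E ≤ ∫ x in (0 : ℝ)..1, |g x| := by
    have i1 : ∫ x in (0 : ℝ)..1, (starRingEnd ℂ) (T x) = 0 := by
      have := (Complex.conjCLE : ℂ →L[ℝ] ℂ).intervalIntegral_comp_comm
        (cT.intervalIntegrable (μ := volume) 0 1)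
      simp only [ContinuousLinearEquiv.coe_coe, Complex.conjCLE_apply] at this
      rw [this, h0, map_zero]
    have i2 : ∫ x in (0 : ℝ)..1, J x * (starRingEnd ℂ) (T x) = (E : ℂ) := by
      have e1 : ∀ x, J x * (starRingEnd ℂ) (T x) =
          ((u x ^ 2 : ℝ) : ℂ) * (1 / 2) + Complex.I * (u1 x : ℂ) := by
        intro x
        have e2 : T x * (starRingEnd ℂ) (T x) = 1 := by
          rw [Complex.mul_conj, Complex.normSq_eq_norm_sq, hn]
          simp
        rw [hJ]
        simp only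
        rw [mul_assoc, e2]
        push_cast
        ring
      have j1 : IntervalIntegrable (fun x => ((u x ^ 2 : ℝ) : ℂ) * (1 / 2)) volume 0 1 :=
        ((Complex.continuous_ofReal.comp (cu.pow 2)).mul continuous_const).intervalIntegrable _ _
      have j2 : IntervalIntegrable (fun x => Complex.I * (u1 x : ℂ)) volume 0 1 :=
        (continuous_const.mul (Complex.continuous_ofReal.comp cu1)).intervalIntegrable _ _
      have j3 : ∫ x in (0 : ℝ)..1, u1 x = 0 := by
        rw [intervalIntegral.integral_eq_sub_of_hasDerivAt (fun x _ => h.d1 x)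
          (cu1.intervalIntegrable _ _)]
        have := h.per 0
        rw [zero_add] at this
        rw [this, sub_self]
      rw [intervalIntegral.integral_congr (g := fun x => ((u x ^ 2 : ℝ) : ℂ) * (1 / 2) +
        Complex.I * (u1 x : ℂ)) (fun x _ => e1 x)]
      rw [intervalIntegral.integral_add j1 j2, intervalIntegral.integral_mul_const,
        intervalIntegral.integral_const_mul, intervalIntegral.integral_ofReal,
        intervalIntegral.integral_ofReal, j3, hEdef]
      push_cast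
      ring
    have i3 : ∫ x in (0 : ℝ)..1, (J x - J 0) * (starRingEnd ℂ) (T x) = (E : ℂ) := by
      have cc : Continuous fun x => (starRingEnd ℂ) (T x) := Complex.continuous_conj.comp cT
      have e1 : ∀ x, (J x - J 0) * (starRingEnd ℂ) (T x) =
          J x * (starRingEnd ℂ) (T x) - J 0 * (starRingEnd ℂ) (T x) := fun x => sub_mul _ _ _
      have k1 : IntervalIntegrable (fun x => J x * (starRingEnd ℂ) (T x)) volume 0 1 :=
        (cJ.mul cc).intervalIntegrable _ _
      have k2 : IntervalIntegrable (fun x => J 0 * (starRingEnd ℂ) (T x)) volume 0 1 :=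
        (continuous_const.mul cc).intervalIntegrable _ _
      rw [intervalIntegral.integral_congr (g := fun x => J x * (starRingEnd ℂ) (T x) -
        J 0 * (starRingEnd ℂ) (T x)) (fun x _ => e1 x)]
      rw [intervalIntegral.integral_sub k1 k2, i2, intervalIntegral.integral_const_mul, i1]
      simp
    have i4 : ‖∫ x in (0 : ℝ)..1, (J x - J 0) * (starRingEnd ℂ) (T x)‖ ≤
        (∫ x in (0 : ℝ)..1, |g x|) * |(1 : ℝ) - 0| := by
      apply intervalIntegral.norm_integral_le_of_norm_le_const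
      intro y hy
      rw [uIoc_of_le zero_le_one] at hy
      rw [norm_mul, Complex.norm_conj, hn, mul_one]
      exact (incJ 0 y hy.1.le).trans
        (mono_int cg.abs (fun x => abs_nonneg _) le_rfl hy.1.le hy.2)
    rw [i3, Complex.norm_real, Real.norm_eq_abs, abs_of_nonneg hE0] at i4
    simpa using i4
  have hEG : E ^ 2 ≤ G := by
    have e1 := cs_int cg (zero_le_one (α := ℝ))
    have e2 : E ^ 2 ≤ (∫ x in (0 : ℝ)..1, |g x|) ^ 2 := by gcongr
    have e3 : ((1 : ℝ) - 0) * ∫ x in (0 : ℝ)..1, g x ^ 2 = G := by rw [hGdef]; ring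
    rw [e3] at e1
    exact e2.trans e1
  -- periodicity
  have pJ : Function.Periodic (fun x => ‖J x‖) 1 := by
    intro x
    have e1 : ‖J (x + 1)‖ ^ 2 = ‖J x‖ ^ 2 := by
      rw [nJ, nJ, pu1, h.per]
    exact (sq_eq_sq₀ (norm_nonneg _) (norm_nonneg _)).1 e1
  have intK : ∀ a, ∫ x in a..a + 1, |u x| = K := by
    intro a
    have e1 : Function.Periodic (fun x => |u x|) 1 := fun x => by
      simp only [h.per]
    have e2 := e1.intervalIntegral_add_eq a 0
    rw [zero_add] at e2
    exact e2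
  have intG : ∀ a, ∫ x in a..a + 1, g x ^ 2 = G := by
    intro a
    have e1 : Function.Periodic (fun x => g x ^ 2) 1 := fun x => by
      show g (x + 1) ^ 2 = g x ^ 2
      rw [hgx, hgx, h.per, pu2]
    have e2 := e1.intervalIntegral_add_eq a 0
    rw [zero_add] at e2
    exact e2
  -- the maximum
  obtain ⟨y0, -, hy0⟩ := isCompact_Icc.exists_isMaxOn (nonempty_Icc.2 (zero_le_one (α := ℝ)))
    (cJ.norm.continuousOn (s := Icc (0 : ℝ) 1))
  set M : ℝ := ‖J y0‖ with hM
  have hmax : ∀ x, ‖J x‖ ≤ M := by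
    intro x
    obtain ⟨y, hy, hxy⟩ := pJ.exists_mem_Ico₀ one_pos x
    rw [hxy]
    exact hy0 ⟨hy.1, hy.2.le⟩
  have M0 : 0 < M := by
    rcases (norm_nonneg (J y0)).lt_or_eq with hlt | heq
    · exact hlt
    · exfalso
      have hu0 : ∀ x, u x = 0 := by
        intro x
        have e1 : ‖J x‖ = 0 := le_antisymm ((hmax x).trans heq.symm.le) (norm_nonneg _)
        have e2 := nJ x
        rw [e1] at e2
        have e3 : u x ^ 4 = 0 := by
          have := sq_nonneg (u1 x)
          have := sq_nonneg (u x ^ 2)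
          nlinarith
        exact pow_eq_zero_iff (by norm_num) |>.1 e3
      have e4 : K = 0 := by
        rw [hKdef]
        simp [hu0]
      linarith
  set s : ℝ := Real.sqrt M with hs
  have s0 : 0 < s := Real.sqrt_pos.2 M0
  have ss : s ^ 2 = M := Real.sq_sqrt M0.le
  have hJsq : ∀ x, ‖J x‖ ^ 2 ≤ M ^ 2 := fun x => by
    have := hmax x
    gcongr
  have hu2M : ∀ x, u x ^ 2 ≤ 2 * M := by
    intro x
    have e1 := hJsq x
    rw [nJ] at e1
    have e2 := sq_nonneg (u1 x)
    by_contra hc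
    push Not at hc
    nlinarith
  have hu1M : ∀ x, |u1 x| ≤ M := by
    intro x
    have e1 := hJsq x
    rw [nJ] at e1
    have e2 := sq_nonneg (u x ^ 2)
    have e3 : u1 x ^ 2 ≤ M ^ 2 := by nlinarith
    exact abs_le_of_sq_le_sq e3 M0.le
  -- step 2
  have hEs : 2 * E ^ 2 ≤ s ^ 2 * K ^ 2 := by
    set c : ℝ := Real.sqrt 2 * s with hc
    have c0 : 0 ≤ c := by positivity
    have cc : c ^ 2 = 2 * M := by
      rw [hc, mul_pow, Real.sq_sqrt (by norm_num), ss]
    have e1 : ∀ x, |u x| ≤ c := by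
      intro x
      apply abs_le_of_sq_le_sq _ c0
      rw [cc]
      exact hu2M x
    have k1 : IntervalIntegrable (fun x => u x ^ 2) volume 0 1 :=
      (cu.pow 2).intervalIntegrable _ _
    have k2 : IntervalIntegrable (fun x => c * |u x|) volume 0 1 :=
      (continuous_const.mul cu.abs).intervalIntegrable _ _
    have e2 : ∫ x in (0 : ℝ)..1, u x ^ 2 ≤ ∫ x in (0 : ℝ)..1, c * |u x| := by
      apply intervalIntegral.integral_mono_on zero_le_one k1 k2
      intro x _
      have e3 : u x ^ 2 = |u x| * |u x| := by rw [← sq, sq_abs]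
      rw [e3]
      exact mul_le_mul_of_nonneg_right (e1 x) (abs_nonneg _)
    rw [intervalIntegral.integral_const_mul] at e2
    have e4 : 2 * E ≤ c * K := by
      rw [hEdef]
      linarith
    have e5 : (2 * E) ^ 2 ≤ (c * K) ^ 2 := by gcongr
    rw [mul_pow c K, cc] at e5
    rw [ss]
    nlinarith
  set r : ℝ := 1 / s with hr
  have r0 : 0 < r := by rw [hr]; positivity
  have rs : r * s = 1 := by rw [hr]; field_simp
  have rM : M * r = s := by
    rw [← ss]
    calc s ^ 2 * r = s * (r * s) := by ring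
      _ = s := by rw [rs, mul_one]
  -- step 3
  have seg : ∀ b, (∀ x ∈ Icc b (b + 3 * r), M / 2 ≤ ‖J x‖) →
      1 / 16 ≤ ∫ x in b..b + 3 * r, |u x| := by
    intro b hb
    obtain ⟨q, hq, hq2⟩ : ∃ q ∈ Icc b (b + 5 / 2 * r), s / 2 ≤ |u q| := by
      by_contra hc
      push Not at hc
      have hlt : b < b + 5 / 2 * r := by linarith
      obtain ⟨c, hc1, hc2⟩ := exists_hasDerivAt_eq_slope u u1 hlt cu.continuousOn
        (fun x _ => h.d1 x)
      have f1 := hc b ⟨le_rfl, hlt.le⟩
      have f2 := hc (b + 5 / 2 * r) ⟨hlt.le, le_rfl⟩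
      have f3 := hc c ⟨hc1.1.le, hc1.2.le⟩
      have f4 : |u (b + 5 / 2 * r) - u b| < s := by
        have := abs_sub (u (b + 5 / 2 * r)) (u b)
        linarith
      have f5 : u1 c * (5 / 2 * r) = u (b + 5 / 2 * r) - u b := by
        rw [hc2]
        field_simp
        ring
      have f6 : |u1 c| * (5 / 2 * r) < s := by
        rw [← f5, abs_mul, abs_of_pos (by positivity : (0 : ℝ) < 5 / 2 * r)] at f4
        exact f4
      have f7 : |u1 c| < 2 / 5 * M := by
        have e1 : |u1 c| * (5 / 2 * r) * s < s * s := mul_lt_mul_of_pos_right f6 s0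
        have e2 : |u1 c| * (5 / 2 * r) * s = 5 / 2 * |u1 c| := by
          calc |u1 c| * (5 / 2 * r) * s = 5 / 2 * |u1 c| * (r * s) := by ring
            _ = 5 / 2 * |u1 c| := by rw [rs, mul_one]
        rw [e2, ← sq, ss] at e1
        linarith
      have f8 : u1 c ^ 2 < 4 / 25 * M ^ 2 := by
        have e1 : |u1 c| ^ 2 < (2 / 5 * M) ^ 2 := by gcongr
        rw [sq_abs] at e1
        nlinarith
      have f9 : u c ^ 2 < M / 4 := by
        have e1 : |u c| ^ 2 < (s / 2) ^ 2 := by gcongr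
        rw [sq_abs, div_pow, ss] at e1
        linarith
      have f10 : u c ^ 4 ≤ M ^ 2 / 16 := by
        have e1 : (u c ^ 2) ^ 2 ≤ (M / 4) ^ 2 := by
          have := f9.le
          gcongr
        nlinarith
      have f11 : M / 2 ≤ ‖J c‖ := hb c ⟨hc1.1.le, by linarith [hc1.2]⟩
      have f12 : (M / 2) ^ 2 ≤ ‖J c‖ ^ 2 := by gcongr
      rw [nJ] at f12
      have := pow_pos M0 2
      nlinarith
    have hlow : ∀ x ∈ Icc q (q + r / 4), s / 4 ≤ |u x| := by
      intro x hx
      have e1 : u x - u q = ∫ y in q..x, u1 y :=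
        (intervalIntegral.integral_eq_sub_of_hasDerivAt (fun x _ => h.d1 x)
          (cu1.intervalIntegrable _ _)).symm
      have e2 : ‖∫ y in q..x, u1 y‖ ≤ M * |x - q| := by
        apply intervalIntegral.norm_integral_le_of_norm_le_const
        intro y _
        exact hu1M y
      rw [← e1, Real.norm_eq_abs, abs_of_nonneg (sub_nonneg.2 hx.1)] at e2
      have e3 : M * (x - q) ≤ s / 4 := by
        have : M * (x - q) ≤ M * (r / 4) := by
          apply mul_le_mul_of_nonneg_left _ M0.le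
          linarith [hx.2]
        have e4 : M * (r / 4) = s / 4 := by rw [← rM]; ring
        linarith
      have e5 : |u q| ≤ |u x| + |u x - u q| := by
        have e6 : u q = u x - (u x - u q) := by ring
        calc |u q| = |u x - (u x - u q)| := by rw [← e6]
          _ ≤ |u x| + |u x - u q| := abs_sub _ _
      linarith
    have hqr : q ≤ q + r / 4 := by linarith
    calc (1 / 16 : ℝ) = ∫ _ in q..q + r / 4, s / 4 := by
          rw [intervalIntegral.integral_const, smul_eq_mul]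
          calc (1 / 16 : ℝ) = r * s / 16 := by rw [rs]
            _ = (q + r / 4 - q) * (s / 4) := by ring
      _ ≤ ∫ x in q..q + r / 4, |u x| :=
          intervalIntegral.integral_mono_on hqr (continuous_const.intervalIntegrable _ _)
            (cu.abs.intervalIntegrable _ _) hlow
      _ ≤ ∫ x in b..b + 3 * r, |u x| :=
          mono_int cu.abs (fun x => abs_nonneg _) hq.1 hqr (by linarith [hq.2])
  -- step 4
  set N : ℕ := ⌊16 * K⌋₊ + 1 with hN
  have N1 : 16 * K < (N : ℝ) := by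
    rw [hN]
    push_cast
    exact Nat.lt_floor_add_one _
  have N2 : (N : ℝ) ≤ 17 * K := by
    have e1 : ((⌊16 * K⌋₊ : ℕ) : ℝ) ≤ 16 * K := Nat.floor_le (by positivity)
    rw [hN]
    push_cast
    linarith
  have K0 : 0 < K := by linarith
  rcases le_or_gt (3 * r * N) 1 with hcase | hcase
  · -- first case
    obtain ⟨y1, hy1, hJy1⟩ : ∃ y1 ∈ Icc y0 (y0 + 3 * r * N), ‖J y1‖ < M / 2 := by
      by_contra hc
      push Not at hc
      have hind : ∀ n : ℕ, n ≤ N → (n : ℝ) / 16 ≤ ∫ x in y0..y0 + 3 * r * n, |u x| := by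
        intro n
        induction n with
        | zero =>
          intro _
          simp
        | succ n ih =>
          intro hn1
          have hnN : ((n : ℝ) + 1) ≤ N := by exact_mod_cast hn1
          have e1 := ih (Nat.le_of_succ_le hn1)
          have e2 := seg (y0 + 3 * r * n) (by
            intro x hx
            apply hc
            constructor
            · have : 0 ≤ 3 * r * n := by positivity
              linarith [hx.1]
            · have : 3 * r * ((n : ℝ) + 1) ≤ 3 * r * N := by gcongr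
              have := hx.2
              linarith)
          have e3 : y0 + 3 * r * n + 3 * r = y0 + 3 * r * ((n + 1 : ℕ) : ℝ) := by
            push_cast
            ring
          rw [e3] at e2
          rw [← intervalIntegral.integral_add_adjacent_intervals
            (cu.abs.intervalIntegrable y0 (y0 + 3 * r * n))
            (cu.abs.intervalIntegrable (y0 + 3 * r * n) (y0 + 3 * r * ((n + 1 : ℕ) : ℝ)))]
          push_cast
          push_cast at e2
          linarith
      have e1 := hind N le_rfl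
      have e2 : ∫ x in y0..y0 + 3 * r * N, |u x| ≤ ∫ x in y0..y0 + 1, |u x| := by
        apply mono_int cu.abs (fun x => abs_nonneg _) le_rfl
        · have : 0 ≤ 3 * r * N := by positivity
          linarith
        · linarith
      rw [intK] at e2
      linarith
    have e1 : M / 2 ≤ ∫ x in y0..y0 + 3 * r * N, |g x| := by
      have e2 := incJ y0 y1 hy1.1
      have e3 : ‖J y0‖ ≤ ‖J y1‖ + ‖J y1 - J y0‖ := by
        have := norm_sub_norm_le (J y0) (J y1)
        rw [norm_sub_rev] at this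
        linarith
      have e4 : ∫ x in y0..y1, |g x| ≤ ∫ x in y0..y0 + 3 * r * N, |g x| :=
        mono_int cg.abs (fun x => abs_nonneg _) le_rfl hy1.1 hy1.2
      rw [← hM] at e3
      linarith
    have hrN : 0 ≤ 3 * r * N := by positivity
    have e5 := cs_int cg (show y0 ≤ y0 + 3 * r * N by linarith)
    have e6 : ∫ x in y0..y0 + 3 * r * N, g x ^ 2 ≤ G := by
      rw [← intG y0]
      exact mono_int (cg.pow 2) (fun x => sq_nonneg _) le_rfl (by linarith) (by linarith)
    have e7 : (M / 2) ^ 2 ≤ 3 * r * N * G := by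
      calc (M / 2) ^ 2 ≤ (∫ x in y0..y0 + 3 * r * N, |g x|) ^ 2 := by gcongr
        _ ≤ (y0 + 3 * r * N - y0) * ∫ x in y0..y0 + 3 * r * N, g x ^ 2 := e5
        _ = 3 * r * N * ∫ x in y0..y0 + 3 * r * N, g x ^ 2 := by ring
        _ ≤ 3 * r * N * G := by gcongr
    have G0 : 0 ≤ G := (sq_nonneg E).trans hEG
    have e8 : s ^ 5 ≤ 204 * K * G := by
      have f1 : (M / 2) ^ 2 * s ≤ 3 * r * N * G * s := by gcongr
      have f2 : (M / 2) ^ 2 * s = s ^ 5 / 4 := by rw [← ss]; ring
      have f3 : 3 * r * N * G * s = 3 * N * G := by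
        calc 3 * r * N * G * s = 3 * N * G * (r * s) := by ring
          _ = 3 * N * G := by rw [rs, mul_one]
      rw [f2, f3] at f1
      have f4 : 3 * (N : ℝ) * G ≤ 3 * (17 * K) * G := by gcongr
      linarith
    have e9 : E ≤ s * K := by
      have f1 : E ^ 2 ≤ (s * K) ^ 2 := by
        rw [mul_pow s K]
        have := sq_nonneg E
        linarith
      exact le_of_sq_le_sq f1 (by positivity)
    have e10 : E ^ 5 ≤ (s * K) ^ 5 := by gcongr
    have e11 : (s * K) ^ 5 ≤ 204 * (G * K ^ 6) := by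
      calc (s * K) ^ 5 = s ^ 5 * K ^ 5 := by ring
        _ ≤ 204 * K * G * K ^ 5 := by gcongr
        _ = 204 * (G * K ^ 6) := by ring
    have e12 : 0 ≤ G * K ^ 6 := by positivity
    linarith
  · -- second case
    have e1 : s < 51 * K := by
      have f1 : 1 * s < 3 * r * N * s := mul_lt_mul_of_pos_right hcase s0
      have f2 : 3 * r * N * s = 3 * N := by
        calc 3 * r * N * s = 3 * N * (r * s) := by ring
          _ = 3 * N := by rw [rs, mul_one]
      rw [f2, one_mul] at f1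
      linarith
    have e2 : E ≤ 37 * K ^ 2 := by
      have f1 : s ^ 2 ≤ (51 * K) ^ 2 := by
        have := e1.le
        gcongr
      have f2 : s ^ 2 * K ^ 2 ≤ (51 * K) ^ 2 * K ^ 2 := by gcongr
      have f3 : E ^ 2 ≤ (37 * K ^ 2) ^ 2 := by
        have : 0 ≤ K ^ 4 := by positivity
        nlinarith
      exact le_of_sq_le_sq f3 (by positivity)
    have e3 : E ^ 3 ≤ (37 * K ^ 2) ^ 3 := by gcongr
    have e4 : E ^ 5 ≤ 50653 * (G * K ^ 6) := by
      calc E ^ 5 = E ^ 2 * E ^ 3 := by ring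
        _ ≤ G * (37 * K ^ 2) ^ 3 := by
          apply mul_le_mul hEG e3 (by positivity) ((sq_nonneg E).trans hEG)
        _ = 50653 * (G * K ^ 6) := by ring
    have e5 : 0 ≤ G * K ^ 6 := mul_nonneg ((sq_nonneg E).trans hEG) (by positivity)
    linarith

end Pool.Agent.Work.MP_207eeb_an
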