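import Pool.Agent.Work.MP_207eeb_an.Geo2
import Pool.Agent.Work.MP_207eeb_an.Ev
import Pool.Agent.Work.MP_207eeb_an.Cell
import Pool.Agent.Work.MP_207eeb_an.St

/-!
# The dissipation inequality for a solution of the flow.  Size: M.

`L = len (γ t)`, `φ` from `cell (spd (γ t))` with `n = 1`.  `u y = L k (φ y)`, `u1 y = L^2 k1 (φ y)`, `u2 y = L^3 k2 (φ y)` (`k = kap (γ t)`,
`k1 = dS k`, `k2 = dS k1`), `T y = tng (γ t) (φ y)`.  `Per u u1 u2` as in `Red.red`; `T' = (i k v tng)(φ) L/v(φ) = i u T`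
(`Flow.tng_deriv`), `|T| = 1`.  `L ∫_0^1 T = ∫_0^1 tng · spd = ∫_0^1 γ_x = γ 1 - γ 0 = 0` (`cell` for real and imaginary part).
`∫ u^2 = L ∫ k^2 v = 2 E L`, `∫ |u| = ∫ |k| v = tac`, `∫ (u2 + u^3/2)^2 = L^5 ∫ V^2 v = L^5 W`.
`static_K`: `10^{-5} (E L)^5 ≤ L^5 W K^6`, so `10^{-5} E^5 ≤ W K^6`.
`ener_pos`: if `E = 0` then `∫ k^2 v = 0`, so `k = 0` (continuous) and `∫ |u| = 0`, against `K_ge_one`.
`tac_ge_one`: `K_ge_one`.
-/

namespace Pool.Agent.Work.MP_207eeb_an

open Set intervalIntegral MeasureTheory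

private theorem slice {F : Type*} [TopologicalSpace F] {f : ℝ → ℝ → F} (hf : Ct f) {t : ℝ}
    (ht : 0 < t) : Continuous (f t) := by
  have h1 : ContinuousOn (f t) univ :=
    ContinuousOn.comp (t := Ioi 0 ×ˢ univ) (f := fun x : ℝ => (t, x)) hf
      (by fun_prop) (fun x _ => ⟨ht, mem_univ _⟩)
  exact continuousOn_univ.1 h1

private theorem setup {γ : ℝ → ℝ → ℂ} (h : Flow γ) {t : ℝ} (ht : 0 < t) :
    ∃ u u1 u2 : ℝ → ℝ, ∃ T : ℝ → ℂ, Per u u1 u2 ∧
      (∀ x, HasDerivAt T (Complex.I * (u x : ℂ) * T x) x) ∧ (∀ x, ‖T x‖ = 1) ∧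
      (∫ x in (0 : ℝ)..1, T x = 0) ∧
      (1 / 2) * (∫ x in (0 : ℝ)..1, u x ^ 2) = len (γ t) * ener (γ t) ∧
      (∫ x in (0 : ℝ)..1, |u x|) = tac (γ t) ∧
      (∫ x in (0 : ℝ)..1, (u2 x + u x ^ 3 / 2) ^ 2) =
        len (γ t) ^ 5 * (∫ x in (0 : ℝ)..1, vel (γ t) x ^ 2 * spd (γ t) x) ∧ 0 < len (γ t) := by
  have hs := flow_sys h
  have hL : 0 < len (γ t) := fL_pos hs ht
  set L := len (γ t) with hLdef
  have cv : Continuous (spd (γ t)) := slice hs.cv ht
  have ck : Continuous (kap (γ t)) := slice hs.ck ht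
  have ck2 : Continuous (dS (γ t) (dS (γ t) (kap (γ t)))) := slice hs.ck2 ht
  have cT : Continuous (tng (γ t)) :=
    continuous_iff_continuousAt.2 fun x => (h.tng_deriv ht x).continuousAt
  have hper : ∀ x, spd (γ t) (x + 1 / ((1 : ℕ) : ℝ)) = spd (γ t) x := fun x => by
    rw [Nat.cast_one, div_one]
    exact h.p_spd ht x
  obtain ⟨φ, hφ1, hφ2, hφ3⟩ := cell (spd (γ t)) cv (fun x => h.spd_pos ht x) 1 le_rfl hper
  have hφ1' : ∀ y, HasDerivAt φ (L / spd (γ t) (φ y)) y := fun y => by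
    have := hφ1 y
    rwa [Nat.cast_one, div_one] at this
  have hφ2' : ∀ y, φ (y + 1) = φ y + 1 := fun y => by
    rw [hφ2, Nat.cast_one, div_one]
  have hφ3' : ∀ G : ℝ → ℝ, Continuous G → (∀ x, G (x + 1) = G x) →
      L * (∫ y in (0 : ℝ)..1, G (φ y)) = ∫ x in (0 : ℝ)..1, G x * spd (γ t) x := by
    intro G hG hp
    apply hφ3 G hG
    intro x
    rw [Nat.cast_one, div_one]
    exact hp x
  have cφ : Continuous φ := continuous_iff_continuousAt.2 fun x => (hφ1 x).continuousAt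
  have hv0 : ∀ x, spd (γ t) x ≠ 0 := fun x => (h.spd_pos ht x).ne'
  refine ⟨fun y => L * kap (γ t) (φ y), fun y => L ^ 2 * dS (γ t) (kap (γ t)) (φ y),
    fun y => L ^ 3 * dS (γ t) (dS (γ t) (kap (γ t))) (φ y), fun y => tng (γ t) (φ y),
    ⟨?_, ?_, ?_, ?_⟩, ?_, ?_, ?_, ?_, ?_, ?_, hL⟩
  · intro y
    have h1 := ((hs.dk t ht (φ y)).comp y (hφ1' y)).const_mul L
    refine h1.congr_deriv ?_
    have := hv0 (φ y)
    field_simp
  · intro y
    have h1 := ((hs.dk1 t ht (φ y)).comp y (hφ1' y)).const_mul (L ^ 2)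
    refine h1.congr_deriv ?_
    have := hv0 (φ y)
    field_simp
  · exact continuous_const.mul (ck2.comp cφ)
  · intro y
    show L * kap (γ t) (φ (y + 1)) = L * kap (γ t) (φ y)
    rw [hφ2', h.p_kap ht]
  · intro y
    have h1 := (h.tng_deriv ht (φ y)).scomp y (hφ1' y)
    refine h1.congr_deriv ?_
    have hv := hv0 (φ y)
    have hv' : ((spd (γ t) (φ y) : ℝ) : ℂ) ≠ 0 := by exact_mod_cast hv
    rw [Complex.real_smul]
    push_cast
    field_simp
  · intro y
    exact h.norm_tng ht (φ y)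
  · have cc : Continuous fun y => tng (γ t) (φ y) := cT.comp cφ
    have hii : IntervalIntegrable (fun y => tng (γ t) (φ y)) volume 0 1 :=
      cc.intervalIntegrable _ _
    have hd : ∀ x, HasDerivAt (γ t) (tng (γ t) x * (spd (γ t) x : ℂ)) x := by
      intro x
      have h2 : HasDerivAt (γ t) (deriv (γ t) x) x := h.sm.hx ht x
      refine h2.congr_deriv ?_
      have hv' : ((spd (γ t) x : ℝ) : ℂ) ≠ 0 := by exact_mod_cast hv0 x
      rw [tng, div_mul_cancel₀ _ hv']
    have cd : Continuous fun x => tng (γ t) x * (spd (γ t) x : ℂ) :=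
      cT.mul (Complex.continuous_ofReal.comp cv)
    have h3 : ∫ x in (0 : ℝ)..1, tng (γ t) x * (spd (γ t) x : ℂ) = 0 := by
      rw [intervalIntegral.integral_eq_sub_of_hasDerivAt (fun x _ => hd x)
        (cd.intervalIntegrable _ _)]
      have := h.closed t ht 0
      rw [zero_add] at this
      rw [this, sub_self]
    have hre : ∫ y in (0 : ℝ)..1, (tng (γ t) (φ y)).re = 0 := by
      have h4 := hφ3' (fun x => (tng (γ t) x).re) (Complex.continuous_re.comp cT)
        (fun x => by rw [h.p_tng ht])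
      have h5 : ∫ x in (0 : ℝ)..1, (tng (γ t) x).re * spd (γ t) x = 0 := by
        have h6 := Complex.reCLM.intervalIntegral_comp_comm
          (cd.intervalIntegrable (μ := volume) 0 1)
        rw [h3, map_zero] at h6
        refine Eq.trans (intervalIntegral.integral_congr fun x _ => ?_) h6
        simp
      rw [h5] at h4
      exact (mul_eq_zero.1 h4).resolve_left hL.ne'
    have him : ∫ y in (0 : ℝ)..1, (tng (γ t) (φ y)).im = 0 := by
      have h4 := hφ3' (fun x => (tng (γ t) x).im) (Complex.continuous_im.comp cT)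
        (fun x => by rw [h.p_tng ht])
      have h5 : ∫ x in (0 : ℝ)..1, (tng (γ t) x).im * spd (γ t) x = 0 := by
        have h6 := Complex.imCLM.intervalIntegral_comp_comm
          (cd.intervalIntegrable (μ := volume) 0 1)
        rw [h3, map_zero] at h6
        refine Eq.trans (intervalIntegral.integral_congr fun x _ => ?_) h6
        simp
      rw [h5] at h4
      exact (mul_eq_zero.1 h4).resolve_left hL.ne'
    apply Complex.ext
    · have h7 := Complex.reCLM.intervalIntegral_comp_comm hii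
      have h8 : ∫ y in (0 : ℝ)..1, Complex.reCLM (tng (γ t) (φ y)) = 0 := hre
      rw [h8] at h7
      exact h7.symm
    · have h7 := Complex.imCLM.intervalIntegral_comp_comm hii
      have h8 : ∫ y in (0 : ℝ)..1, Complex.imCLM (tng (γ t) (φ y)) = 0 := him
      rw [h8] at h7
      exact h7.symm
  · have h4 := hφ3' (fun x => kap (γ t) x ^ 2) (ck.pow 2) (fun x => by rw [h.p_kap ht])
    have h5 : ∫ x in (0 : ℝ)..1, (L * kap (γ t) (φ x)) ^ 2 =
        L ^ 2 * ∫ x in (0 : ℝ)..1, kap (γ t) (φ x) ^ 2 := by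
      rw [← intervalIntegral.integral_const_mul]
      refine intervalIntegral.integral_congr fun x _ => ?_
      beta_reduce
      ring
    rw [h5, ener, ← h4]
    ring
  · have h4 := hφ3' (fun x => |kap (γ t) x|) ck.abs (fun x => by rw [h.p_kap ht])
    have h5 : ∫ x in (0 : ℝ)..1, |L * kap (γ t) (φ x)| =
        L * ∫ x in (0 : ℝ)..1, |kap (γ t) (φ x)| := by
      rw [← intervalIntegral.integral_const_mul]
      refine intervalIntegral.integral_congr fun x _ => ?_
      simp only [abs_mul, abs_of_pos hL]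
    rw [h5, tac, ← h4]
  · have h4 := hφ3' (fun x => vel (γ t) x ^ 2)
      (by
        have : Continuous (vel (γ t)) := by
          unfold vel
          exact (ck2.add ((ck.pow 3).div_const 2)).neg
        exact this.pow 2)
      (fun x => by
        have h6 : vel (γ t) (x + 1) = vel (γ t) x := by
          unfold vel
          rw [h.p_kap ht, h.p_dS ht (fun y => h.p_dS ht (fun z => h.p_kap ht z) y)]
        rw [h6])
    have h5 : ∫ x in (0 : ℝ)..1, (L ^ 3 * dS (γ t) (dS (γ t) (kap (γ t))) (φ x) +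
        (L * kap (γ t) (φ x)) ^ 3 / 2) ^ 2 = L ^ 6 * ∫ x in (0 : ℝ)..1, vel (γ t) (φ x) ^ 2 := by
      rw [← intervalIntegral.integral_const_mul]
      refine intervalIntegral.integral_congr fun x _ => ?_
      simp only [vel]
      ring
    rw [h5, ← h4]
    ring

theorem tac_ge_one {γ : ℝ → ℝ → ℂ} (h : Flow γ) {t : ℝ} (ht : 0 < t) : 1 ≤ tac (γ t) := by
  obtain ⟨u, u1, u2, T, hP, hT, hn, h0, -, h2, -, -⟩ := setup h ht
  have hu : Continuous u := continuous_iff_continuousAt.2 fun x => (hP.d1 x).continuousAt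
  rw [← h2]
  exact K_ge_one hu T hT hn h0

theorem ener_pos {γ : ℝ → ℝ → ℂ} (h : Flow γ) {t : ℝ} (ht : 0 < t) : 0 < ener (γ t) := by
  have hs := flow_sys h
  have cv : Continuous (spd (γ t)) := slice hs.cv ht
  have ck : Continuous (kap (γ t)) := slice hs.ck ht
  have h1 : 0 < ∫ x in (0 : ℝ)..1, kap (γ t) x ^ 2 * spd (γ t) x := by
    by_contra hcon
    have h3 : ∀ x ∈ Icc (0 : ℝ) 1, kap (γ t) x = 0 := by
      by_contra h4
      push Not at h4
      obtain ⟨x, hx, hx0⟩ := h4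
      apply hcon
      apply intervalIntegral.integral_pos zero_lt_one
        ((ck.pow 2).mul cv).continuousOn
      · intro y _
        exact mul_nonneg (sq_nonneg _) (h.spd_pos ht y).le
      · exact ⟨x, hx, mul_pos (lt_of_le_of_ne (sq_nonneg _) (Ne.symm (pow_ne_zero 2 hx0)))
          (h.spd_pos ht x)⟩
    have h5 : tac (γ t) = 0 := by
      unfold tac
      rw [intervalIntegral.integral_congr (g := fun _ => (0 : ℝ))]
      · simp
      · intro x hx
        rw [uIcc_of_le zero_le_one] at hx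
        simp [h3 x hx]
    have h6 := tac_ge_one h ht
    rw [h5] at h6
    linarith
  unfold ener
  linarith

theorem diss_tac {γ : ℝ → ℝ → ℂ} (h : Flow γ) {t : ℝ} (ht : 0 < t) :
    (1 / 100000) * ener (γ t) ^ 5 ≤
      (∫ x in (0 : ℝ)..1, vel (γ t) x ^ 2 * spd (γ t) x) * tac (γ t) ^ 6 := by
  obtain ⟨u, u1, u2, T, hP, hT, hn, h0, h1, h2, h3, hL⟩ := setup h ht
  have h4 := static_K hP T hT hn h0
  rw [h1, h2, h3, mul_pow] at h4
  have h5 : 0 < len (γ t) ^ 5 := by positivity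
  nlinarith [h4, h5]

end Pool.Agent.Work.MP_207eeb_an
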