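import Pool.Agent.Work.MP_207eeb_an.Defs

/-!
# Calculus for smooth functions on `(0, ∞) × ℝ`.  Size: S-M.

`Ω = Ioi 0 ×ˢ univ` is open, so `ContDiffOn ℝ ∞ f Ω` gives `ContDiffAt` (hence differentiability) at every point of `Ω`
(`IsOpen.mem_nhds`, `ContDiffOn.contDiffAt`).
* `dx`, `dt`: `deriv (f t) x = fderiv ℝ (uncurried f) (t, x) (0, 1)` on `Ω` (chain rule with `y ↦ (t, y)`), and
  `fderiv` of a smooth function is smooth (`ContDiffOn.fderiv_of_isOpen`), apply to the constant vector, then `ContDiffOn.congr`.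
  The same for `t` with the vector `(1, 0)`.
* `comm`: symmetry of the second derivative (`second_derivative_symmetric`, or `ContDiffAt.isSymmSndFDerivAt`):
  both sides are `fderiv ℝ (fderiv ℝ f) (t, x) (1, 0) (0, 1)` up to the order of the vectors.
-/

namespace Pool.Agent.Work.MP_207eeb_an

open scoped ContDiff
open Set

variable {F : Type*} [NormedAddCommGroup F] [NormedSpace ℝ F]

private theorem isOpenΩ : IsOpen (Ioi (0 : ℝ) ×ˢ (univ : Set ℝ)) := isOpen_Ioi.prod isOpen_univ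

private theorem memΩ {t : ℝ} (ht : 0 < t) (x : ℝ) : (t, x) ∈ Ioi (0 : ℝ) ×ˢ (univ : Set ℝ) :=
  ⟨ht, mem_univ x⟩

private theorem sm_at {f : ℝ → ℝ → F} (hf : Sm f) {t : ℝ} (ht : 0 < t) (x : ℝ) :
    ContDiffAt ℝ ∞ (fun p : ℝ × ℝ => f p.1 p.2) (t, x) :=
  ContDiffOn.contDiffAt hf (isOpenΩ.mem_nhds (memΩ ht x))

private theorem sm_diff {f : ℝ → ℝ → F} (hf : Sm f) {t : ℝ} (ht : 0 < t) (x : ℝ) :
    DifferentiableAt ℝ (fun p : ℝ × ℝ => f p.1 p.2) (t, x) :=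
  (sm_at hf ht x).differentiableAt (by simp)

private theorem sm_hx' {f : ℝ → ℝ → F} (hf : Sm f) {t : ℝ} (ht : 0 < t) (x : ℝ) :
    HasDerivAt (f t) (fderiv ℝ (fun p : ℝ × ℝ => f p.1 p.2) (t, x) (0, 1)) x := by
  have h1 : HasDerivAt (fun y : ℝ => (t, y)) ((0 : ℝ), (1 : ℝ)) x :=
    (hasDerivAt_const x t).prodMk (hasDerivAt_id x)
  exact (sm_diff hf ht x).hasFDerivAt.comp_hasDerivAt x h1

private theorem sm_ht' {f : ℝ → ℝ → F} (hf : Sm f) {t : ℝ} (ht : 0 < t) (x : ℝ) :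
    HasDerivAt (fun s => f s x) (fderiv ℝ (fun p : ℝ × ℝ => f p.1 p.2) (t, x) (1, 0)) t := by
  have h1 : HasDerivAt (fun y : ℝ => (y, x)) ((1 : ℝ), (0 : ℝ)) t :=
    (hasDerivAt_id t).prodMk (hasDerivAt_const t x)
  exact (sm_diff hf ht x).hasFDerivAt.comp_hasDerivAt t h1

private theorem sm_fd {f : ℝ → ℝ → F} (hf : Sm f) (v : ℝ × ℝ) :
    Sm (fun t x => fderiv ℝ (fun p : ℝ × ℝ => f p.1 p.2) (t, x) v) := by
  have h1 : ContDiffOn ℝ ∞ (fderiv ℝ (fun p : ℝ × ℝ => f p.1 p.2)) (Ioi (0 : ℝ) ×ˢ univ) :=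
    ContDiffOn.fderiv_of_isOpen hf isOpenΩ (by simp)
  exact ContDiffOn.clm_apply h1 contDiffOn_const

theorem Sm.hx {f : ℝ → ℝ → F} (hf : Sm f) {t : ℝ} (ht : 0 < t) (x : ℝ) :
    HasDerivAt (f t) (deriv (f t) x) x := by
  exact (sm_hx' hf ht x).differentiableAt.hasDerivAt

theorem Sm.ht {f : ℝ → ℝ → F} (hf : Sm f) {t : ℝ} (ht : 0 < t) (x : ℝ) :
    HasDerivAt (fun s => f s x) (deriv (fun s => f s x) t) t := by
  exact (sm_ht' hf ht x).differentiableAt.hasDerivAt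

theorem Sm.dx {f : ℝ → ℝ → F} (hf : Sm f) : Sm (fun t x => deriv (f t) x) := by
  refine ContDiffOn.congr (sm_fd hf (0, 1)) ?_
  rintro ⟨t, x⟩ ⟨ht, -⟩
  exact (sm_hx' hf ht x).deriv

theorem Sm.dt {f : ℝ → ℝ → F} (hf : Sm f) : Sm (fun t x => deriv (fun s => f s x) t) := by
  refine ContDiffOn.congr (sm_fd hf (1, 0)) ?_
  rintro ⟨t, x⟩ ⟨ht, -⟩
  exact (sm_ht' hf ht x).deriv

theorem Sm.comm {f : ℝ → ℝ → F} (hf : Sm f) {t : ℝ} (ht : 0 < t) (x : ℝ) :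
    deriv (fun s => deriv (f s) x) t = deriv (fun y => deriv (fun s => f s y) t) x := by
  set g : ℝ × ℝ → F := fun p => f p.1 p.2 with hg
  have hfd : DifferentiableAt ℝ (fderiv ℝ g) (t, x) := by
    have h1 : ContDiffOn ℝ ∞ (fderiv ℝ g) (Ioi (0 : ℝ) ×ˢ univ) :=
      ContDiffOn.fderiv_of_isOpen hf isOpenΩ (by simp)
    exact (h1.contDiffAt (isOpenΩ.mem_nhds (memΩ ht x))).differentiableAt (by simp)
  have hsym : fderiv ℝ (fderiv ℝ g) (t, x) (1, 0) (0, 1) =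
      fderiv ℝ (fderiv ℝ g) (t, x) (0, 1) (1, 0) := by
    have h2 : IsSymmSndFDerivAt ℝ g (t, x) :=
      (sm_at hf ht x).isSymmSndFDerivAt (by
        simp only [minSmoothness_of_isRCLikeNormedField]
        exact WithTop.coe_le_coe.mpr (le_top : (2 : ℕ∞) ≤ ⊤))
    exact h2 (1, 0) (0, 1)
  have key : ∀ v w : ℝ × ℝ, fderiv ℝ (fun p : ℝ × ℝ => fderiv ℝ g p v) (t, x) w =
      fderiv ℝ (fderiv ℝ g) (t, x) w v := by
    intro v w
    have h3 : HasFDerivAt (fun p : ℝ × ℝ => fderiv ℝ g p v)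
        ((fderiv ℝ (fderiv ℝ g) (t, x)).flip v) (t, x) := by
      have h4 := hfd.hasFDerivAt.clm_apply (hasFDerivAt_const v (t, x))
      have h5 : fderiv ℝ g (t, x) ∘L (0 : ℝ × ℝ →L[ℝ] ℝ × ℝ) +
          (fderiv ℝ (fderiv ℝ g) (t, x)).flip v = (fderiv ℝ (fderiv ℝ g) (t, x)).flip v := by
        rw [ContinuousLinearMap.comp_zero, zero_add]
      rw [← h5]
      exact h4
    rw [h3.fderiv]
    rfl
  have e1 : deriv (fun s => deriv (f s) x) t =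
      fderiv ℝ (fun p : ℝ × ℝ => fderiv ℝ g p (0, 1)) (t, x) (1, 0) := by
    have h5 := (sm_ht' (sm_fd hf (0, 1)) ht x).deriv
    rw [← h5]
    refine Filter.EventuallyEq.deriv_eq ?_
    filter_upwards [lt_mem_nhds ht] with s hs
    exact (sm_hx' hf hs x).deriv
  have e2 : deriv (fun y => deriv (fun s => f s y) t) x =
      fderiv ℝ (fun p : ℝ × ℝ => fderiv ℝ g p (1, 0)) (t, x) (0, 1) := by
    have h5 := (sm_hx' (sm_fd hf (1, 0)) ht x).deriv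
    rw [← h5]
    congr 1
    funext y
    exact (sm_ht' hf ht y).deriv
  rw [e1, e2, key, key, hsym]

theorem Sm.ct {f : ℝ → ℝ → F} (hf : Sm f) : Ct f := by
  exact ContDiffOn.continuousOn hf

/-- two functions which agree on the domain -/
theorem Sm.congr {f g : ℝ → ℝ → F} (hf : Sm f) (h : ∀ t, 0 < t → ∀ x, g t x = f t x) : Sm g := by
  refine ContDiffOn.congr hf ?_
  rintro ⟨t, x⟩ ⟨ht, -⟩
  exact h t ht x

/-- the derivatives in `x` of two functions which agree on the domain agree -/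
theorem deriv_x_congr {f g : ℝ → ℝ → F} (h : ∀ t, 0 < t → ∀ x, g t x = f t x) {t : ℝ} (ht : 0 < t)
    (x : ℝ) : deriv (g t) x = deriv (f t) x := by
  have : g t = f t := funext fun y => h t ht y
  rw [this]

/-- the derivatives in `t` of two functions which agree on the domain agree -/
theorem deriv_t_congr {f g : ℝ → ℝ → F} (h : ∀ t, 0 < t → ∀ x, g t x = f t x) {t : ℝ} (ht : 0 < t)
    (x : ℝ) : deriv (fun s => g s x) t = deriv (fun s => f s x) t := by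
  refine Filter.EventuallyEq.deriv_eq ?_
  filter_upwards [lt_mem_nhds ht] with s hs
  exact h s hs x

theorem Sm.add {f g : ℝ → ℝ → F} (hf : Sm f) (hg : Sm g) : Sm (fun t x => f t x + g t x) := by
  exact ContDiffOn.add hf hg

theorem Sm.neg {f : ℝ → ℝ → F} (hf : Sm f) : Sm (fun t x => -f t x) := by
  exact ContDiffOn.neg hf

theorem Sm.const (a : F) : Sm (fun _ _ => a) := by
  exact contDiffOn_const

theorem Sm.mulR {f g : ℝ → ℝ → ℝ} (hf : Sm f) (hg : Sm g) : Sm (fun t x => f t x * g t x) := by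
  exact ContDiffOn.mul hf hg

theorem Sm.mulC {f g : ℝ → ℝ → ℂ} (hf : Sm f) (hg : Sm g) : Sm (fun t x => f t x * g t x) := by
  exact ContDiffOn.mul hf hg

theorem Sm.divR {f g : ℝ → ℝ → ℝ} (hf : Sm f) (hg : Sm g) (h0 : ∀ t, 0 < t → ∀ x, g t x ≠ 0) :
    Sm (fun t x => f t x / g t x) := by
  have h1 : ContDiffOn ℝ ∞ (fun p : ℝ × ℝ => (g p.1 p.2)⁻¹) (Ioi 0 ×ˢ univ) :=
    ContDiffOn.inv hg (by
      rintro ⟨t, x⟩ ⟨ht, -⟩
      exact h0 t ht x)
  have h2 := ContDiffOn.mul hf h1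
  exact ContDiffOn.congr h2 fun p _ => div_eq_mul_inv _ _

theorem Sm.divC {f g : ℝ → ℝ → ℂ} (hf : Sm f) (hg : Sm g) (h0 : ∀ t, 0 < t → ∀ x, g t x ≠ 0) :
    Sm (fun t x => f t x / g t x) := by
  have h1 : ContDiffOn ℝ ∞ (fun p : ℝ × ℝ => (g p.1 p.2)⁻¹) (Ioi 0 ×ˢ univ) :=
    ContDiffOn.inv hg (by
      rintro ⟨t, x⟩ ⟨ht, -⟩
      exact h0 t ht x)
  have h2 := ContDiffOn.mul hf h1
  exact ContDiffOn.congr h2 fun p _ => div_eq_mul_inv _ _

theorem Sm.powR {f : ℝ → ℝ → ℝ} (hf : Sm f) (n : ℕ) : Sm (fun t x => f t x ^ n) := by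
  exact ContDiffOn.pow hf n

theorem Sm.ofReal {f : ℝ → ℝ → ℝ} (hf : Sm f) : Sm (fun t x => (f t x : ℂ)) := by
  exact Complex.ofRealCLM.contDiff.comp_contDiffOn hf

theorem Sm.im {f : ℝ → ℝ → ℂ} (hf : Sm f) : Sm (fun t x => (f t x).im) := by
  exact Complex.imCLM.contDiff.comp_contDiffOn hf

theorem Sm.conj {f : ℝ → ℝ → ℂ} (hf : Sm f) : Sm (fun t x => (starRingEnd ℂ) (f t x)) := by
  exact Complex.conjCLE.contDiff.comp_contDiffOn hf

theorem Sm.norm {f : ℝ → ℝ → ℂ} (hf : Sm f) (h0 : ∀ t, 0 < t → ∀ x, f t x ≠ 0) :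
    Sm (fun t x => ‖f t x‖) := by
  refine ContDiffOn.norm ℝ hf ?_
  rintro ⟨t, x⟩ ⟨ht, -⟩
  exact h0 t ht x

end Pool.Agent.Work.MP_207eeb_an
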