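import Pool.Agent.Work.MP_207eeb_an.Defs

/-!
# The sharp sup bound for a periodic function of mean zero.  Size: S.

For every `x`: `p x = ∫_0^1 (y - 1/2) p' (x + y) dy` (integration by parts:
`[(y - 1/2) p (x+y)]_0^1 - ∫_0^1 p (x + y) dy = (1/2) p (x+1) + (1/2) p x - 0 = p x`, the last integral is the mean).
Cauchy-Schwarz: `p x ^2 ≤ ∫_0^1 (y - 1/2)^2 dy * ∫_0^1 p' (x+y)^2 dy = (1/12) ∫_0^1 p'^2`.
Consequence: `∫ p^4 ≤ (sup p^2) ∫ p^2 ≤ (1/12) (∫ p'^2) (∫ p^2)`.
-/

namespace Pool.Agent.Work.MP_207eeb_an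

open Set intervalIntegral MeasureTheory

theorem sup_le (p p1 : ℝ → ℝ) (hp : ∀ x, HasDerivAt p (p1 x) x) (hc : Continuous p1)
    (per : ∀ x, p (x + 1) = p x) (h0 : ∫ x in (0 : ℝ)..1, p x = 0) (x : ℝ) :
    p x ^ 2 ≤ (1 / 12) * ∫ y in (0 : ℝ)..1, p1 y ^ 2 := by
  have hpc : Continuous p := continuous_iff_continuousAt.mpr fun y => (hp y).continuousAt
  have per1 : Function.Periodic p1 1 := by
    intro y
    have h1 : HasDerivAt (fun z => p (z + 1)) (p1 (y + 1)) y := (hp (y + 1)).comp_add_const y 1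
    have h2 : (fun z => p (z + 1)) = p := funext per
    rw [h2] at h1
    exact h1.unique (hp y)
  have hshift : ∀ (f : ℝ → ℝ), Function.Periodic f 1 → ∫ y in (0 : ℝ)..1, f (x + y) = ∫ y in (0 : ℝ)..1, f y := by
    intro f hf
    rw [intervalIntegral.integral_comp_add_left]
    have := hf.intervalIntegral_add_eq x 0
    simpa using this
  have hmean : ∫ y in (0 : ℝ)..1, p (x + y) = 0 := by rw [hshift p per, h0]
  have hparts : ∫ y in (0 : ℝ)..1, (y - 1 / 2) * p1 (x + y) = p x := by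
    have h1 : ∀ y ∈ uIcc (0 : ℝ) 1, HasDerivAt (fun y : ℝ => y - 1 / 2) (1 : ℝ) y := by
      intro y _
      simpa using (hasDerivAt_id y).sub_const (1 / 2)
    have h2 : ∀ y ∈ uIcc (0 : ℝ) 1, HasDerivAt (fun y : ℝ => p (x + y)) (p1 (x + y)) y := by
      intro y _
      exact (hp (x + y)).comp_const_add x y
    have h3 := intervalIntegral.integral_mul_deriv_eq_deriv_mul h1 h2
      (by apply Continuous.intervalIntegrable; fun_prop)
      (by apply Continuous.intervalIntegrable; fun_prop)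
    rw [h3]
    simp only [one_mul]
    rw [hmean, per x, add_zero]
    ring
  have hi1 : IntervalIntegrable (fun y => p1 (x + y) ^ 2) volume 0 1 := by
    apply Continuous.intervalIntegrable; fun_prop
  have hi2 : IntervalIntegrable (fun y => (24 * p x) * ((y - 1 / 2) * p1 (x + y))) volume 0 1 := by
    apply Continuous.intervalIntegrable; fun_prop
  have hi3 : IntervalIntegrable (fun y : ℝ => (144 * p x ^ 2) * (y - 1 / 2) ^ 2) volume 0 1 := by
    apply Continuous.intervalIntegrable; fun_prop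
  have hpos : 0 ≤ ∫ y in (0 : ℝ)..1, (p1 (x + y) - 12 * p x * (y - 1 / 2)) ^ 2 :=
    intervalIntegral.integral_nonneg (by norm_num) fun y _ => sq_nonneg _
  have hexp : ∫ y in (0 : ℝ)..1, (p1 (x + y) - 12 * p x * (y - 1 / 2)) ^ 2 =
      (∫ y in (0 : ℝ)..1, p1 y ^ 2) - 24 * p x * p x + 144 * p x ^ 2 * (1 / 12) := by
    have e1 : (fun y : ℝ => (p1 (x + y) - 12 * p x * (y - 1 / 2)) ^ 2) =
        fun y => p1 (x + y) ^ 2 - (24 * p x) * ((y - 1 / 2) * p1 (x + y)) + (144 * p x ^ 2) * (y - 1 / 2) ^ 2 := by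
      funext y
      ring
    rw [e1, intervalIntegral.integral_add (hi1.sub hi2) hi3, intervalIntegral.integral_sub hi1 hi2,
      intervalIntegral.integral_const_mul, intervalIntegral.integral_const_mul, hparts]
    have e2 : ∫ y in (0 : ℝ)..1, (y - 1 / 2 : ℝ) ^ 2 = 1 / 12 := by
      rw [intervalIntegral.integral_comp_sub_right (fun y : ℝ => y ^ 2)]
      rw [integral_pow]
      norm_num
    have e3 := hshift (fun y => p1 y ^ 2) (fun y => by
      show p1 (y + 1) ^ 2 = p1 y ^ 2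
      rw [per1 y])
    rw [e2, e3]
  rw [hexp] at hpos
  nlinarith

theorem p4_le (p p1 : ℝ → ℝ) (hp : ∀ x, HasDerivAt p (p1 x) x) (hc : Continuous p1)
    (per : ∀ x, p (x + 1) = p x) (h0 : ∫ x in (0 : ℝ)..1, p x = 0) :
    (∫ x in (0 : ℝ)..1, p x ^ 4) ≤
      (1 / 12) * (∫ y in (0 : ℝ)..1, p1 y ^ 2) * ∫ x in (0 : ℝ)..1, p x ^ 2 := by
  have hpc : Continuous p := continuous_iff_continuousAt.mpr fun y => (hp y).continuousAt
  rw [← intervalIntegral.integral_const_mul]
  apply intervalIntegral.integral_mono_on (by norm_num)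
  · apply Continuous.intervalIntegrable; fun_prop
  · apply Continuous.intervalIntegrable; fun_prop
  · intro x _
    have h1 := sup_le p p1 hp hc per h0 x
    have h2 : p x ^ 4 = p x ^ 2 * p x ^ 2 := by ring
    rw [h2]
    exact mul_le_mul_of_nonneg_right h1 (sq_nonneg _)

end Pool.Agent.Work.MP_207eeb_an
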